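import Pool.Agent.H16.CHFinal

/-!
JOB TW-C1 (MP_a1f59e_nt). Chen primes in every admissible class modulo `WW (zf ℓ) e`, for a fixed even shift `t`.

PROOF. This is a simplified copy of the proof of `many_chen_gaps` (file H16/CH10.lean), without the uncovered positions (`Bi`, `uncov`, `cover`, `RS`,
`gap_of_GG` are not needed; the class `A0` is arbitrary, only `A0` and `A0 + t` are coprime to `WW`). Constants from
`GC_lower` with `tentCount_holds`, `s2Sum_holds`, `s3Sum_holds` (file CHFinal), `bad_bounds`, `P0 ≥ 4 K0 / cG`. `t` is fixed and `ℓ` large, so `t ≤ ℓ^2`,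
`t ≤ zf ℓ`, `t < z^3`. `CG θ ℓ e t A0` has at least `cG * KK` elements, `KK = x / W * (log z / ℓ)^2` (`GC_le_card`, `totient_WW_le`). Remove
`B0` (`e` prime, `e ∣ n + t`) and `Bs` (`q ^ 2 ∣ n + t`, `q ∈ Qf`), estimated as in the original by `cG / 4 KK` + small terms; the remaining
elements of `CG` are good: `hlarge` (all prime factors of `n + t` are `≥ zR ℓ`: a prime factor `q < zR ℓ` is `≠ e`; `q ≤ z` is impossible
as `n + t ≡ A0 + t` is coprime to `WW`; `q > z` does not divide `t` as `t ≤ z`, so `CG_sieved`), then `chen_pointwise`, and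
`(n + t) < q ^ 8` as in `hR8`. `n` is prime, `Real.exp ℓ / 9 ≤ n` (`aw_ne_zero`).
-/

set_option autoImplicit false

open Finset Filter Topology

namespace Pool.Agent.H2.TW

open Pool.Agent.H16

/-- `n` is prime, `n + t` is a prime or a product of two primes, with all prime factors `q > (n + t)^(1/8)`, `q ≥ exp (ℓ/8)` -/
def ChG (t : ℕ) (ℓ : ℝ) (n : ℕ) : Prop :=
  n.Prime ∧ Real.exp ℓ / 9 ≤ n ∧ IsP2 (n + t) ∧
    ∀ q : ℕ, q.Prime → q ∣ n + t → Real.exp (ℓ / 8) ≤ q ∧ n + t < q ^ 8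

open Classical in
theorem chen_class (t : ℕ) (ht : Even t) (ht0 : 0 < t) : ∃ c : ℝ, 0 < c ∧
    ∀ᶠ ℓ : ℝ in atTop, ∃ e : ℕ, 1 ≤ e ∧ ∀ A0 : ℕ, Nat.Coprime A0 (WW (zf ℓ) e) →
      Nat.Coprime (A0 + t) (WW (zf ℓ) e) →
      c * (Real.exp ℓ / (WW (zf ℓ) e : ℝ) * (Real.log (zf ℓ) / ℓ) ^ 2) ≤
        #((Ioc 0 ⌊Real.exp ℓ⌋₊).filter (fun n => n ≡ A0 [MOD WW (zf ℓ) e] ∧ ChG t ℓ n)) := by
  classical
  obtain ⟨T0, hT⟩ := tentCount_holds
  obtain ⟨c3, hc3, hc3', hS3⟩ := s3Sum_holds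
  obtain ⟨κ, θ, cG0, k, hκ, hκ1, hθ, hθk, hcG0, hGC⟩ := GC_lower hT s2Sum_holds hS3 hc3 hc3'
  obtain ⟨C2, hC2, hbad⟩ := bad_bounds
  set u : ℕ := 7501 with hudef
  have hu : 7501 ≤ u := le_rfl
  set cG : ℝ := cG0 / 2 with hcGdef
  have hcG : 0 < cG := by positivity
  -- constants
  set K0 : ℝ := 4 * (15000 * C2) ^ 2 with hK0
  have hK0pos : 0 < K0 := by positivity
  obtain ⟨P0, hP0⟩ := exists_nat_ge (4 * K0 / cG)
  have hu0 : (0 : ℝ) < u := by
    have : 0 < u := by omega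
    exact_mod_cast this
  refine ⟨cG / 2, by positivity, ?_⟩
  filter_upwards [hGC P0, ev_z, tendsto_zf.eventually (eventually_ge_atTop (t + 1)),
    ev_yf 7500 (by norm_num), ev_yf (2 * u) (by omega), ev_W (1 / 10000) (by norm_num),
    ev_small_chen cG hcG,
    eventually_ge_atTop (max 100000 (t : ℝ))]
    with ℓ hGℓ hz htzf hyf hyu hW12 hs1 hℓbig'
  have hℓbig : 100000 ≤ ℓ := (le_max_left _ _).trans hℓbig'
  have htℓ : (t : ℝ) ≤ ℓ := (le_max_right _ _).trans hℓbig'
  obtain ⟨z1, z2, z3, z4, z5, z6⟩ := hz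
  obtain ⟨y1, y2, y3, y4⟩ := hyf
  obtain ⟨v1, v2, v3, v4⟩ := hyu
  obtain ⟨hLF, e, he, hGe⟩ := hGℓ
  have hℓ0 : 0 < ℓ := by linarith
  have he1 : 1 ≤ e := by
    rcases he with h | ⟨h, _⟩
    · omega
    · exact h.one_le
  refine ⟨e, he1, fun A0 hA0cop hA0tcop => ?_⟩
  set z := zf ℓ with hzdef
  set y := yf ℓ 7500 with hydef
  set yu := yf ℓ (2 * u) with hyudef
  set x := Real.exp ℓ with hx
  have hx0 : 0 < x := Real.exp_pos _
  have hzl := zw_large z z1
  have hz0 : (0 : ℝ) < z := by linarith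
  have hlz0 : 0 < Real.log z := by linarith
  have hlz1 : 1 ≤ Real.log z := by linarith
  have ht2 : (t : ℝ) ≤ ℓ ^ 2 := by nlinarith
  have hGC0 := hGe t A0 ht0 ht2 hA0cop hA0tcop
  have hGcard0 := hGC0.trans (GC_le_card hℓ0.le e t A0)
  have htz : t < z := htzf
  -- t < z^3
  have htz3 : t < z ^ 3 := lt_of_lt_of_le htz (Nat.le_self_pow (by norm_num) z)
  -- exponent facts
  have hhalf : Real.exp (ℓ / 2) ≤ x / 9 := by
    have h1 : x = Real.exp (ℓ / 2) * Real.exp (ℓ / 2) := by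
      rw [hx, ← Real.exp_add]; congr 1; ring
    have h2 : 9 ≤ Real.exp (ℓ / 2) := by
      have := Real.add_one_le_exp (ℓ / 2); linarith
    rw [le_div_iff₀ (by norm_num), h1]
    exact mul_le_mul_of_nonneg_left h2 (Real.exp_pos _).le
  have hyuu : (yu : ℝ) ^ u ≤ x / 9 := by
    refine le_trans ?_ hhalf
    calc (yu : ℝ) ^ u ≤ (Real.exp (ℓ / (2 * u : ℕ))) ^ u := pow_le_pow_left₀ (Nat.cast_nonneg _) v2 u
      _ = Real.exp (ℓ / 2) := by
          rw [← Real.exp_nat_mul]; congr 1; push_cast; field_simp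
  have hyuy : yu ≤ y := by
    apply Nat.floor_le_floor
    apply Real.exp_le_exp.mpr
    apply div_le_div_of_nonneg_left hℓ0.le (by norm_num)
    exact_mod_cast (show 7500 ≤ 2 * u by omega)
  have hzu : (z : ℝ) ^ u ≤ x / 9 :=
    (pow_le_pow_left₀ hz0.le (by exact_mod_cast v4.le) u).trans hyuu
  have htx : (t : ℝ) ≤ x := by
    have h4 : ℓ * ℓ ≤ x := by
      have h5 : (0 : ℝ) ≤ ℓ / 2 := by positivity
      have h7 : x = Real.exp (ℓ / 2) * Real.exp (ℓ / 2) := by
        rw [hx, ← Real.exp_add]; congr 1; ring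
      have h8 := Real.quadratic_le_exp_of_nonneg h5
      have h9 : ℓ ≤ Real.exp (ℓ / 2) := by linarith [sq_nonneg (ℓ - 2)]
      rw [h7]
      exact mul_le_mul h9 h9 hℓ0.le (Real.exp_pos _).le
    calc (t : ℝ) ≤ ℓ ^ 2 := ht2
      _ = ℓ * ℓ := sq ℓ
      _ ≤ x := h4
  have hexp7500 : 2 < Real.exp (ℓ / 7500) := by
    have := Real.add_one_le_exp (ℓ / 7500)
    linarith
  push_cast at y1 y2
  have hyzR : (y : ℝ) < zR ℓ := by
    refine lt_of_le_of_lt y2 ?_
    unfold zR; apply Real.exp_lt_exp.mpr; linarith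
  have hyyy : y ≤ yy ℓ := by
    have h1 := hLF.zy.trans hLF.yh
    have h2 : (y : ℝ) ≤ yy ℓ := hyzR.le.trans h1
    exact_mod_cast h2
  -- main quantity
  have hWpos : (0 : ℝ) < WW z e := by exact_mod_cast WW_pos z e
  set W : ℝ := (WW z e : ℝ) with hWdef
  set KK : ℝ := x / W * (Real.log z / ℓ) ^ 2 with hKK
  have hKKpos : 0 < KK := by positivity
  have hGcard : cG * KK ≤ #(CG θ ℓ e t A0) := by
    have hz2 : 2 ≤ z := by
      have : (2 : ℝ) ≤ z := by linarith
      exact_mod_cast this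
    have h1 := totient_WW_le z e hz2
    have hφ := φW_pos ℓ e
    have h2 : φW ℓ e * Real.log z ≤ 2 * W := h1
    have h3 : x / W * Real.log z / 2 ≤ x / φW ℓ e := by
      rw [div_mul_eq_mul_div, div_div, div_le_div_iff₀ (by positivity) hφ]
      calc x * Real.log z * φW ℓ e = x * (φW ℓ e * Real.log z) := by ring
        _ ≤ x * (2 * W) := mul_le_mul_of_nonneg_left h2 hx0.le
        _ = x * (W * 2) := by ring
    have h4 : cG * KK * ℓ ≤ ℓ * #(CG θ ℓ e t A0) := by
      refine le_trans ?_ hGcard0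
      calc cG * KK * ℓ = cG0 * ((x / W * Real.log z / 2) * (Real.log z / ℓ)) := by
            rw [hcGdef, hKK]; field_simp
        _ ≤ cG0 * (x / φW ℓ e * (Real.log z / ℓ)) := by
            apply mul_le_mul_of_nonneg_left _ hcG0.le
            exact mul_le_mul_of_nonneg_right h3 (by positivity)
    rw [mul_comm ℓ] at h4
    exact le_of_mul_le_mul_right h4 hℓ0
  obtain ⟨hb0, hbi⟩ := hbad ℓ u z y yu e t A0 (by omega) z1 v4.le hyuy ht0 htz3 hyuu
  -- bad 0
  set B0 : Finset ℕ := (CG θ ℓ e t A0).filter (fun n => e.Prime ∧ e ∣ n + t) with hB0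
  have hly : ℓ / 15000 ≤ Real.log y := by
    have : ℓ / (2 * (7500 : ℕ)) = ℓ / 15000 := by push_cast; norm_num
    rw [← this]; exact y3
  have hly0 : 0 < Real.log y := by
    have : 0 < ℓ / 15000 := by positivity
    linarith
  have hy50 : (y : ℝ) ^ 50 ≤ Real.exp (ℓ / 150) := by
    calc (y : ℝ) ^ 50 ≤ (Real.exp (ℓ / 7500)) ^ 50 := pow_le_pow_left₀ (Nat.cast_nonneg _) y2 50
      _ = _ := by rw [← Real.exp_nat_mul]; congr 1; push_cast; ring
  have hyu50 : (yu : ℝ) ^ 50 ≤ Real.exp (ℓ / 150) :=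
    (pow_le_pow_left₀ (Nat.cast_nonneg _) (by exact_mod_cast hyuy) 50).trans hy50
  have hWx : ∀ e' : ℕ, (e' : ℝ) ≤ Real.exp (ℓ / 7500) → ((WW z e * e' : ℕ) : ℝ) ≤ x := by
    intro e' he'
    push_cast
    calc (WW z e : ℝ) * e' ≤ Real.exp (1 / 10000 * ℓ) * Real.exp (ℓ / 7500) :=
          mul_le_mul (hW12 e).2 he' (Nat.cast_nonneg _) (Real.exp_pos _).le
      _ = Real.exp (1 / 10000 * ℓ + ℓ / 7500) := by rw [Real.exp_add]
      _ ≤ x := Real.exp_le_exp.mpr (by linarith)
  have hB0card : (#B0 : ℝ) ≤ cG / 4 * KK + Real.exp (ℓ / 150) + 2 * x * Real.exp (-(ℓ / 7500)) := by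
    have hpos3 : 0 ≤ 2 * x * Real.exp (-(ℓ / 7500)) := by positivity
    have hpos4 : 0 < cG / 4 * KK := by positivity
    have hpos5 : 0 < Real.exp (ℓ / 150) := Real.exp_pos _
    by_cases hep : e.Prime
    swap
    · have : B0 = ∅ := by
        rw [hB0]
        apply Finset.filter_false_of_mem
        intro n _ h
        exact hep h.1
      rw [this, Finset.card_empty, Nat.cast_zero]
      positivity
    by_cases hey : e ≤ y
    · have hPe : (P0 : ℝ) ≤ e := by
        rcases he with h | ⟨_, h⟩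
        · exact absurd h hep.ne_one
        · exact_mod_cast h.le
      have he0 : (0 : ℝ) < e := by exact_mod_cast hep.pos
      have h1 := hb0 hep hey
      have h1' : (#B0 : ℝ) ≤ #((GG ℓ z y e t A0).filter (fun n => e ∣ n + t)) := by
        have : B0 ⊆ (GG ℓ z y e t A0).filter (fun n => e ∣ n + t) := by
          intro n hn
          rw [hB0, Finset.mem_filter] at hn
          rw [Finset.mem_filter]
          exact ⟨CG_sub_GG hLF hyzR hyyy hn.1, hn.2.2⟩
        exact_mod_cast Finset.card_le_card this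
      refine (h1'.trans h1).trans ?_
      have hey' : (e : ℝ) ≤ Real.exp (ℓ / 7500) := le_trans (by exact_mod_cast hey) y2
      have hWe := hWx e hey'
      have hWe0 : (0 : ℝ) < ((WW z e * e : ℕ) : ℝ) := by
        have := Nat.mul_pos (WW_pos z e) hep.pos
        exact_mod_cast this
      have h2 : x / ((WW z e * e : ℕ) : ℝ) + 1 ≤ 2 * (x / ((WW z e * e : ℕ) : ℝ)) := by
        have : 1 ≤ x / ((WW z e * e : ℕ) : ℝ) := by rw [le_div_iff₀ hWe0]; linarith
        linarith
      have h3 : (C2 * (Real.log z / Real.log y)) ^ 2 ≤ (15000 * C2) ^ 2 * (Real.log z / ℓ) ^ 2 := by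
        rw [← mul_pow]
        apply pow_le_pow_left₀ (by positivity)
        have h4 : Real.log z / Real.log y ≤ Real.log z / (ℓ / 15000) :=
          div_le_div_of_nonneg_left hlz0.le (by positivity) hly
        calc C2 * (Real.log z / Real.log y) ≤ C2 * (Real.log z / (ℓ / 15000)) :=
              mul_le_mul_of_nonneg_left h4 hC2.le
          _ = _ := by field_simp
      have h5 : 2 * (x / ((WW z e * e : ℕ) : ℝ) + 1) * (C2 * (Real.log z / Real.log y)) ^ 2 ≤
          2 * (2 * (x / ((WW z e * e : ℕ) : ℝ))) * ((15000 * C2) ^ 2 * (Real.log z / ℓ) ^ 2) := by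
        apply mul_le_mul _ h3 (by positivity) (by positivity)
        linarith
      have h6 : 2 * (2 * (x / ((WW z e * e : ℕ) : ℝ))) * ((15000 * C2) ^ 2 * (Real.log z / ℓ) ^ 2) =
          (K0 / e) * KK := by
        rw [hK0, hKK, hWdef]
        push_cast
        field_simp
        ring
      have h7 : K0 / e ≤ cG / 4 := by
        rw [div_le_iff₀ he0]
        rw [div_le_iff₀ hcG] at hP0
        have := mul_le_mul_of_nonneg_left hPe hcG.le
        linarith
      have h8 := mul_le_mul_of_nonneg_right h7 hKKpos.le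
      linarith
    · push Not at hey
      have h1 : (#B0 : ℝ) ≤ #((Ioc 0 ⌊x⌋₊).filter (fun n => e ∣ n + t)) := by
        have : B0 ⊆ (Ioc 0 ⌊x⌋₊).filter (fun n => e ∣ n + t) := by
          intro n hn
          rw [hB0, Finset.mem_filter, mem_CG] at hn
          have h2 := hn.1.1
          unfold SS at h2
          rw [Finset.mem_filter] at h2
          rw [Finset.mem_filter]
          exact ⟨h2.1, hn.2.2⟩
        exact_mod_cast Finset.card_le_card this
      have h2 := count_shift ⌊x⌋₊ t e hep.pos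
      have h3 : (⌊x⌋₊ : ℝ) ≤ x := Nat.floor_le hx0.le
      have he0 : (0 : ℝ) < e := by exact_mod_cast hep.pos
      have h4 : Real.exp (ℓ / 7500) ≤ e := by
        have : (y : ℝ) + 1 ≤ e := by exact_mod_cast hey
        linarith
      have h5 : ((⌊x⌋₊ : ℝ) + t) / e ≤ 2 * x * Real.exp (-(ℓ / 7500)) := by
        rw [Real.exp_neg, ← div_eq_mul_inv]
        apply div_le_div₀ (by positivity) (by linarith) (Real.exp_pos _) h4
      linarith
  -- squares
  set Bs : Finset ℕ := (Ioc 0 ⌊x⌋₊).filter (fun n => ∃ q ∈ Qf ℓ e, q ^ 2 ∣ n + t) with hBs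
  have hBscard : (#Bs : ℝ) ≤ 4 * ℓ * (x * Real.exp (-(ℓ / 8))) := by
    refine (count_squares hLF e t htx).trans ?_
    have h1 : Real.exp (ℓ / 8) ≤ zR ℓ := by unfold zR; apply Real.exp_le_exp.mpr; linarith
    calc 2 * x / zR ℓ * (2 * ℓ) ≤ 2 * x / Real.exp (ℓ / 8) * (2 * ℓ) := by
          apply mul_le_mul_of_nonneg_right _ (by positivity)
          exact div_le_div_of_nonneg_left (by positivity) (Real.exp_pos _) h1
      _ = _ := by rw [Real.exp_neg]; ring
  -- good ones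
  set GD : Finset ℕ := (Ioc 0 ⌊x⌋₊).filter (fun n => n ≡ A0 [MOD WW z e] ∧ ChG t ℓ n) with hGD
  have hsub : CG θ ℓ e t A0 ⊆ GD ∪ (B0 ∪ Bs) := by
    intro n hn
    rw [Finset.mem_union, Finset.mem_union]
    by_cases h1 : n ∈ B0
    · exact Or.inr (Or.inl h1)
    by_cases h1' : n ∈ Bs
    · exact Or.inr (Or.inr h1')
    left
    have hnG := CG_sub_GG hLF hyzR hyyy hn
    have hnG' := mem_GG.mp hnG
    obtain ⟨⟨hn0, hnN⟩, hmod, hnp, hny, hn9, hnP⟩ := hnG'
    have hxn : (n : ℝ) ≤ x := (Nat.le_floor_iff hx0.le).mp hnN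
    have hne : e.Prime → ¬ e ∣ n + t := by
      intro hep hd
      apply h1
      rw [hB0, Finset.mem_filter]
      exact ⟨hn, hep, hd⟩
    have hsq : ∀ q ∈ Qf ℓ e, ¬ q ^ 2 ∣ n + t := by
      intro q hq hd
      apply h1'
      rw [hBs, Finset.mem_filter, Finset.mem_Ioc]
      exact ⟨⟨hn0, hnN⟩, q, hq, hd⟩
    -- all prime factors of n + t are large
    have hlarge : ∀ q, q.Prime → q ∣ n + t → zR ℓ ≤ q := by
      intro q hq hqd
      by_contra hcon
      push Not at hcon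
      by_cases hqe : q = e
      · subst hqe
        exact hne hq hqd
      by_cases hqz : q ≤ z
      · have hqW : q ∣ WW z e := dvd_WW hq hqz hqe
        have h0 : n ≡ A0 [MOD q] := hmod.of_dvd hqW
        have h1 : A0 + t ≡ 0 [MOD q] :=
          (Nat.ModEq.add_right t h0.symm).trans (Nat.modEq_zero_iff_dvd.mpr hqd)
        have h2 : q ∣ A0 + t := Nat.modEq_zero_iff_dvd.mp h1
        exact hq.one_lt.ne' (Nat.dvd_one.mp (hA0tcop ▸ Nat.dvd_gcd h2 hqW))
      · have hqt : ¬ q ∣ t := by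
          intro hqt
          have h3 := Nat.le_of_dvd ht0 hqt
          omega
        exact CG_sieved hLF hn q hq (by omega) hqe hqt hcon hqd
    have hcast : ((n + t : ℕ) : ℝ) = n + t := by push_cast; ring
    have hnt3 : ((n + t : ℕ) : ℝ) < yR ℓ ^ 3 := by
      rw [hcast]
      have h3 : yR ℓ ^ 3 = 8 * x := by
        unfold yR
        rw [mul_pow, ← Real.exp_nat_mul]
        have : ((3 : ℕ) : ℝ) * (ℓ / 3) = ℓ := by push_cast; ring
        rw [this, hx]; norm_num
      rw [h3]; linarith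
    have hP2 : IsP2 (n + t) := by
      rw [mem_CG] at hn
      exact chen_pointwise hLF e t n (by omega) hnt3 hlarge hne hsq hn.2.2.2
        (by have := hnp.two_le; omega)
    have hR8 : ∀ q : ℕ, q.Prime → q ∣ n + t → Real.exp (ℓ / 8) ≤ q ∧ n + t < q ^ 8 := by
      intro q hq hqd
      have h3 := hlarge q hq hqd
      have h4 : zR ℓ ^ 8 = Real.exp 1 * x := by
        have h44 : zR ℓ ^ 8 = Real.exp (1 + ℓ) := by
          unfold zR
          rw [← Real.exp_nat_mul]
          congr 1; push_cast; ring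
        rw [h44, Real.exp_add]
      refine ⟨?_, ?_⟩
      · refine le_trans ?_ h3
        unfold zR
        apply Real.exp_le_exp.mpr
        linarith
      · have h5 : ((n + t : ℕ) : ℝ) < (q : ℝ) ^ 8 := by
          rw [hcast]
          calc (n : ℝ) + t ≤ 2 * x := by linarith
            _ < Real.exp 1 * x := by
                apply mul_lt_mul_of_pos_right _ hx0
                have := Real.exp_one_gt_d9; linarith
            _ = zR ℓ ^ 8 := h4.symm
            _ ≤ (q : ℝ) ^ 8 := pow_le_pow_left₀ (zR_pos ℓ).le h3 8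
        exact_mod_cast h5
    rw [hGD, Finset.mem_filter, Finset.mem_Ioc]
    exact ⟨⟨hn0, hnN⟩, hmod, hnp, hn9.le, hP2, hR8⟩
  have hcard : (#(CG θ ℓ e t A0) : ℝ) ≤ #GD + (#B0 + #Bs) := by
    have h1 := (Finset.card_le_card hsub).trans (Finset.card_union_le _ _)
    have h2' := Finset.card_union_le B0 Bs
    have h4 : #(CG θ ℓ e t A0) ≤ #GD + (#B0 + #Bs) := by omega
    exact_mod_cast h4
  have hlzℓ : 1 / ℓ ≤ Real.log z / ℓ := div_le_div_of_nonneg_right hlz1 hℓ0.le
  have hlzℓ2 : (1 / ℓ) ^ 2 ≤ (Real.log z / ℓ) ^ 2 := pow_le_pow_left₀ (by positivity) hlzℓ 2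
  have hKlow : ∀ B : ℝ, 0 < B → W ≤ B → x / B * (1 / ℓ) ^ 2 ≤ KK := by
    intro B hB hWB
    rw [hKK]
    apply mul_le_mul _ hlzℓ2 (by positivity) (by positivity)
    exact div_le_div_of_nonneg_left hx0.le hWpos hWB
  have hk1 := hKlow _ (Real.exp_pos _) (hW12 e).2
  have hs1' := hs1.trans (mul_le_mul_of_nonneg_left hk1 (by positivity : (0 : ℝ) ≤ cG / 4))
  have hpos6 : 0 ≤ ℓ ^ 2 * Real.exp (ℓ / 150) := by positivity
  have hgoal : cG / 2 * KK ≤ (#GD : ℝ) := by linarith
  exact hgoal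

end Pool.Agent.H2.TW
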