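import Pool.Agent.H2.TW.NT
import Pool.Agent.H16.PG4

/-!
JOB TW-C2 (MP_a1f59e_nt). From classes modulo `WW (zf ℓ) e` to classes modulo `W1 ℓ e`.

PROOF of `class_sum`. `W' = WW (zf ℓ) e = W1 ℓ e * M`, `M = ∏` of the primes `p ≠ e`, `w1 ℓ < p ≤ zf ℓ` (`w1 ℓ ≤ zf ℓ` for large `ℓ`). Let `B` be the set of the
`A0 ∈ range W'` with `A0 ≡ b [MOD W1 ℓ e]` and `¬ p ∣ A0`, `¬ p ∣ A0 + t` for all `p ∣ M`: they satisfy both coprimality conditions, and by the Chinese remainder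
theorem `#B = ∏_{p ∣ M} (p - 2)` (`p > w1 ℓ ≥ t + 2` for large `ℓ`, so the classes `0`, `-t` are distinct). The sets
`{n ∈ G | n ≡ A0 [MOD W']}`, `A0 ∈ B`, are disjoint subsets of `{n ∈ G | n ≡ b [MOD W1 ℓ e]}`. So the right side is at least
`κ exp ℓ / W' (log z / ℓ)^2 ∏ (p - 2) = κ exp ℓ / W1 ∏_{p ∣ M} (1 - 2/p) (log z / ℓ)^2`, `z = zf ℓ`. As
`(1 - 2/p) ≥ (1 - 1/p)^2 (1 - 2/p^2)` roughly (`(1 - 2/p) / (1 - 1/p)^2 = 1 - 1/(p-1)^2`, and `∏_{n ≥ 2} (1 - 1/n^2) ≥ 1/2`) and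
`∏_{w1 < p ≤ z} (1 - 1/p) = Vp z / Vp w1 ≥ (c/log z) / (1/log w1)` (`Vp_ge`, `Vp_le`, `Vp_mul`; leaving out `p = e` only increases the product), this is
`≥ κ (c^2/2) exp ℓ / W1 (log w1 / ℓ)^2`, and `Dns 2 ℓ e ≤ C^2 exp ℓ / W1 (log w1 / ℓ)^2` by `W1_totient_ge` (file NT).
-/

set_option autoImplicit false

open Finset Filter Topology

namespace Pool.Agent.H2.TW

open Pool.Agent.H16 Pool.Agent.H2.NC

open Classical in
/-- summing over the classes modulo the primes of `P` -/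
theorem class_ind (t : ℕ) (G : Finset ℕ) (X : ℝ) (hX : 0 ≤ X) (P : Finset ℕ) :
    (∀ p ∈ P, p.Prime) → ∀ (W b : ℕ), 0 < W → (∀ p ∈ P, ¬ p ∣ W) →
    (∀ A, A ≡ b [MOD W] → (∀ p ∈ P, ¬ p ∣ A ∧ ¬ p ∣ A + t) →
      X ≤ #(G.filter (fun n => n ≡ A [MOD W * ∏ p ∈ P, p]))) →
    (∏ p ∈ P, ((p : ℝ) - 2)) * X ≤ #(G.filter (fun n => n ≡ b [MOD W])) := by
  induction P using Finset.induction_on with
  | empty =>
    intro _ W b _ _ h
    have := h b rfl (by simp)
    simpa using this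
  | insert p S hpS ih =>
    intro hP W b hW hPW h
    have hp : p.Prime := hP p (Finset.mem_insert_self _ _)
    have hS : ∀ q ∈ S, q.Prime := fun q hq => hP q (Finset.mem_insert_of_mem hq)
    have hpW : Nat.Coprime W p :=
      ((Nat.Prime.coprime_iff_not_dvd hp).mpr (hPW p (Finset.mem_insert_self _ _))).symm
    set C : Finset ℕ := (Finset.range p).filter (fun c => ¬ p ∣ c ∧ ¬ p ∣ c + t) with hC
    have hCcard : p - 2 ≤ #C := by
      have h1 : Finset.range p \ {0, (p - t % p) % p} ⊆ C := by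
        intro c hc
        rw [Finset.mem_sdiff, Finset.mem_range, Finset.mem_insert, Finset.mem_singleton,
          not_or] at hc
        obtain ⟨hcp, hc0, hct⟩ := hc
        rw [hC, Finset.mem_filter, Finset.mem_range]
        refine ⟨hcp, fun hd => hc0 (Nat.eq_zero_of_dvd_of_lt hd hcp), fun hd => hct ?_⟩
        have h2 : t % p < p := Nat.mod_lt _ hp.pos
        have h3 : p ∣ c + t % p := by
          have h4 : c + t = c + t % p + p * (t / p) := by
            have := Nat.mod_add_div t p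
            omega
          rw [h4] at hd
          exact (Nat.dvd_add_left (dvd_mul_right p (t / p))).mp hd
        obtain ⟨j, hj⟩ := h3
        have hj2 : j < 2 := by
          by_contra hcon
          push Not at hcon
          have := Nat.mul_le_mul_left p hcon
          omega
        interval_cases j
        · have : c = 0 := by omega
          exact absurd this hc0
        · have h5 : c = p - t % p := by omega
          rw [← h5, Nat.mod_eq_of_lt hcp]
      refine le_trans ?_ (Finset.card_le_card h1)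
      refine le_trans ?_ (Finset.le_card_sdiff _ _)
      rw [Finset.card_range]
      have : #({0, (p - t % p) % p} : Finset ℕ) ≤ 2 := Finset.card_le_two
      omega
    set bc : ℕ → ℕ := fun c => (Nat.chineseRemainder hpW b c : ℕ) with hbc
    have hbcW : ∀ c, bc c ≡ b [MOD W] := fun c => (Nat.chineseRemainder hpW b c).2.1
    have hbcp : ∀ c, bc c ≡ c [MOD p] := fun c => (Nat.chineseRemainder hpW b c).2.2
    have key : ∀ c ∈ C, (∏ q ∈ S, ((q : ℝ) - 2)) * X ≤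
        #(G.filter (fun n => n ≡ bc c [MOD W * p])) := by
      intro c hc
      rw [hC, Finset.mem_filter, Finset.mem_range] at hc
      refine ih hS (W * p) (bc c) (Nat.mul_pos hW hp.pos) ?_ ?_
      · intro q hq hd
        rcases (hS q hq).dvd_mul.mp hd with h1 | h1
        · exact hPW q (Finset.mem_insert_of_mem hq) h1
        · rw [Nat.prime_dvd_prime_iff_eq (hS q hq) hp] at h1
          exact hpS (h1 ▸ hq)
      · intro A hA hAS
        have hAW : A ≡ b [MOD W] := (Nat.ModEq.of_mul_right p hA).trans (hbcW c)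
        have hAp : A ≡ c [MOD p] := (Nat.ModEq.of_mul_left W hA).trans (hbcp c)
        have h1 := h A hAW (by
          intro q hq
          rcases Finset.mem_insert.mp hq with h2 | h2
          · subst h2
            constructor
            · intro hd
              exact hc.2.1 ((hAp.dvd_iff dvd_rfl).mp hd)
            · intro hd
              exact hc.2.2 (((hAp.add_right t).dvd_iff dvd_rfl).mp hd)
          · exact hAS q h2)
        rw [Finset.prod_insert hpS, ← mul_assoc] at h1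
        exact h1
    have hdisj : (#(C.biUnion (fun c => G.filter (fun n => n ≡ bc c [MOD W * p]))) : ℝ) =
        ∑ c ∈ C, (#(G.filter (fun n => n ≡ bc c [MOD W * p])) : ℝ) := by
      rw [Finset.card_biUnion]
      · push_cast; rfl
      · intro c hc d hd hcd
        rw [Function.onFun, Finset.disjoint_left]
        intro n hn hm
        rw [Finset.mem_filter] at hn hm
        have h1 : n ≡ c [MOD p] := (Nat.ModEq.of_mul_left W hn.2).trans (hbcp c)
        have h2 : n ≡ d [MOD p] := (Nat.ModEq.of_mul_left W hm.2).trans (hbcp d)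
        rw [hC, Finset.mem_coe, Finset.mem_filter, Finset.mem_range] at hc hd
        have h3 := h1.symm.trans h2
        rw [Nat.ModEq, Nat.mod_eq_of_lt hc.1, Nat.mod_eq_of_lt hd.1] at h3
        exact hcd h3
    have hsub : C.biUnion (fun c => G.filter (fun n => n ≡ bc c [MOD W * p])) ⊆
        G.filter (fun n => n ≡ b [MOD W]) := by
      intro n hn
      rw [Finset.mem_biUnion] at hn
      obtain ⟨c, _, hn⟩ := hn
      rw [Finset.mem_filter] at hn ⊢
      exact ⟨hn.1, (Nat.ModEq.of_mul_right p hn.2).trans (hbcW c)⟩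
    have hfin : (∑ c ∈ C, (#(G.filter (fun n => n ≡ bc c [MOD W * p])) : ℝ)) ≤
        #(G.filter (fun n => n ≡ b [MOD W])) := by
      rw [← hdisj]
      exact_mod_cast Finset.card_le_card hsub
    refine le_trans ?_ hfin
    refine le_trans ?_ (Finset.sum_le_sum key)
    rw [Finset.sum_const, nsmul_eq_mul, Finset.prod_insert hpS]
    have hQ : 0 ≤ (∏ q ∈ S, ((q : ℝ) - 2)) * X := by
      apply mul_nonneg _ hX
      apply Finset.prod_nonneg
      intro q hq
      have : (2 : ℝ) ≤ q := by exact_mod_cast (hS q hq).two_le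
      linarith
    have hcc : (p : ℝ) - 2 ≤ (#C : ℝ) := by
      have h1 : (p : ℝ) ≤ #C + 2 := by
        have : p ≤ #C + 2 := by omega
        exact_mod_cast this
      linarith
    calc ((p : ℝ) - 2) * (∏ q ∈ S, ((q : ℝ) - 2)) * X =
        ((p : ℝ) - 2) * ((∏ q ∈ S, ((q : ℝ) - 2)) * X) := by ring
      _ ≤ _ := mul_le_mul_of_nonneg_right hcc hQ

/-- `WW z e` is `W1 ℓ e` times the primes above `w1 ℓ` -/
theorem WW_eq (ℓ : ℝ) (e : ℕ) (h : w1 ℓ ≤ zf ℓ) :
    WW (zf ℓ) e = W1 ℓ e * ∏ p ∈ (primesIoc (w1 ℓ) (zf ℓ)).erase e, p := by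
  unfold WW W1
  rw [← Finset.prod_union]
  · congr 1
    ext p
    simp only [Finset.mem_union, Finset.mem_erase, Nat.mem_primesLE, mem_primesIoc]
    constructor
    · rintro ⟨h1, h2, h3⟩
      have := h3.one_lt
      by_cases h4 : p ≤ w1 ℓ
      · exact Or.inl ⟨h1, this, h4, h3⟩
      · exact Or.inr ⟨h1, by omega, h2, h3⟩
    · rintro (⟨h1, h2, h3, h4⟩ | ⟨h1, h2, h3, h4⟩)
      · exact ⟨h1, by omega, h4⟩
      · exact ⟨h1, by omega, h4⟩
  · rw [Finset.disjoint_left]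
    intro p hp hq
    rw [Finset.mem_erase, mem_primesIoc] at hp hq
    omega

/-- the product of `p - 2` -/
theorem prod_sub_two_ge (w z : ℕ) (hw : 100 ≤ w) (P : Finset ℕ) (hP : P ⊆ primesIoc w z) :
    (∏ p ∈ P, (p : ℝ)) * (1 / 2 * (∏ p ∈ primesIoc w z, (1 - 1 / (p : ℝ))) ^ 2) ≤
      ∏ p ∈ P, ((p : ℝ) - 2) := by
  have hp3 : ∀ p ∈ primesIoc w z, (101 : ℝ) ≤ p := by
    intro p hp
    rw [mem_primesIoc] at hp
    exact_mod_cast (show 101 ≤ p by omega)
  have e1 : ∏ p ∈ P, ((p : ℝ) - 2) = (∏ p ∈ P, (p : ℝ)) *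
      ((∏ p ∈ P, (1 - 1 / (p : ℝ))) * ∏ p ∈ P, (1 - 1 / ((p : ℝ) - 1))) := by
    rw [← Finset.prod_mul_distrib, ← Finset.prod_mul_distrib]
    apply Finset.prod_congr rfl
    intro p hp
    have := hp3 p (hP hp)
    have h1 : (p : ℝ) - 1 ≠ 0 := by linarith
    have h2 : (p : ℝ) ≠ 0 := by linarith
    field_simp
    ring
  rw [e1]
  have hpos : 0 ≤ ∏ p ∈ P, (p : ℝ) := Finset.prod_nonneg fun p _ => Nat.cast_nonneg _
  refine mul_le_mul_of_nonneg_left ?_ hpos
  have h1 : ∏ p ∈ primesIoc w z, (1 - 1 / (p : ℝ)) ≤ ∏ p ∈ P, (1 - 1 / (p : ℝ)) := by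
    rw [← Finset.prod_sdiff hP]
    have hpos : 0 < ∏ p ∈ P, (1 - 1 / (p : ℝ)) :=
      Finset.prod_pos (fun p hp => one_sub_inv_pos (mem_primesIoc.mp (hP hp)).2.2)
    exact mul_le_of_le_one_left hpos.le (prod_one_sub_le_one _)
  have h2 := prod_g_ge w z hw P hP
  have h0 : 0 ≤ ∏ p ∈ primesIoc w z, (1 - 1 / (p : ℝ)) :=
    Finset.prod_nonneg fun p hp => (one_sub_inv_pos (mem_primesIoc.mp hp).2.2).le
  calc 1 / 2 * (∏ p ∈ primesIoc w z, (1 - 1 / (p : ℝ))) ^ 2 =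
      (∏ p ∈ primesIoc w z, (1 - 1 / (p : ℝ))) *
        (1 / 2 * ∏ p ∈ primesIoc w z, (1 - 1 / (p : ℝ))) := by ring
    _ ≤ _ := mul_le_mul h1 h2 (by positivity) (h0.trans h1)

theorem ev_w1 : ∀ᶠ ℓ : ℝ in atTop, 100 ≤ w1 ℓ ∧ w1 ℓ ≤ zf ℓ ∧ 1 ≤ ℓ := by
  filter_upwards [ev_z, ev_log_pow 1 (1 / 2) 1 (by norm_num) (by norm_num),
    Real.tendsto_log_atTop.eventually (eventually_ge_atTop (100 : ℝ)),
    eventually_ge_atTop (1 : ℝ)] with ℓ hz h1 h2 h3
  refine ⟨?_, ?_, h3⟩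
  · unfold w1
    exact Nat.le_floor (by exact_mod_cast h2)
  · have h4 : (w1 ℓ : ℝ) ≤ Real.log ℓ := by
      unfold w1
      exact Nat.floor_le (by linarith)
    have h5 : (w1 ℓ : ℝ) ≤ (zf ℓ : ℝ) := by
      have := hz.2.2.2.2.2
      rw [pow_one, one_mul] at h1
      linarith
    exact_mod_cast h5

open Classical in
theorem class_sum (t : ℕ) (ht0 : 0 < t) : ∃ c : ℝ, 0 < c ∧ ∀ᶠ ℓ : ℝ in atTop,
    ∀ (e : ℕ) (G : Finset ℕ) (κ : ℝ), 0 ≤ κ → (∀ A0 : ℕ, Nat.Coprime A0 (WW (zf ℓ) e) →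
      Nat.Coprime (A0 + t) (WW (zf ℓ) e) →
      κ * (Real.exp ℓ / (WW (zf ℓ) e : ℝ) * (Real.log (zf ℓ) / ℓ) ^ 2) ≤
        #(G.filter (fun n => n ≡ A0 [MOD WW (zf ℓ) e]))) →
    ∀ b : ℕ, Nat.Coprime b (W1 ℓ e) → Nat.Coprime (b + t) (W1 ℓ e) →
      c * κ * Dns 2 ℓ e ≤ #(G.filter (fun n => n ≡ b [MOD W1 ℓ e])) := by
  obtain ⟨c0, hc0, hV⟩ := Vp_ge
  obtain ⟨C, hC, hW⟩ := W1_totient_ge
  refine ⟨c0 ^ 2 / (2 * C ^ 2), by positivity, ?_⟩
  filter_upwards [ev_w1, ev_z] with ℓ hw hz e G κ hκ hG b hb1 hb2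
  obtain ⟨hw100, hwz, hℓ1⟩ := hw
  set w := w1 ℓ with hwdef
  set z := zf ℓ with hzdef
  set P := (primesIoc w z).erase e with hPdef
  have hPsub : P ⊆ primesIoc w z := Finset.erase_subset _ _
  have hPpr : ∀ p ∈ P, p.Prime := fun p hp => (mem_primesIoc.mp (hPsub hp)).2.2
  have hWW : WW z e = W1 ℓ e * ∏ p ∈ P, p := WW_eq ℓ e hwz
  have hW0 : (0 : ℝ) < W1 ℓ e := by exact_mod_cast W1_pos ℓ e
  have hM0 : (0 : ℝ) < ∏ p ∈ P, (p : ℝ) :=
    Finset.prod_pos fun p hp => by exact_mod_cast (hPpr p hp).pos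
  set X : ℝ := κ * (Real.exp ℓ / (WW z e : ℝ) * (Real.log z / ℓ) ^ 2) with hX
  have hX0 : 0 ≤ X := by positivity
  have key := class_ind t G X hX0 P hPpr (W1 ℓ e) b (W1_pos ℓ e) (by
    intro p hp hd
    rw [prime_dvd_W1 (hPpr p hp)] at hd
    have := (mem_primesIoc.mp (hPsub hp)).1
    omega) (by
    intro A hA hAP
    rw [← hWW]
    refine hG A ?_ ?_
    · rw [hWW]
      refine Nat.Coprime.mul_right ?_ ?_
      · rw [Nat.Coprime, hA.gcd_eq]
        exact hb1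
      · exact Nat.Coprime.prod_right fun p hp =>
          ((Nat.Prime.coprime_iff_not_dvd (hPpr p hp)).mpr (hAP p hp).1).symm
    · rw [hWW]
      refine Nat.Coprime.mul_right ?_ ?_
      · rw [Nat.Coprime, (hA.add_right t).gcd_eq]
        exact hb2
      · exact Nat.Coprime.prod_right fun p hp =>
          ((Nat.Prime.coprime_iff_not_dvd (hPpr p hp)).mpr (hAP p hp).2).symm)
  refine le_trans ?_ key
  have hlogw : 0 < Real.log w := Real.log_pos (by exact_mod_cast (by omega : 1 < w))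
  have hlogz : 0 < Real.log z := by
    have := hz.1
    linarith
  have hVwz : c0 * Real.log w / Real.log z ≤ ∏ p ∈ primesIoc w z, (1 - 1 / (p : ℝ)) := by
    have h1 := Vp_mul w z hwz
    have h2 := hV z (by omega)
    have h3 := Vp_le w (by omega)
    have h0 : 0 ≤ ∏ p ∈ primesIoc w z, (1 - 1 / (p : ℝ)) :=
      Finset.prod_nonneg fun p hp => (one_sub_inv_pos (mem_primesIoc.mp hp).2.2).le
    have h4 : c0 / Real.log z ≤ 1 / Real.log w * ∏ p ∈ primesIoc w z, (1 - 1 / (p : ℝ)) :=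
      h2.trans (h1.symm.le.trans (mul_le_mul_of_nonneg_right h3 h0))
    have h5 := mul_le_mul_of_nonneg_left h4 hlogw.le
    have h6 : Real.log w * (1 / Real.log w * ∏ p ∈ primesIoc w z, (1 - 1 / (p : ℝ))) =
        ∏ p ∈ primesIoc w z, (1 - 1 / (p : ℝ)) := by
      field_simp
    rw [h6] at h5
    calc c0 * Real.log w / Real.log z = Real.log w * (c0 / Real.log z) := by ring
      _ ≤ _ := h5
  have hprod := prod_sub_two_ge w z hw100 P hPsub
  have hsq : (c0 * Real.log w / Real.log z) ^ 2 ≤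
      (∏ p ∈ primesIoc w z, (1 - 1 / (p : ℝ))) ^ 2 :=
    pow_le_pow_left₀ (by positivity) hVwz 2
  have h7 : (∏ p ∈ P, (p : ℝ)) * (1 / 2 * (c0 * Real.log w / Real.log z) ^ 2) * X ≤
      (∏ p ∈ P, ((p : ℝ) - 2)) * X := by
    refine mul_le_mul_of_nonneg_right (le_trans ?_ hprod) hX0
    exact mul_le_mul_of_nonneg_left (mul_le_mul_of_nonneg_left hsq (by norm_num)) hM0.le
  refine le_trans ?_ h7
  have hWWr : (WW z e : ℝ) = (W1 ℓ e : ℝ) * ∏ p ∈ P, (p : ℝ) := by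
    rw [hWW]; push_cast; rfl
  have h8 : (∏ p ∈ P, (p : ℝ)) * (1 / 2 * (c0 * Real.log w / Real.log z) ^ 2) * X =
      κ * (Real.exp ℓ / (W1 ℓ e : ℝ)) * (c0 ^ 2 / 2) * (Real.log w / ℓ) ^ 2 := by
    rw [hX, hWWr]
    have hℓ0 : ℓ ≠ 0 := by linarith
    field_simp
  rw [h8]
  have h9 : Dns 2 ℓ e ≤ Real.exp ℓ / (W1 ℓ e : ℝ) * (C * Real.log w / ℓ) ^ 2 := by
    unfold Dns
    refine mul_le_mul_of_nonneg_left ?_ (by positivity)
    refine pow_le_pow_left₀ (by positivity) ?_ 2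
    have h10 := hW ℓ e (by omega)
    have hℓ0 : 0 < ℓ := by linarith
    calc (W1 ℓ e : ℝ) / (((W1 ℓ e).totient : ℕ) * ℓ) =
        (W1 ℓ e : ℝ) / (((W1 ℓ e).totient : ℕ) : ℝ) / ℓ := by rw [div_div]
      _ ≤ _ := div_le_div_of_nonneg_right h10 hℓ0.le
  calc c0 ^ 2 / (2 * C ^ 2) * κ * Dns 2 ℓ e ≤
      c0 ^ 2 / (2 * C ^ 2) * κ * (Real.exp ℓ / (W1 ℓ e : ℝ) * (C * Real.log w / ℓ) ^ 2) :=
        mul_le_mul_of_nonneg_left h9 (by positivity)
    _ = _ := by
        field_simp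

end Pool.Agent.H2.TW
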