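import Pool.Agent.H2.TW.NT
import Pool.Agent.H16.PG4

/-!
JOB TW-C3 (MP_a1f59e_nt). Sum over all the classes modulo `W1 ℓ e`.

PROOF of `class_total`. `#G ≥ ∑_{b ∈ B} #{n ∈ G | n ≡ b [MOD W1 ℓ e]} ≥ #B κ Dns 2`, `B` = the `b ∈ range (W1 ℓ e)` with `b`, `b + t` coprime to `W1`; by the
Chinese remainder theorem `#B = ∏_{p ∣ W1} (p - ν p)`, `ν p = 1` if `p ∣ t`, `= 2` otherwise (`p ≥ 3` then, as `t` is even). With
`Dns 2 ℓ e = exp ℓ / W (W / (φ(W) ℓ))^2`: `#B / W (W/φ(W))^2 = ∏ (1 - ν p/p) / (1 - 1/p)^2 ≥ ∏_{p ≥ 3} (1 - 1/(p-1)^2) ≥ 1/2` (factors with `ν p = 1` are `≥ 1`).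
-/

set_option autoImplicit false

open Finset Filter Topology

namespace Pool.Agent.H2.TW

open Pool.Agent.H16 Pool.Agent.H2.NC

/-- the number of the residue classes `x` modulo `m` with `x` and `x + t` invertible -/
noncomputable def chenCnt (m t : ℕ) : ℕ := Nat.card {x : ZMod m // IsUnit x ∧ IsUnit (x + (t : ZMod m))}

theorem chenCnt_mul {m n : ℕ} (h : Nat.Coprime m n) (t : ℕ) :
    chenCnt (m * n) t = chenCnt m t * chenCnt n t := by
  unfold chenCnt
  rw [← Nat.card_prod]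
  refine Nat.card_congr ?_
  refine ((ZMod.chineseRemainder h).toEquiv.subtypeEquiv (q := fun y : ZMod m × ZMod n =>
    (IsUnit y.1 ∧ IsUnit (y.1 + (t : ZMod m))) ∧ (IsUnit y.2 ∧ IsUnit (y.2 + (t : ZMod n))))
    ?_).trans (Equiv.subtypeProdEquivProd (p := fun a : ZMod m => IsUnit a ∧ IsUnit (a + (t : ZMod m)))
      (q := fun a : ZMod n => IsUnit a ∧ IsUnit (a + (t : ZMod n))))
  intro x
  have h1 : IsUnit x ↔ IsUnit (ZMod.chineseRemainder h x) :=
    (MulEquiv.isUnit_map (ZMod.chineseRemainder h)).symm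
  have h2 : IsUnit (x + (t : ZMod (m * n))) ↔ IsUnit (ZMod.chineseRemainder h (x + (t : ZMod (m * n)))) :=
    (MulEquiv.isUnit_map (ZMod.chineseRemainder h)).symm
  rw [h1, h2, map_add, map_natCast, Prod.isUnit_iff, Prod.isUnit_iff]
  show _ ↔ (IsUnit (ZMod.chineseRemainder h x).1 ∧ _) ∧ (IsUnit (ZMod.chineseRemainder h x).2 ∧ _)
  simp only [Prod.fst_add, Prod.snd_add, Prod.fst_natCast, Prod.snd_natCast]
  tauto

theorem chenCnt_prime {p : ℕ} (hp : p.Prime) (t : ℕ) : p ≤ chenCnt p t + 2 := by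
  have : Fact p.Prime := ⟨hp⟩
  classical
  have h1 : chenCnt p t = #(univ.filter fun x : ZMod p => IsUnit x ∧ IsUnit (x + (t : ZMod p))) := by
    unfold chenCnt
    rw [Nat.card_eq_fintype_card, Fintype.card_subtype]
  have h2 : (univ : Finset (ZMod p)) ⊆
      (univ.filter fun x : ZMod p => IsUnit x ∧ IsUnit (x + (t : ZMod p))) ∪ {0, -(t : ZMod p)} := by
    intro x _
    simp only [mem_union, mem_filter, mem_univ, true_and, mem_insert, mem_singleton, isUnit_iff_ne_zero]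
    by_cases ha : x = 0
    · exact Or.inr (Or.inl ha)
    · by_cases hb : x = -(t : ZMod p)
      · exact Or.inr (Or.inr hb)
      · refine Or.inl ⟨ha, fun hc => hb ?_⟩
        exact eq_neg_of_add_eq_zero_left hc
  have h3 := (card_le_card h2).trans (card_union_le _ _)
  rw [card_univ, ZMod.card] at h3
  have h4 := card_le_two (a := (0 : ZMod p)) (b := -(t : ZMod p))
  omega

theorem chenCnt_two {t : ℕ} (ht : Even t) : 1 ≤ chenCnt 2 t := by
  have h0 : (t : ZMod 2) = 0 := by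
    rw [ZMod.natCast_eq_zero_iff]
    exact ht.two_dvd
  unfold chenCnt
  have : Nonempty {x : ZMod 2 // IsUnit x ∧ IsUnit (x + (t : ZMod 2))} :=
    ⟨⟨1, by simp [h0]⟩⟩
  exact Nat.card_pos

/-- the factor of the prime `n` -/
noncomputable def chenG (n : ℕ) : ℝ := if 3 ≤ n then 1 - 1 / ((n : ℝ) - 1) ^ 2 else 1

theorem chenG_pos (n : ℕ) : 0 ≤ chenG n ∧ chenG n ≤ 1 := by
  unfold chenG
  split_ifs with h
  · have h3 : (3 : ℝ) ≤ n := by exact_mod_cast h
    have h1 : (1 : ℝ) ≤ ((n : ℝ) - 1) ^ 2 := by nlinarith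
    have h2 : 1 / ((n : ℝ) - 1) ^ 2 ≤ 1 := by
      rw [div_le_one (by linarith)]
      exact h1
    have h4 : 0 ≤ 1 / ((n : ℝ) - 1) ^ 2 := by positivity
    constructor <;> linarith
  · exact ⟨zero_le_one, le_rfl⟩

theorem chenG_prod (N : ℕ) : ∏ n ∈ range (N + 3), chenG n = ((N : ℝ) + 2) / (2 * ((N : ℝ) + 1)) := by
  induction N with
  | zero =>
    simp only [zero_add, prod_range_succ, range_zero, prod_empty, chenG]
    norm_num
  | succ N ih =>
    rw [prod_range_succ, show N + 1 + 2 = N + 3 from rfl, ih]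
    unfold chenG
    rw [if_pos (by omega)]
    push_cast
    have h0 : (0 : ℝ) ≤ N := Nat.cast_nonneg N
    have h1 : ((N : ℝ) + 1) ≠ 0 := by positivity
    have h2 : ((N : ℝ) + 1 + 1) ≠ 0 := by positivity
    have h3 : ((N : ℝ) + 3 - 1) ≠ 0 := by
      have : (0 : ℝ) < (N : ℝ) + 3 - 1 := by linarith
      exact this.ne'
    field_simp
    ring

theorem chenG_half (S : Finset ℕ) : 1 / 2 ≤ ∏ n ∈ S, chenG n := by
  obtain ⟨N, hN⟩ : ∃ N, S ⊆ range (N + 3) := by
    refine ⟨S.sup id, fun x hx => ?_⟩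
    have := le_sup (f := id) hx
    rw [mem_range]
    simp only [id] at this
    omega
  have h1 : ∏ n ∈ range (N + 3), chenG n ≤ ∏ n ∈ S, chenG n := by
    rw [← prod_sdiff hN]
    have h2 : ∏ n ∈ range (N + 3) \ S, chenG n ≤ 1 :=
      prod_le_one (fun n _ => (chenG_pos n).1) fun n _ => (chenG_pos n).2
    exact mul_le_of_le_one_left (prod_nonneg fun n _ => (chenG_pos n).1) h2
  refine le_trans ?_ h1
  rw [chenG_prod]
  have h0 : (0 : ℝ) ≤ N := Nat.cast_nonneg N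
  rw [div_le_div_iff₀ (by norm_num) (by positivity)]
  linarith

theorem chenCnt_factor {p t : ℕ} (hp : p.Prime) (ht : Even t) :
    chenG p * ((p.totient : ℕ) : ℝ) ^ 2 ≤ (chenCnt p t : ℝ) * p := by
  rw [Nat.totient_prime hp]
  unfold chenG
  rcases hp.two_le.eq_or_lt with h2 | h3
  · subst h2
    rw [if_neg (by omega)]
    have h1 : (1 : ℝ) ≤ chenCnt 2 t := by exact_mod_cast chenCnt_two ht
    push_cast
    norm_num
    linarith
  · rw [if_pos (by omega)]
    have h1 : ((p - 1 : ℕ) : ℝ) = (p : ℝ) - 1 := by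
      rw [Nat.cast_sub (by omega)]
      simp
    rw [h1]
    have h4 : (p : ℝ) - 1 ≠ 0 := by
      have : (3 : ℝ) ≤ p := by exact_mod_cast h3
      have : (0 : ℝ) < (p : ℝ) - 1 := by linarith
      exact this.ne'
    have h5 : (p : ℝ) ≤ chenCnt p t + 2 := by exact_mod_cast chenCnt_prime hp t
    have h6 : (1 - 1 / ((p : ℝ) - 1) ^ 2) * ((p : ℝ) - 1) ^ 2 = ((p : ℝ) - 2) * p := by
      field_simp
      ring
    rw [h6]
    exact mul_le_mul_of_nonneg_right (by linarith) (Nat.cast_nonneg p)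

theorem chenCnt_prod {t : ℕ} (ht : Even t) (S : Finset ℕ) (hS : ∀ p ∈ S, p.Prime) :
    (∏ p ∈ S, chenG p) * (((∏ p ∈ S, p).totient : ℕ) : ℝ) ^ 2 ≤
      (chenCnt (∏ p ∈ S, p) t : ℝ) * ((∏ p ∈ S, p : ℕ) : ℝ) := by
  induction S using Finset.induction_on with
  | empty =>
    have h1 : 1 ≤ chenCnt 1 t := by
      unfold chenCnt
      have : Nonempty {x : ZMod 1 // IsUnit x ∧ IsUnit (x + (t : ZMod 1))} :=
        ⟨⟨1, isUnit_one, isUnit_of_subsingleton _⟩⟩
      exact Nat.card_pos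
    have h2 : (1 : ℝ) ≤ chenCnt 1 t := by exact_mod_cast h1
    simpa using h2
  | insert a S ha ih =>
    have ih := ih fun p hp => hS p (mem_insert_of_mem hp)
    have hap : a.Prime := hS a (mem_insert_self a S)
    have hco : Nat.Coprime a (∏ p ∈ S, p) := Nat.Coprime.prod_right fun p hp =>
      (Nat.coprime_primes hap (hS p (mem_insert_of_mem hp))).2 fun he => ha (he ▸ hp)
    rw [prod_insert ha, prod_insert ha, chenCnt_mul hco, Nat.totient_mul hco]
    have h1 := chenCnt_factor hap ht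
    have h2 := mul_le_mul h1 ih (mul_nonneg (prod_nonneg fun n _ => (chenG_pos n).1) (by positivity))
      (by positivity)
    push_cast at h2 ⊢
    calc _ = chenG a * ((a.totient : ℕ) : ℝ) ^ 2 *
          ((∏ p ∈ S, chenG p) * (((∏ p ∈ S, p).totient : ℕ) : ℝ) ^ 2) := by ring
      _ ≤ _ := h2
      _ = _ := by ring

open Classical in
theorem class_total (t : ℕ) (ht : Even t) (ht0 : 0 < t) (ℓ : ℝ) (hℓ : 1 ≤ ℓ) (e : ℕ) (G : Finset ℕ)
    (κ : ℝ) (hκ : 0 ≤ κ) (h : ∀ b < W1 ℓ e, Nat.Coprime b (W1 ℓ e) → Nat.Coprime (b + t) (W1 ℓ e) →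
      κ * Dns 2 ℓ e ≤ #(G.filter (fun n => n ≡ b [MOD W1 ℓ e]))) :
    κ / 2 * (Real.exp ℓ / ℓ ^ 2) ≤ #G := by
  set W : ℕ := W1 ℓ e with hW
  have hW0 : 0 < W := W1_pos ℓ e
  have : NeZero W := ⟨hW0.ne'⟩
  have hWr : (0 : ℝ) < W := by exact_mod_cast hW0
  have hφ0 : (0 : ℝ) < ((W.totient : ℕ) : ℝ) := by exact_mod_cast Nat.totient_pos.mpr hW0
  have hℓ0 : (0 : ℝ) < ℓ := by linarith
  set g : Finset (ZMod W) := univ.filter fun x : ZMod W => IsUnit x ∧ IsUnit (x + (t : ZMod W)) with hg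
  have hcard : (chenCnt W t : ℝ) = #g := by
    unfold chenCnt
    rw [Nat.card_eq_fintype_card, Fintype.card_subtype]
  -- the sum over the classes
  have hsum : (#g : ℝ) * (κ * Dns 2 ℓ e) ≤ #G := by
    have h1 : #G = ∑ x : ZMod W, #(G.filter fun n : ℕ => (n : ZMod W) = x) :=
      card_eq_sum_card_fiberwise fun n _ => mem_univ _
    rw [h1]
    push_cast
    calc (#g : ℝ) * (κ * Dns 2 ℓ e) = ∑ _x ∈ g, κ * Dns 2 ℓ e := by
          rw [sum_const, nsmul_eq_mul]
      _ ≤ ∑ x ∈ g, (#(G.filter fun n : ℕ => (n : ZMod W) = x) : ℝ) := by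
          refine sum_le_sum fun x hx => ?_
          rw [hg, mem_filter] at hx
          have h2 : ((x.val : ℕ) : ZMod W) = x := ZMod.natCast_zmod_val x
          have h3 : Nat.Coprime x.val W := by
            rw [← ZMod.isUnit_iff_coprime, h2]
            exact hx.2.1
          have h4 : Nat.Coprime (x.val + t) W := by
            rw [← ZMod.isUnit_iff_coprime]
            push_cast
            rw [h2]
            exact hx.2.2
          refine (h x.val (ZMod.val_lt x) h3 h4).trans (le_of_eq ?_)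
          congr 2
          refine filter_congr fun n _ => ?_
          rw [← ZMod.natCast_eq_natCast_iff, h2]
      _ ≤ ∑ x : ZMod W, (#(G.filter fun n : ℕ => (n : ZMod W) = x) : ℝ) :=
          sum_le_sum_of_subset_of_nonneg (subset_univ g) fun _ _ _ => Nat.cast_nonneg _
  refine le_trans ?_ hsum
  -- the number of classes
  have hprod := chenCnt_prod ht ((primesIoc 1 (w1 ℓ)).erase e) fun p hp =>
    (mem_primesIoc.mp (mem_of_mem_erase hp)).2.2
  have hWdef : ∏ p ∈ (primesIoc 1 (w1 ℓ)).erase e, p = W := rfl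
  rw [hWdef, hcard] at hprod
  have hhalf : 1 / 2 * (((W.totient : ℕ) : ℝ)) ^ 2 ≤ (#g : ℝ) * W :=
    le_trans (mul_le_mul_of_nonneg_right (chenG_half _) (by positivity)) hprod
  have hD : Dns 2 ℓ e = Real.exp ℓ / ℓ ^ 2 * (W / (((W.totient : ℕ) : ℝ)) ^ 2) := by
    unfold Dns
    rw [← hW]
    field_simp
  rw [hD]
  have h5 : 1 / 2 ≤ (#g : ℝ) * (W / (((W.totient : ℕ) : ℝ)) ^ 2) := by
    rw [← mul_div_assoc, le_div_iff₀ (by positivity)]
    exact hhalf
  calc κ / 2 * (Real.exp ℓ / ℓ ^ 2) = κ * (Real.exp ℓ / ℓ ^ 2) * (1 / 2) := by ring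
    _ ≤ κ * (Real.exp ℓ / ℓ ^ 2) * ((#g : ℝ) * (W / (((W.totient : ℕ) : ℝ)) ^ 2)) :=
        mul_le_mul_of_nonneg_left h5 (by positivity)
    _ = _ := by ring

end Pool.Agent.H2.TW
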