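import Pool.Agent.H2.TW.ChenC
import Pool.Agent.H2.TW.ChenS
import Pool.Agent.H2.TW.ChenT

/-!
TW (MP_a1f59e_nt). Narrow progressions of Chen primes.
-/

set_option autoImplicit false

open Finset Filter Topology

namespace Pool.Agent.H2.TW

open Pool.Agent.H16 Pool.Agent.H2.NC

open Classical in
theorem chen_log (t : ℕ) (ht : Even t) (ht0 : 0 < t) (k : ℕ) (hk : 2 ≤ k) : ∃ (A : ℕ) (c : ℝ), 0 < c ∧
    ∀ᶠ ℓ : ℝ in atTop, c * (Real.exp ℓ / ℓ ^ 2) ≤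
      #((Ioc 0 ⌊Real.exp ℓ⌋₊).filter (fun n => ∃ d : ℕ, 1 ≤ d ∧ (d : ℝ) ≤ ℓ ^ A ∧
        ∀ j ∈ range k, ((n + j * d : ℕ) : ℝ) ≤ Real.exp ℓ ∧ ChG t ℓ (n + j * d))) := by
  obtain ⟨c₁, hc₁, hC⟩ := chen_class t ht ht0
  obtain ⟨c₂, hc₂, hS⟩ := class_sum t ht0
  set 𝓗 : Finset ℕ := {0, t} with h𝓗
  have hcard : #𝓗 = 2 := by
    rw [h𝓗, Finset.card_pair (by omega)]
  obtain ⟨A, c, hc, hE⟩ := nt_engine k hk 𝓗 ⟨0, by simp [h𝓗]⟩ (c₂ * c₁) (1 / 9) (by positivity) (by norm_num)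
  rw [hcard] at hE
  refine ⟨A, c / 2, by positivity, ?_⟩
  filter_upwards [hC, hS, hE, eventually_ge_atTop (1 : ℝ), eventually_ge_atTop (27 : ℝ)] with ℓ hC hS hE hℓ1 hℓ27
  obtain ⟨e, he1, hC⟩ := hC
  have hexp : Real.exp (1 / 9 * ℓ) < Real.exp ℓ / 9 := by
    have h1 : Real.exp ℓ = Real.exp (1 / 9 * ℓ) * Real.exp (8 / 9 * ℓ) := by
      rw [← Real.exp_add]; ring_nf
    have h2 : 9 < Real.exp (8 / 9 * ℓ) := by
      have := Real.add_one_le_exp (8 / 9 * ℓ)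
      linarith
    rw [h1, lt_div_iff₀ (by norm_num)]
    exact mul_lt_mul_of_pos_left h2 (Real.exp_pos _)
  have h89 : Real.exp (1 / 9 * ℓ) < Real.exp (ℓ / 8) := Real.exp_lt_exp.mpr (by linarith)
  set G : Finset ℕ := (Ioc 0 ⌊Real.exp ℓ⌋₊).filter (fun n => ChG t ℓ n) with hG
  set G' : Finset ℕ := (Ioc 0 ⌊Real.exp ℓ⌋₊).filter (fun n => ∃ d : ℕ, 1 ≤ d ∧ (d : ℝ) ≤ ℓ ^ A ∧
        ∀ j ∈ range k, ((n + j * d : ℕ) : ℝ) ≤ Real.exp ℓ ∧ ChG t ℓ (n + j * d)) with hG'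
  have hGC : ∀ A0 : ℕ, Nat.Coprime A0 (WW (zf ℓ) e) → Nat.Coprime (A0 + t) (WW (zf ℓ) e) →
      c₁ * (Real.exp ℓ / (WW (zf ℓ) e : ℝ) * (Real.log (zf ℓ) / ℓ) ^ 2) ≤
        #(G.filter (fun n => n ≡ A0 [MOD WW (zf ℓ) e])) := by
    intro A0 h1 h2
    refine (hC A0 h1 h2).trans (le_of_eq ?_)
    congr 2
    rw [hG, Finset.filter_filter]
    apply Finset.filter_congr
    intro n _
    exact and_comm
  have hb := hS e G c₁ hc₁.le hGC
  have hmain : ∀ b < W1 ℓ e, Nat.Coprime b (W1 ℓ e) → Nat.Coprime (b + t) (W1 ℓ e) →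
      c * Dns 2 ℓ e ≤ #(G'.filter (fun n => n ≡ b [MOD W1 ℓ e])) := by
    intro b _ h1 h2
    have h3 := hb b h1 h2
    have h4 := hE e b (G.filter (fun n => n ≡ b [MOD W1 ℓ e])) (by
      intro n hn
      obtain ⟨hn1, hn2⟩ := Finset.mem_filter.mp hn
      rw [hG, Finset.mem_filter, Finset.mem_Ioc] at hn1
      obtain ⟨⟨hn0, hnx⟩, hnp, hn9, -, hnq⟩ := hn1
      refine ⟨hn0, (Nat.le_floor_iff (Real.exp_pos _).le).mp hnx, hn2, ?_⟩
      intro h hh p hp hpw hpη hpd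
      rw [h𝓗, Finset.mem_insert, Finset.mem_singleton] at hh
      rcases hh with rfl | rfl
      · rw [add_zero] at hpd
        have h5 := (Nat.prime_dvd_prime_iff_eq hp hnp).mp hpd
        subst h5
        linarith
      · have h5 := (hnq p hp hpd).1
        linarith) h3
    refine h4.trans ?_
    have h5 : #((G.filter (fun n => n ≡ b [MOD W1 ℓ e])).filter (fun n => ∃ d : ℕ, 1 ≤ d ∧
        (d : ℝ) ≤ ℓ ^ A ∧ ∀ j ∈ range k, n + j * d ∈ G.filter (fun n => n ≡ b [MOD W1 ℓ e]))) ≤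
        #(G'.filter (fun n => n ≡ b [MOD W1 ℓ e])) := by
      apply Finset.card_le_card
      intro n hn
      obtain ⟨hn1, d, hd1, hdA, hdj⟩ := Finset.mem_filter.mp hn
      obtain ⟨hnG, hnb⟩ := Finset.mem_filter.mp hn1
      rw [Finset.mem_filter]
      refine ⟨?_, hnb⟩
      rw [hG', Finset.mem_filter]
      refine ⟨(Finset.mem_filter.mp hnG).1, d, hd1, hdA, ?_⟩
      intro j hj
      have h6 := (Finset.mem_filter.mp (hdj j hj)).1
      rw [hG, Finset.mem_filter, Finset.mem_Ioc] at h6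
      exact ⟨(Nat.le_floor_iff (Real.exp_pos _).le).mp h6.1.2, h6.2⟩
    exact_mod_cast h5
  have hfin := class_total t ht ht0 ℓ hℓ1 e G' c hc.le hmain
  exact hfin

open Classical in
/-- **Narrow progressions of Chen primes.** For every even `t > 0` and every `k` there are `C` and `c > 0` such that for all large `N` at least
`c N / (log N)^2` integers `n ≤ N` have a `1 ≤ d ≤ (log N)^C` with `n + j d` prime and `n + j d + t` a prime or a product of two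
primes, without prime factors `≤ (n + j d + t)^(1/8)`, for all `0 ≤ j < k`, all these numbers being at most `N + t`. -/
theorem chen_narrow (t : ℕ) (ht : Even t) (ht0 : 0 < t) (k : ℕ) : ∃ (C : ℕ) (c : ℝ), 0 < c ∧
    ∀ᶠ N : ℕ in atTop, c * (N : ℝ) / Real.log N ^ 2 ≤
      (Set.ncard {n : ℕ | ∃ d : ℕ, 1 ≤ d ∧ (d : ℝ) ≤ Real.log N ^ C ∧ ∀ j < k + 1, n + j * d ≤ N ∧
        (n + j * d).Prime ∧ IsP2 (n + j * d + t) ∧
        ∀ q : ℕ, q.Prime → q ∣ n + j * d + t → n + j * d + t < q ^ 8} : ℝ) := by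
  obtain ⟨A, c, hc, h⟩ := chen_log t ht ht0 (k + 2) (by omega)
  refine ⟨A, c, hc, ?_⟩
  have hlog : Tendsto (fun N : ℕ => Real.log (N : ℝ)) atTop atTop :=
    Real.tendsto_log_atTop.comp tendsto_natCast_atTop_atTop
  filter_upwards [hlog.eventually h, eventually_ge_atTop 1] with N hN hN1
  have hN0 : (0 : ℝ) < N := by exact_mod_cast hN1
  rw [Real.exp_log hN0, Nat.floor_natCast] at hN
  rw [mul_div_assoc]
  refine hN.trans ?_
  have hfin : {n : ℕ | ∃ d : ℕ, 1 ≤ d ∧ (d : ℝ) ≤ Real.log N ^ A ∧ ∀ j < k + 1, n + j * d ≤ N ∧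
        (n + j * d).Prime ∧ IsP2 (n + j * d + t) ∧
        ∀ q : ℕ, q.Prime → q ∣ n + j * d + t → n + j * d + t < q ^ 8}.Finite := by
    apply (Set.finite_Iic N).subset
    rintro n ⟨d, _, _, hd⟩
    have := (hd 0 (by omega)).1
    simpa using this
  have h1 : ((Ioc 0 N).filter (fun n => ∃ d : ℕ, 1 ≤ d ∧ (d : ℝ) ≤ Real.log N ^ A ∧
        ∀ j ∈ range (k + 2), ((n + j * d : ℕ) : ℝ) ≤ N ∧ ChG t (Real.log N) (n + j * d)) : Set ℕ) ⊆
      {n : ℕ | ∃ d : ℕ, 1 ≤ d ∧ (d : ℝ) ≤ Real.log N ^ A ∧ ∀ j < k + 1, n + j * d ≤ N ∧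
        (n + j * d).Prime ∧ IsP2 (n + j * d + t) ∧
        ∀ q : ℕ, q.Prime → q ∣ n + j * d + t → n + j * d + t < q ^ 8} := by
    intro n hn
    rw [Finset.mem_coe, Finset.mem_filter] at hn
    obtain ⟨_, d, hd1, hdA, hdj⟩ := hn
    refine ⟨d, hd1, hdA, fun j hj => ?_⟩
    obtain ⟨h2, h3⟩ := hdj j (Finset.mem_range.mpr (by omega))
    exact ⟨by exact_mod_cast h2, h3.1, h3.2.2.1, fun q hq hqd => (h3.2.2.2 q hq hqd).2⟩
  have h2 := Set.ncard_le_ncard h1 hfin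
  rw [Set.ncard_coe_finset] at h2
  exact_mod_cast h2

end Pool.Agent.H2.TW
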