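import Pool.Agent.H2.TW.NT

/-!
# TW: the number of admissible classes modulo `W1`
-/

set_option autoImplicit false

open Finset Filter Topology

namespace Pool.Agent.H2.TW

open Pool.Agent.H16 Pool.Agent.H16.GPS Pool.Agent.H2.NC

open Classical in
/-- the number of classes modulo a product of primes which avoid zeros of the tuple: product bound -/
theorem cls_le_prod (𝓗 : Finset ℕ) (P : Finset ℕ) (hP : ∀ p ∈ P, p.Prime) :
    #((range (∏ p ∈ P, p)).filter (fun b => ∀ p ∈ P, ∀ h ∈ 𝓗, ¬ p ∣ b + h)) ≤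
      ∏ p ∈ P, #((range p).filter (fun b => ∀ h ∈ 𝓗, ¬ p ∣ b + h)) := by
  induction P using Finset.induction_on with
  | empty => simp
  | insert q P hq ih =>
    have hqp : q.Prime := hP q (Finset.mem_insert_self _ _)
    have hP' : ∀ p ∈ P, p.Prime := fun p hp => hP p (Finset.mem_insert_of_mem hp)
    rw [Finset.prod_insert hq, Finset.prod_insert hq]
    set M : ℕ := ∏ p ∈ P, p with hM
    have hM0 : 0 < M := Finset.prod_pos fun p hp => (hP' p hp).pos
    have hcop : Nat.Coprime q M := by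
      rw [hM]
      apply Nat.Coprime.prod_right
      intro p hp
      rw [Nat.coprime_primes hqp (hP' p hp)]
      intro h
      exact hq (h ▸ hp)
    refine le_trans ?_ (Nat.mul_le_mul le_rfl (ih hP'))
    rw [← Finset.card_product]
    apply Finset.card_le_card_of_injOn (fun b => (b % q, b % M))
    · intro b hb
      rw [Finset.mem_coe, Finset.mem_filter, Finset.mem_range] at hb
      rw [Finset.mem_coe, Finset.mem_product, Finset.mem_filter, Finset.mem_filter, Finset.mem_range,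
        Finset.mem_range]
      refine ⟨⟨Nat.mod_lt _ hqp.pos, ?_⟩, Nat.mod_lt _ hM0, ?_⟩
      · intro h hh hd
        apply hb.2 q (Finset.mem_insert_self _ _) h hh
        have h1 : b % q + h ≡ b + h [MOD q] := Nat.ModEq.add_right _ (Nat.mod_modEq _ _)
        exact (h1.dvd_iff dvd_rfl).mp hd
      · intro p hp h hh hd
        apply hb.2 p (Finset.mem_insert_of_mem hp) h hh
        have h1 : b % M + h ≡ b + h [MOD M] := Nat.ModEq.add_right _ (Nat.mod_modEq _ _)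
        exact (h1.dvd_iff (Finset.dvd_prod_of_mem _ hp)).mp hd
    · intro b hb b' hb' hbb
      rw [Finset.mem_coe, Finset.mem_filter, Finset.mem_range] at hb hb'
      simp only [Prod.mk.injEq] at hbb
      have h1 : b ≡ b' [MOD q * M] := (Nat.modEq_and_modEq_iff_modEq_mul hcop).mp ⟨hbb.1, hbb.2⟩
      exact Nat.ModEq.eq_of_lt_of_lt h1 hb.1 hb'.1

open Classical in
/-- one prime: at most `C_p (p - 1)^m / p^(m-1)` classes -/
theorem cls_prime (𝓗 : Finset ℕ) (M : ℕ) (hM : ∀ h ∈ 𝓗, h < M) (p : ℕ) (hp : p.Prime) :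
    (#((range p).filter (fun b => ∀ h ∈ 𝓗, ¬ p ∣ b + h)) : ℝ) ≤
      (if p ≤ M then 2 ^ #𝓗 else 1) * ((p : ℝ) * (((p - 1 : ℕ) : ℝ) / p) ^ #𝓗) := by
  have hp0 : (0 : ℝ) < p := by exact_mod_cast hp.pos
  have hp2 : (2 : ℝ) ≤ p := by exact_mod_cast hp.two_le
  have hcast : ((p - 1 : ℕ) : ℝ) = (p : ℝ) - 1 := by
    rw [Nat.cast_sub hp.one_lt.le, Nat.cast_one]
  split_ifs with hpM
  · have h1 : (#((range p).filter (fun b => ∀ h ∈ 𝓗, ¬ p ∣ b + h)) : ℝ) ≤ p := by
      have := Finset.card_filter_le (range p) (fun b => ∀ h ∈ 𝓗, ¬ p ∣ b + h)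
      rw [Finset.card_range] at this
      exact_mod_cast this
    have h2 : (1 : ℝ) ≤ 2 * (((p - 1 : ℕ) : ℝ) / p) := by
      rw [hcast, mul_div_assoc', le_div_iff₀ hp0]
      linarith
    have h3 : (1 : ℝ) ≤ (2 * (((p - 1 : ℕ) : ℝ) / p)) ^ #𝓗 := one_le_pow₀ h2
    calc (#((range p).filter (fun b => ∀ h ∈ 𝓗, ¬ p ∣ b + h)) : ℝ) ≤ p * 1 := by linarith
      _ ≤ p * (2 * (((p - 1 : ℕ) : ℝ) / p)) ^ #𝓗 := mul_le_mul_of_nonneg_left h3 hp0.le
      _ = 2 ^ #𝓗 * ((p : ℝ) * (((p - 1 : ℕ) : ℝ) / p) ^ #𝓗) := by rw [mul_pow]; ring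
  · push Not at hpM
    rw [one_mul]
    -- the classes `p - h` are excluded
    have hinj : #(𝓗.image (fun h => (p - h) % p)) = #𝓗 := by
      apply Finset.card_image_of_injOn
      intro h hh h' hh' hhh
      have h1 := hM h hh
      have h2 := hM h' hh'
      simp only at hhh
      have h3 : (p - h) ≡ (p - h') [MOD p] := hhh
      have h4 : p - h + (h + h') ≡ p - h' + (h + h') [MOD p] := Nat.ModEq.add_right _ h3
      have h5 : p - h + (h + h') = p + h' := by omega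
      have h6 : p - h' + (h + h') = p + h := by omega
      rw [h5, h6] at h4
      have h7 : h' ≡ h [MOD p] := Nat.ModEq.add_left_cancel' p h4
      exact (Nat.ModEq.eq_of_lt_of_lt h7 (by omega) (by omega)).symm
    have hsub : (range p).filter (fun b => ∀ h ∈ 𝓗, ¬ p ∣ b + h) ⊆
        range p \ 𝓗.image (fun h => (p - h) % p) := by
      intro b hb
      rw [Finset.mem_filter] at hb
      rw [Finset.mem_sdiff]
      refine ⟨hb.1, fun hmem => ?_⟩
      obtain ⟨h, hh, rfl⟩ := Finset.mem_image.mp hmem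
      apply hb.2 h hh
      have h1 := hM h hh
      have h2 : (p - h) % p + h ≡ (p - h) + h [MOD p] := Nat.ModEq.add_right _ (Nat.mod_modEq _ _)
      have h3 : (p - h) + h = p := by omega
      rw [h3] at h2
      exact (h2.dvd_iff dvd_rfl).mpr dvd_rfl
    have hsub2 : 𝓗.image (fun h => (p - h) % p) ⊆ range p := by
      intro b hb
      obtain ⟨h, _, rfl⟩ := Finset.mem_image.mp hb
      exact Finset.mem_range.mpr (Nat.mod_lt _ hp.pos)
    have hc := Finset.card_le_card hsub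
    rw [Finset.card_sdiff_of_subset hsub2, hinj, Finset.card_range] at hc
    have hmp : #𝓗 ≤ p := by
      have := Finset.card_le_card hsub2
      rw [hinj, Finset.card_range] at this
      exact this
    have hc' : (#((range p).filter (fun b => ∀ h ∈ 𝓗, ¬ p ∣ b + h)) : ℝ) ≤ (p : ℝ) - #𝓗 := by
      rw [← Nat.cast_sub hmp]
      exact_mod_cast hc
    refine hc'.trans ?_
    have hb : 1 + (#𝓗 : ℝ) * (-(1 / (p : ℝ))) ≤ (1 + -(1 / (p : ℝ))) ^ #𝓗 := by
      apply one_add_mul_le_pow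
      have : 1 / (p : ℝ) ≤ 1 := by
        rw [div_le_one hp0]; linarith
      linarith
    have he : (1 + -(1 / (p : ℝ))) = ((p - 1 : ℕ) : ℝ) / p := by
      rw [hcast]; field_simp; ring
    rw [he] at hb
    calc (p : ℝ) - #𝓗 = p * (1 + (#𝓗 : ℝ) * (-(1 / (p : ℝ)))) := by field_simp; ring
      _ ≤ p * (((p - 1 : ℕ) : ℝ) / p) ^ #𝓗 := mul_le_mul_of_nonneg_left hb hp0.le

open Classical in
/-- the number of classes `b` modulo `W = W1 ℓ e` with all `b + h` coprime to `W` -/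
theorem cls_count (𝓗 : Finset ℕ) : ∃ C : ℝ, 0 < C ∧ ∀ (ℓ : ℝ) (e : ℕ),
    (#((range (W1 ℓ e)).filter (fun b => ∀ h ∈ 𝓗, Nat.Coprime (b + h) (W1 ℓ e))) : ℝ) ≤
      C * ((W1 ℓ e : ℝ) * (((W1 ℓ e).totient : ℝ) / (W1 ℓ e : ℝ)) ^ #𝓗) := by
  obtain ⟨M, hM⟩ : ∃ M : ℕ, ∀ h ∈ 𝓗, h < M := ⟨𝓗.sup id + 1, fun h hh => by
    have : id h ≤ 𝓗.sup id := Finset.le_sup hh
    simp only [id] at this
    omega⟩
  refine ⟨(2 ^ #𝓗) ^ (M + 1), by positivity, ?_⟩
  intro ℓ e
  set P : Finset ℕ := (primesIoc 1 (w1 ℓ)).erase e with hP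
  have hpr : ∀ p ∈ P, p.Prime := fun p hp => (mem_primesIoc.mp (Finset.mem_of_mem_erase hp)).2.2
  have hWP : W1 ℓ e = ∏ p ∈ P, p := rfl
  have h1 : (range (W1 ℓ e)).filter (fun b => ∀ h ∈ 𝓗, Nat.Coprime (b + h) (W1 ℓ e)) ⊆
      (range (∏ p ∈ P, p)).filter (fun b => ∀ p ∈ P, ∀ h ∈ 𝓗, ¬ p ∣ b + h) := by
    intro b hb
    rw [Finset.mem_filter] at hb ⊢
    refine ⟨hb.1, ?_⟩
    intro p hp h hh hd
    have h2 : p ∣ W1 ℓ e := by rw [hWP]; exact Finset.dvd_prod_of_mem _ hp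
    have h3 := Nat.dvd_gcd hd h2
    rw [hb.2 h hh] at h3
    exact (hpr p hp).one_lt.ne' (Nat.dvd_one.mp h3)
  have h2 := (Finset.card_le_card h1).trans (cls_le_prod 𝓗 P hpr)
  have h3 : (#((range (W1 ℓ e)).filter (fun b => ∀ h ∈ 𝓗, Nat.Coprime (b + h) (W1 ℓ e))) : ℝ) ≤
      ∏ p ∈ P, (#((range p).filter (fun b => ∀ h ∈ 𝓗, ¬ p ∣ b + h)) : ℝ) := by
    have := (Nat.cast_le (α := ℝ)).mpr h2
    rwa [Nat.cast_prod] at this
  refine h3.trans ?_
  have h4 : ∏ p ∈ P, (#((range p).filter (fun b => ∀ h ∈ 𝓗, ¬ p ∣ b + h)) : ℝ) ≤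
      ∏ p ∈ P, ((if p ≤ M then 2 ^ #𝓗 else 1) * ((p : ℝ) * (((p - 1 : ℕ) : ℝ) / p) ^ #𝓗)) :=
    Finset.prod_le_prod (fun _ _ => Nat.cast_nonneg _) fun p hp => cls_prime 𝓗 M hM p (hpr p hp)
  refine h4.trans ?_
  rw [Finset.prod_mul_distrib, Finset.prod_mul_distrib, Finset.prod_pow, Finset.prod_div_distrib]
  have h5 : ∏ p ∈ P, (p : ℝ) = (W1 ℓ e : ℝ) := by rw [hWP, Nat.cast_prod]
  have h6 : ∏ p ∈ P, (((p - 1 : ℕ) : ℝ)) = ((W1 ℓ e).totient : ℝ) := by
    rw [hWP, totient_prod_primes _ hpr]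
    apply Finset.prod_congr rfl
    intro p hp
    rw [Nat.cast_sub (hpr p hp).one_lt.le, Nat.cast_one]
  rw [h5, h6]
  apply mul_le_mul_of_nonneg_right _ (by positivity)
  rw [Finset.prod_ite, Finset.prod_const_one, mul_one, Finset.prod_const]
  apply pow_le_pow_right₀ (one_le_pow₀ (by norm_num))
  have h7 : P.filter (fun p => p ≤ M) ⊆ range (M + 1) := by
    intro p hp
    exact Finset.mem_range.mpr (Nat.lt_succ_of_le (Finset.mem_filter.mp hp).2)
  have := Finset.card_le_card h7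
  rwa [Finset.card_range] at this

end Pool.Agent.H2.TW
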