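import Pool.Agent.H2.TW.Defs
import Pool.Agent.H2.NC.Corr
import Pool.Agent.H2.NC.NuB
import Pool.Agent.H2.NC.CorrZ
import Pool.Agent.H2.NC.WFacts

/-!
JOB TW-CORRF (MP_a1f59e_nt). Correlations of the majorant of a fixed tuple `𝓗` on `ZMod Y`.

PROOF of `corrF`. Copy the proof of `corrZ` (file NC/CorrZ.lean); here there is one function `nuF = ∏ h ∈ 𝓗, nu1 (W y.val + (b + h))`, `W = W1 ℓ e`,
and the shifts are integers `z ∈ Z`, `|z| ≤ ℓ^A`; put `T = ⌊ℓ^A⌋₊`. For `T ≤ p.val < Y - T` one has `(p + z).val = p.val + z`. Write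
`p.val = y + T`, `y ∈ Icc 1 Y'`, `Y' = Y - 2 T - 1`: the product over `Z` is the product over the pairs `(h, z) ∈ 𝓗 ×ˢ Z` of
`nu1 (W y + (W (T + z) + (b + h)))`. Apply `corr1` (file NC/Corr.lean) with `t' = #𝓗 * t`, exponent `A + 4`, the index set `ℳ` = an
enumeration (`Finset.equivFin` or the range of an injection into `ℕ`) of `𝓗 ×ˢ Z`, `α = W` for all indices (`W ≤ ℓ^2` by `W1_le`,
its primes are `≤ w1 ℓ` by `prime_dvd_W1`), `β = W (T + z) + (b + h) ≤ ℓ^(A+4)`. Non-proportional: `W β = W β'` gives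
`W (z - z') = h' - h`; `W > max 𝓗` for large `ℓ`, uniformly in `e` (`W1_large` below), so `z = z'` and `h = h'`. The `≤ 2 T + 2`
other `p` contribute at most `(2 T + 2) ℓ^(B #𝓗 t)` (`nuF_bound`), which is small compared with `Y ≥ 2 exp (ℓ/2)`.
`W1_large`: `W1 ℓ e` is divisible by two of any three distinct primes `≤ w1 ℓ`: take primes `> M`.
`nuF_bound`: `nu1_bound` (file NC/NuB.lean), `W y.val + b + h ≤ exp (2 ℓ)` since `y.val < Y ≤ exp ℓ`, `W ≤ ℓ^2`, and `≥ 1` because `1 ≤ b + h`.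
-/

set_option autoImplicit false

open Finset Filter

namespace Pool.Agent.H2.TW

open Pool.Agent.H16 Pool.Agent.H16.GPS Pool.Agent.H2.NC

/-- values in `ZMod Y` -/
private lemma corrF_val {Y T y : ℕ} [NeZero Y] (hy : y ∈ Icc 1 (Y - (2 * T + 1))) (z : ℤ)
    (hz : |z| ≤ T) : (((y + T : ℕ) : ZMod Y) + (z : ZMod Y)).val = y + (T + z).toNat := by
  obtain ⟨h1, h2⟩ := Finset.mem_Icc.mp hy
  have hz' := abs_le.mp hz
  have h3 : ((y + T : ℕ) : ZMod Y) + (z : ZMod Y) = ((y + (T + z).toNat : ℕ) : ZMod Y) := by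
    have h4 : (((T + z).toNat : ℕ) : ZMod Y) = ((T + z : ℤ) : ZMod Y) := by
      have h5 : (((T + z).toNat : ℕ) : ℤ) = T + z := Int.toNat_of_nonneg (by omega)
      rw [← h5]
      simp
    push_cast
    rw [h4]
    push_cast
    ring
  rw [h3, ZMod.val_natCast_of_lt]
  omega

/-- comparison of the two averages -/
private lemma corrF_split {Y T : ℕ} [NeZero Y] (hY : 2 * T + 1 < Y) (F : ZMod Y → ℝ) (D : ℝ)
    (h0 : ∀ p, 0 ≤ F p) (hD : ∀ p, F p ≤ D) :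
    |(∑ p, F p) / (Y : ℝ) - 1| ≤
      |(∑ y ∈ Icc 1 (Y - (2 * T + 1)), F ((y + T : ℕ) : ZMod Y)) / ((Y - (2 * T + 1) : ℕ) : ℝ) - 1|
        + (2 * T + 1) / Y + (2 * T + 1) * D / Y := by
  classical
  set Y' : ℕ := Y - (2 * T + 1) with hY'
  set f : ℕ → ZMod Y := fun y => ((y + T : ℕ) : ZMod Y) with hf
  have hinj : Set.InjOn f (Icc 1 Y' : Finset ℕ) := by
    intro y hy y' hy' h
    have e1 := Finset.mem_Icc.mp (Finset.mem_coe.mp hy)
    have e2 := Finset.mem_Icc.mp (Finset.mem_coe.mp hy')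
    have h2 : (f y).val = (f y').val := by rw [h]
    simp only [hf] at h2
    rw [ZMod.val_natCast_of_lt (by omega), ZMod.val_natCast_of_lt (by omega)] at h2
    omega
  set I : Finset (ZMod Y) := (Icc 1 Y').image f with hI
  have hcardI : #I = Y' := by
    rw [hI, Finset.card_image_of_injOn hinj]
    simp
  have hsum : ∑ p, F p = ∑ y ∈ Icc 1 Y', F (f y) + ∑ p ∈ univ \ I, F p := by
    rw [← Finset.sum_sdiff (Finset.subset_univ I), add_comm, hI, Finset.sum_image hinj]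
  have hcard : #(univ \ I) = 2 * T + 1 := by
    rw [Finset.card_sdiff_of_subset (Finset.subset_univ I), hcardI, Finset.card_univ, ZMod.card]
    omega
  have hr0 : 0 ≤ ∑ p ∈ univ \ I, F p := Finset.sum_nonneg fun p _ => h0 p
  have hr1 : ∑ p ∈ univ \ I, F p ≤ (2 * T + 1) * D := by
    calc ∑ p ∈ univ \ I, F p ≤ ∑ _p ∈ univ \ I, D := Finset.sum_le_sum fun p _ => hD p
      _ = (2 * T + 1) * D := by
        rw [Finset.sum_const, hcard, nsmul_eq_mul]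
        push_cast
        ring
  have hYpos : (0 : ℝ) < Y := by
    have : 0 < Y := by omega
    exact_mod_cast this
  have hY'pos : (0 : ℝ) < Y' := by
    have : 0 < Y' := by omega
    exact_mod_cast this
  have hYY : (Y' : ℝ) = Y - (2 * T + 1) := by
    have h : Y' + (2 * T + 1) = Y := by omega
    have h2 : ((Y' + (2 * T + 1) : ℕ) : ℝ) = Y := by rw [h]
    push_cast at h2
    linarith
  set S : ℝ := ∑ y ∈ Icc 1 Y', F (f y) with hS
  set R : ℝ := ∑ p ∈ univ \ I, F p with hR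
  rw [hsum]
  have key : (S + R) / (Y : ℝ) - 1 = (Y' / Y) * (S / Y' - 1) + (-((2 * T + 1) / Y)) + R / Y := by
    rw [hYY]
    have h1 : (Y : ℝ) - (2 * T + 1) ≠ 0 := by rw [← hYY]; exact hY'pos.ne'
    field_simp
    ring
  rw [key]
  have b1 : |((Y' : ℝ) / Y) * (S / Y' - 1)| ≤ |S / Y' - 1| := by
    rw [abs_mul, abs_of_nonneg (by positivity)]
    refine mul_le_of_le_one_left (abs_nonneg _) ?_
    rw [div_le_one hYpos, hYY]
    have : (0 : ℝ) ≤ T := by positivity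
    linarith
  have b2 : |-((2 * (T : ℝ) + 1) / Y)| ≤ (2 * T + 1) / Y := by
    rw [abs_neg, abs_of_nonneg (by positivity)]
  have b3 : |R / Y| ≤ (2 * T + 1) * D / Y := by
    rw [abs_of_nonneg (by positivity)]
    exact div_le_div_of_nonneg_right hr1 hYpos.le
  calc _ ≤ |((Y' : ℝ) / Y) * (S / Y' - 1)| + |-((2 * (T : ℝ) + 1) / Y)| + |R / Y| :=
        abs_add_three _ _ _
    _ ≤ _ := by
      have := add_le_add (add_le_add b1 b2) b3
      exact this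

theorem W1_large (M : ℕ) : ∀ᶠ ℓ : ℝ in atTop, ∀ e : ℕ, M < W1 ℓ e := by
  obtain ⟨q1, hq1, hp1⟩ := Nat.exists_infinite_primes (M + 1)
  obtain ⟨q2, hq2, hp2⟩ := Nat.exists_infinite_primes (q1 + 1)
  filter_upwards [Real.tendsto_log_atTop.eventually_ge_atTop (q2 : ℝ)] with ℓ hℓ e
  have hw : q2 ≤ w1 ℓ := by
    unfold w1
    exact Nat.le_floor hℓ
  by_cases he : e = q1
  · have h1 : q2 ∣ W1 ℓ e := (prime_dvd_W1 hp2).mpr ⟨hw, by omega⟩
    have := Nat.le_of_dvd (W1_pos ℓ e) h1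
    omega
  · have h1 : q1 ∣ W1 ℓ e := (prime_dvd_W1 hp1).mpr ⟨by omega, fun h => he h.symm⟩
    have := Nat.le_of_dvd (W1_pos ℓ e) h1
    omega

theorem nuF_nonneg {Y : ℕ} (𝓗 : Finset ℕ) (K : ℕ) (η ℓ : ℝ) (e b : ℕ) (y : ZMod Y) :
    0 ≤ nuF 𝓗 K η ℓ e b y :=
  Finset.prod_nonneg fun _ _ => nu1_nonneg _ _ _ _ _

theorem nuF_bound (𝓗 : Finset ℕ) (K : ℕ) (η : ℝ) (hη0 : 0 < η) (hη1 : η ≤ 1) : ∃ B : ℕ,
    ∀ᶠ ℓ : ℝ in atTop, ∀ (e b Y : ℕ) [NeZero Y], (Y : ℝ) ≤ Real.exp ℓ → 1 ≤ b → b ≤ W1 ℓ e →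
      ∀ y : ZMod Y, nuF 𝓗 K η ℓ e b y ≤ ℓ ^ B := by
  classical
  obtain ⟨B, hB⟩ := nu1_bound K η hη0 hη1
  set M : ℕ := 𝓗.sup id with hM
  have hsq := (isLittleO_pow_exp_pos_mul_atTop (k := 2) (b := 1)
    (by norm_num)).bound (show (0 : ℝ) < 1 / 4 by norm_num)
  refine ⟨B * #𝓗, ?_⟩
  filter_upwards [hB, W1_le, hsq, eventually_ge_atTop 1, eventually_ge_atTop (M : ℝ)]
    with ℓ hB' hW hsq' hℓ hℓM
  intro e b Y _ hY hb1 hb2 y
  have hℓ0 : (0 : ℝ) < ℓ := by linarith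
  have hsq2 : ℓ ^ 2 ≤ 1 / 4 * Real.exp ℓ := by
    have h := hsq'
    rw [Real.norm_of_nonneg (by positivity), Real.norm_of_nonneg (by positivity), one_mul] at h
    exact h
  have hB1 : (1 : ℝ) ≤ ℓ ^ B := one_le_pow₀ hℓ
  have hx1 : 1 ≤ Real.exp ℓ := Real.one_le_exp hℓ0.le
  unfold nuF
  calc ∏ h ∈ 𝓗, nu1 K η ℓ e (W1 ℓ e * y.val + (b + h)) ≤ ∏ _h ∈ 𝓗, ℓ ^ B := by
        refine Finset.prod_le_prod (fun h _ => nu1_nonneg _ _ _ _ _) (fun h hh => ?_)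
        refine hB' e _ (by omega) ?_
        have h1 : (y.val : ℝ) ≤ Real.exp ℓ := by
          have h2 : (y.val : ℝ) ≤ Y := by exact_mod_cast (ZMod.val_lt y).le
          exact h2.trans hY
        have h3 : (h : ℝ) ≤ M := by
          have h4 : h ≤ M := Finset.le_sup (f := id) hh
          exact_mod_cast h4
        have h5 : (b : ℝ) ≤ ℓ ^ 2 := by
          have h6 : (b : ℝ) ≤ W1 ℓ e := by exact_mod_cast hb2
          exact h6.trans (hW e)
        have h7 : ℓ ≤ ℓ ^ 2 := by nlinarith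
        push_cast
        calc (W1 ℓ e : ℝ) * (y.val : ℝ) + (b + h) ≤ ℓ ^ 2 * Real.exp ℓ + (ℓ ^ 2 + ℓ ^ 2) := by
              refine add_le_add (mul_le_mul (hW e) h1 (by positivity) (by positivity)) ?_
              linarith
          _ ≤ Real.exp ℓ * Real.exp ℓ := by nlinarith
          _ = Real.exp (2 * ℓ) := by rw [← Real.exp_add]; congr 1; ring
    _ = (ℓ ^ B) ^ #𝓗 := by rw [Finset.prod_const]
    _ = ℓ ^ (B * #𝓗) := by rw [← pow_mul]

theorem corrF (𝓗 : Finset ℕ) (h𝓗 : 𝓗.Nonempty) (t A : ℕ) (ht : 1 ≤ t) (η : ℝ) (hη0 : 0 < η)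
    (hη : η * (8 * ((#𝓗 * t : ℕ) : ℝ) + 8) ≤ 1) (K : ℕ) (hK : 16 * (#𝓗 * t) + 1 ≤ K) (ε : ℝ) (hε : 0 < ε) :
    ∀ᶠ ℓ : ℝ in atTop, ∀ (e b Y : ℕ) [NeZero Y], 2 * Real.exp (ℓ / 2) ≤ Y → (Y : ℝ) ≤ Real.exp ℓ →
      1 ≤ b → b ≤ W1 ℓ e → CorrS (nuF 𝓗 K η ℓ e b : ZMod Y → ℝ) t ε (ℓ ^ A) := by
  classical
  have hη1 : η ≤ 1 := by nlinarith [(by positivity : (0:ℝ) ≤ ((#𝓗 * t : ℕ) : ℝ))]
  obtain ⟨B, hB⟩ := nuF_bound 𝓗 K η hη0 hη1
  set M : ℕ := 𝓗.sup id with hM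
  have hMle : ∀ h ∈ 𝓗, h ≤ M := fun h hh => Finset.le_sup (f := id) hh
  set c : ℝ := min (ε / 16) (1 / 16) with hc
  have hc0 : 0 < c := by positivity
  have herr := (isLittleO_pow_exp_pos_mul_atTop (k := A + B * t) (b := 1 / 2)
    (by norm_num)).bound hc0
  filter_upwards [hB, corr1 (#𝓗 * t) (A + 4) η hη0 hη K hK (ε / 4) (by positivity), W1_le, herr,
    W1_large M, eventually_ge_atTop 4, eventually_ge_atTop (M : ℝ)]
    with ℓ hB' hcorr hW hE hWM hℓ4 hℓM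
  intro e b Y _ hY1 hY2 hb1 hb2 Z hZt hZb
  have hℓ : (1 : ℝ) ≤ ℓ := by linarith
  set T : ℕ := ⌊ℓ ^ A⌋₊ with hTdef
  have hT : (T : ℝ) ≤ ℓ ^ A := Nat.floor_le (by positivity)
  have hzT : ∀ z ∈ Z, |z| ≤ (T : ℤ) := by
    intro z hz
    have h1 := hZb z hz
    have h2 : ((z.natAbs : ℕ) : ℝ) ≤ ℓ ^ A := by
      rw [Nat.cast_natAbs, Int.cast_abs]
      exact h1
    have h3 : z.natAbs ≤ T := Nat.le_floor h2
    rw [Int.abs_eq_natAbs]
    exact_mod_cast h3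
  set W : ℕ := W1 ℓ e with hWdef
  have hW0 : 0 < W := W1_pos ℓ e
  have hℓ0 : (0 : ℝ) < ℓ := by linarith
  have hM0 : (0 : ℝ) ≤ M := by positivity
  have hWle : (W : ℝ) ≤ ℓ ^ 2 := hW e
  have hWM' : M < W := hWM e
  -- the error terms
  have hexp : Real.exp (1 / 2 * ℓ) = Real.exp (ℓ / 2) := by congr 1; ring
  have hE' : ℓ ^ (A + B * t) ≤ c * Real.exp (ℓ / 2) := by
    have h := hE
    rw [Real.norm_of_nonneg (by positivity), Real.norm_of_nonneg (by positivity), hexp] at h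
    exact h
  have hEA : ℓ ^ A ≤ ℓ ^ (A + B * t) := pow_le_pow_right₀ hℓ (by omega)
  have hA1 : (1 : ℝ) ≤ ℓ ^ A := one_le_pow₀ hℓ
  have hT3 : (2 * T + 1 : ℝ) ≤ 3 * ℓ ^ A := by linarith
  have hYpos : (0 : ℝ) < Y := lt_of_lt_of_le (by positivity) hY1
  have hcε : c ≤ ε / 16 := min_le_left _ _
  have hc16 : c ≤ 1 / 16 := min_le_right _ _
  have hx0 : 0 < Real.exp (ℓ / 2) := Real.exp_pos _
  have hTY : (2 * T + 1 : ℝ) ≤ Y / 2 := by
    calc (2 * T + 1 : ℝ) ≤ 3 * ℓ ^ A := hT3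
      _ ≤ 3 * (c * Real.exp (ℓ / 2)) := by linarith [hEA.trans hE']
      _ ≤ 3 * (1 / 16 * Real.exp (ℓ / 2)) := by nlinarith
      _ ≤ Y / 2 := by nlinarith
  have hTY' : 2 * T + 1 < Y := by
    have h : ((2 * T + 1 : ℕ) : ℝ) < Y := by
      push_cast
      linarith
    exact_mod_cast h
  set Y' : ℕ := Y - (2 * T + 1) with hY'
  have hYY : (Y' : ℝ) = Y - (2 * T + 1) := by
    have h : Y' + (2 * T + 1) = Y := by omega
    have h2 : ((Y' + (2 * T + 1) : ℕ) : ℝ) = Y := by rw [h]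
    push_cast at h2
    linarith
  have hY'ge : Real.exp (ℓ / 2) ≤ Y' := by rw [hYY]; linarith
  obtain ⟨g, hg⟩ := Countable.exists_injective_nat (ℕ × ℤ)
  set S : Finset (ℕ × ℤ) := 𝓗 ×ˢ Z with hS
  set al : ℕ × ℤ → ℕ := fun _ => W with hal
  set be : ℕ × ℤ → ℕ := fun s => W * (T + s.2).toNat + (b + s.1) with hbe
  have hmain := hcorr e Y' hY'ge (Function.extend g al 1) (Function.extend g be 1)
    (S.map ⟨g, hg⟩) (by
      rw [Finset.card_map, hS, Finset.card_product]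
      exact Nat.mul_le_mul_left _ hZt)
    (by
      intro m hm
      obtain ⟨s, hs, rfl⟩ := Finset.mem_map.mp hm
      simp only [Function.Embedding.coeFn_mk, hg.extend_apply]
      obtain ⟨hs1, hs2⟩ := Finset.mem_product.mp hs
      have hz1 := abs_le.mp (hzT s.2 hs2)
      refine ⟨hW0, ?_, ?_, ?_⟩
      · calc ((al s : ℕ) : ℝ) ≤ ℓ ^ 2 := hWle
          _ ≤ ℓ ^ (A + 4) := pow_le_pow_right₀ hℓ (by omega)
      · have h2 : (T + s.2).toNat ≤ 2 * T := by omega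
        have h3 : be s ≤ W * (2 * T) + (W + M) := by
          simp only [hbe]
          exact Nat.add_le_add (Nat.mul_le_mul_left _ h2) (Nat.add_le_add hb2 (hMle _ hs1))
        have h4 : ((be s : ℕ) : ℝ) ≤ (W : ℝ) * (2 * T) + (W + M) := by
          calc ((be s : ℕ) : ℝ) ≤ ((W * (2 * T) + (W + M) : ℕ) : ℝ) := by exact_mod_cast h3
            _ = _ := by push_cast; ring
        have h5 : (W : ℝ) * (2 * T) ≤ ℓ ^ 2 * (2 * ℓ ^ A) :=
          mul_le_mul hWle (by linarith) (by positivity) (by positivity)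
        have h6 : ℓ ≤ ℓ ^ 2 := by nlinarith
        have h7 : ℓ ^ 2 ≤ ℓ ^ 2 * ℓ ^ A := le_mul_of_one_le_right (by positivity) hA1
        have h8 : (4 : ℝ) ≤ ℓ ^ 2 := by nlinarith
        have h9 : ℓ ^ (A + 4) = ℓ ^ 2 * (ℓ ^ 2 * ℓ ^ A) := by
          rw [pow_add]
          ring
        have h10 : 4 * (ℓ ^ 2 * ℓ ^ A) ≤ ℓ ^ 2 * (ℓ ^ 2 * ℓ ^ A) :=
          mul_le_mul_of_nonneg_right h8 (by positivity)
        rw [h9]
        linarith
      · intro p hp hpd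
        exact ((prime_dvd_W1 hp).mp hpd).1)
    (by
      intro m hm m' hm' hne
      obtain ⟨s, hs, rfl⟩ := Finset.mem_map.mp hm
      obtain ⟨s', hs', rfl⟩ := Finset.mem_map.mp hm'
      simp only [Function.Embedding.coeFn_mk, hg.extend_apply]
      intro h
      obtain ⟨hs1, hs2⟩ := Finset.mem_product.mp hs
      obtain ⟨hs1', hs2'⟩ := Finset.mem_product.mp hs'
      have h1 : be s' = be s := Nat.eq_of_mul_eq_mul_left hW0 h
      simp only [hbe] at h1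
      have hl : s.1 < W := lt_of_le_of_lt (hMle _ hs1) hWM'
      have hl' : s'.1 < W := lt_of_le_of_lt (hMle _ hs1') hWM'
      have h2 : W * (T + s'.2).toNat + s'.1 = W * (T + s.2).toNat + s.1 := by omega
      have h3 : s'.1 = s.1 := by
        have h4 := congrArg (fun x => x % W) h2
        simp only [Nat.mul_add_mod] at h4
        rwa [Nat.mod_eq_of_lt hl, Nat.mod_eq_of_lt hl'] at h4
      have h4 : (T + s'.2).toNat = (T + s.2).toNat := by
        rw [h3] at h2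
        exact Nat.eq_of_mul_eq_mul_left hW0 (Nat.add_right_cancel h2)
      have hz1 := abs_le.mp (hzT s.2 hs2)
      have hz2 := abs_le.mp (hzT s'.2 hs2')
      have h5 : s'.2 = s.2 := by omega
      exact hne (by rw [Prod.ext h3 h5]))
  -- the two averages
  set F : ZMod Y → ℝ := fun p => ∏ z ∈ Z, nuF 𝓗 K η ℓ e b (p + (z : ZMod Y)) with hF
  have hF0 : ∀ p, 0 ≤ F p := fun p => Finset.prod_nonneg fun z _ => nuF_nonneg _ _ _ _ _ _ _
  have hB1 : (1 : ℝ) ≤ ℓ ^ B := one_le_pow₀ hℓ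
  have hFD : ∀ p, F p ≤ ℓ ^ (B * t) := by
    intro p
    calc F p ≤ ∏ _z ∈ Z, ℓ ^ B :=
          Finset.prod_le_prod (fun z _ => nuF_nonneg _ _ _ _ _ _ _)
            (fun z _ => hB' e b Y hY2 hb1 hb2 _)
      _ = (ℓ ^ B) ^ #Z := by rw [Finset.prod_const]
      _ ≤ (ℓ ^ B) ^ t := pow_le_pow_right₀ hB1 hZt
      _ = ℓ ^ (B * t) := by rw [← pow_mul]
  have hsplit := corrF_split hTY' F _ hF0 hFD
  have hsum : (∑ y ∈ Icc 1 Y', F ((y + T : ℕ) : ZMod Y)) =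
      ∑ y ∈ Icc 1 Y', ∏ m ∈ S.map ⟨g, hg⟩,
        nu1 K η ℓ e (Function.extend g al 1 m * y + Function.extend g be 1 m) := by
    refine Finset.sum_congr rfl (fun y hy => ?_)
    rw [Finset.prod_map, hS, Finset.prod_product_right]
    refine Finset.prod_congr rfl (fun z hz => ?_)
    unfold nuF
    refine Finset.prod_congr rfl (fun h _ => ?_)
    simp only [Function.Embedding.coeFn_mk, hg.extend_apply]
    congr 1
    have h1 := corrF_val hy z (hzT z hz)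
    rw [h1]
    simp only [hal, hbe]
    ring
  rw [← hsum] at hmain
  show |(∑ p, F p) / (Y : ℝ) - 1| ≤ ε
  have hc1 : (2 * T + 1 : ℝ) / Y ≤ ε / 4 := by
    rw [div_le_iff₀ hYpos]
    calc (2 * T + 1 : ℝ) ≤ 3 * ℓ ^ A := hT3
      _ ≤ 3 * (c * Real.exp (ℓ / 2)) := by linarith [hEA.trans hE']
      _ ≤ 3 * (ε / 16 * Real.exp (ℓ / 2)) := by nlinarith
      _ ≤ ε / 4 * Y := by nlinarith
  have hc2 : (2 * T + 1 : ℝ) * ℓ ^ (B * t) / Y ≤ ε / 4 := by
    rw [div_le_iff₀ hYpos]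
    calc (2 * T + 1 : ℝ) * ℓ ^ (B * t) ≤ 3 * ℓ ^ A * ℓ ^ (B * t) :=
          mul_le_mul_of_nonneg_right hT3 (by positivity)
      _ = 3 * ℓ ^ (A + B * t) := by rw [pow_add]; ring
      _ ≤ 3 * (c * Real.exp (ℓ / 2)) := by linarith
      _ ≤ 3 * (ε / 16 * Real.exp (ℓ / 2)) := by nlinarith
      _ ≤ ε / 4 * Y := by nlinarith
  linarith

end Pool.Agent.H2.TW
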