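import Pool.Agent.H2.NC.Defs

/-!
# Project TW (MP_a1f59e_nt): narrow progressions in prime tuples. Definitions.

`ℓ` is `log` of the size of everything; `W1`, `w1`, `nu1` etc. are those of project NC (`Pool/Agent/H2/NC/Defs.lean`).
-/

set_option autoImplicit false

open Finset

namespace Pool.Agent.H2.TW

open Pool.Agent.H16 Pool.Agent.H16.GPS Pool.Agent.H2.NC

/-- correlation hypothesis at integer shifts: for at most `t` distinct integers `z`, `|z| ≤ B`, the average of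
`∏ ν (p + z)` over `p` is `1 + O(ε)` -/
def CorrS {Y : ℕ} [NeZero Y] (ν : ZMod Y → ℝ) (t : ℕ) (ε B : ℝ) : Prop :=
  ∀ Z : Finset ℤ, #Z ≤ t → (∀ z ∈ Z, |(z : ℝ)| ≤ B) →
    |(∑ p : ZMod Y, ∏ z ∈ Z, ν (p + (z : ZMod Y))) / (Y : ℝ) - 1| ≤ ε

/-- the multiplier of a word: `1 +` the sum of its letters -/
def elw (k n : ℕ) (θ : Fin n → Fin k) : ℤ := 1 + ∑ s, ((θ s : ℕ) : ℤ)

/-- the majorant of the tuple `𝓗` in the class `b` modulo `W1 ℓ e` -/
noncomputable def nuF {Y : ℕ} (𝓗 : Finset ℕ) (K : ℕ) (η ℓ : ℝ) (e b : ℕ) (y : ZMod Y) : ℝ :=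
  ∏ h ∈ 𝓗, nu1 K η ℓ e (W1 ℓ e * y.val + (b + h))

/-- the expected number of `n ≤ exp ℓ` in one residue class modulo `W1 ℓ e` with `m` prime values, without the
constants -/
noncomputable def Dns (m : ℕ) (ℓ : ℝ) (e : ℕ) : ℝ :=
  Real.exp ℓ / (W1 ℓ e : ℝ) * ((W1 ℓ e : ℝ) / (((W1 ℓ e).totient : ℕ) * ℓ)) ^ m

end Pool.Agent.H2.TW
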