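import Pool.Agent.H2.TW.Defs
import Pool.Agent.H2.NC.Second
import Pool.Agent.H2.NC.Law

/-!
JOB TW-WORDS (MP_a1f59e_nt). The words and the counting functional.

PROOFS. `elw_line`: `th = L` for a combinatorial line `L` (`mem_pats` by unfolding `pats`); `d` = number of the coordinates `s` with
`L.idxFun s = none` (`≥ 1` by `L.proper`, `≤ n`); `elw k n (th j) = a + j d` with `a = 1 +` the sum of the constant letters.
`elw_pos_dvd`: `1 ≤ elw ≤ n k + 1`, so it divides `(n k + 1)!`; `|i - j| d ≤ n k`.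
`lam_words`: `second_LamT` (file NC/Second) gives `LamT = ∑ m, (1 / Y) ∑ h, (∏ lamH (h i)) ∏ j, F (m - el (th j) • ∑ h - el (th j) o)`.
`lamH Y H` is the law of `ξ : Fin H ↦ (ξ : ZMod Y)` (`lawU`; see `Pool/Agent/H16/GPS/Rel/Laws.lean`, `lawU_eq_sum`, or NC/Law, for the
technique), so `∑ h, (∏ lamH (h i)) Φ h = (∑ x : Fin k → Fin H, Φ (fun i => x i)) / H ^ k`. For fixed `x`, `b = d (o + ∑ x)`:
`m - el (th j) (∑ x + o) = (m - a (o + ∑ x)) - j b`; translate `m` by `a (o + ∑ x) + (k - 1) b` and reverse the order of the `j`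
(`Finset.prod_range_reflect`, `Fin.prod_univ_eq_prod_range`).
`corrH_of_corrS`: for `S ⊆ Θ × ZMod Y` as in `CorrH` choose for `s ∈ S` an integer `z s`, `|z s| ≤ T`, with class `s.2`; the shift of `s` is
`z s - el s.1 * o`. It is injective on `S`: if `el s.1 = el s'.1` then `z s = z s'`, `s.2 = s'.2`, hence `s = s'`; if `el s.1 ≠ el s'.1` the
difference of `el s.1 * o` and `el s'.1 * o` is at least `o > 2 T` in absolute value. Apply `hcorr` to the image.
-/

set_option autoImplicit false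

open Finset

namespace Pool.Agent.H2.TW

open Pool.Agent.H16 Pool.Agent.H16.GPS Pool.Agent.H2.NC

theorem elw_line {k n : ℕ} (th : Fin k → Fin n → Fin k) (hth : th ∈ pats k n) :
    ∃ (a : ℤ) (d : ℕ), 1 ≤ d ∧ d ≤ n ∧ ∀ j, elw k n (th j) = a + (j : ℕ) * (d : ℤ) := by
  classical
  unfold pats at hth
  rw [mem_filter] at hth
  obtain ⟨-, L, hL⟩ := hth
  obtain ⟨s₀, hs₀⟩ := L.proper
  refine ⟨1 + ∑ s, (match L.idxFun s with | none => (0 : ℤ) | some c => ((c : ℕ) : ℤ)),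
    #(univ.filter (fun s => L.idxFun s = none)), ?_, ?_, fun j => ?_⟩
  · exact Finset.card_pos.2 ⟨s₀, by simp [hs₀]⟩
  · exact (Finset.card_le_univ _).trans (by simp)
  · unfold elw
    rw [add_assoc]
    congr 1
    rw [Finset.card_filter]
    push_cast
    rw [Finset.mul_sum, ← Finset.sum_add_distrib]
    refine Finset.sum_congr rfl fun s _ => ?_
    rw [hL j]
    change (((((L.idxFun s).getD j : Fin k) : ℕ)) : ℤ) = _
    rcases h : L.idxFun s with _ | c
    · simp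
    · simp

theorem elw_pos (k n : ℕ) (θ : Fin n → Fin k) : 1 ≤ elw k n θ ∧ elw k n θ ≤ n * k + 1 := by
  unfold elw
  have h0 : 0 ≤ ∑ s, ((θ s : ℕ) : ℤ) := Finset.sum_nonneg fun s _ => by positivity
  have h1 : ∑ s, ((θ s : ℕ) : ℤ) ≤ ∑ _s : Fin n, (k : ℤ) :=
    Finset.sum_le_sum fun s _ => by exact_mod_cast (θ s).2.le
  rw [Finset.sum_const, Finset.card_univ, Fintype.card_fin, nsmul_eq_mul] at h1
  constructor <;> linarith

theorem tww_dvd {z : ℤ} {N : ℕ} (hz : z ≠ 0) (hN : |z| ≤ N) : z ∣ ((N.factorial : ℕ) : ℤ) := by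
  rw [← Int.natAbs_dvd, Int.natCast_dvd_natCast]
  apply Nat.dvd_factorial
  · exact Int.natAbs_pos.2 hz
  · rw [← Int.natCast_natAbs] at hN
    exact_mod_cast hN

theorem elw_dvd (k n : ℕ) (θ : Fin n → Fin k) : elw k n θ ∣ (((n * k + 1).factorial : ℕ) : ℤ) := by
  obtain ⟨h1, h2⟩ := elw_pos k n θ
  apply tww_dvd (by omega)
  rw [abs_of_nonneg (by omega)]
  push_cast
  exact h2

theorem elw_sub {k n : ℕ} (th : Fin k → Fin n → Fin k) (hth : th ∈ pats k n) (i j : Fin k) (hij : i ≠ j) :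
    elw k n (th i) - elw k n (th j) ≠ 0 ∧
      (elw k n (th i) - elw k n (th j)) ∣ (((n * k + 1).factorial : ℕ) : ℤ) := by
  obtain ⟨a, d, hd1, hdn, hd⟩ := elw_line th hth
  have hne : elw k n (th i) - elw k n (th j) ≠ 0 := by
    rw [hd i, hd j]
    intro h
    have h1 : (((i : ℕ) : ℤ) - ((j : ℕ) : ℤ)) * (d : ℤ) = 0 := by linarith
    rcases mul_eq_zero.1 h1 with h2 | h2
    · apply hij
      apply Fin.ext
      omega
    · omega
  refine ⟨hne, tww_dvd hne ?_⟩
  obtain ⟨p1, p2⟩ := elw_pos k n (th i)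
  obtain ⟨q1, q2⟩ := elw_pos k n (th j)
  rw [abs_le]
  push_cast
  constructor <;> linarith

theorem tww_law {k Y : ℕ} [NeZero Y] (H : ℕ) (Φ : (Fin k → ZMod Y) → ℝ) :
    ∑ h : Fin k → ZMod Y, (∏ i, lamH Y H (h i)) * Φ h =
      (∑ x : Fin k → Fin H, Φ (fun i => ((x i : ℕ) : ZMod Y))) / (H : ℝ) ^ k := by
  classical
  have h1 : ∀ h : Fin k → ZMod Y, ∏ i, lamH Y H (h i) =
      (∑ x : Fin k → Fin H, if (fun i => ((x i : ℕ) : ZMod Y)) = h then (1 : ℝ) else 0) /
        (H : ℝ) ^ k := by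
    intro h
    have h2 : ∀ i, lamH Y H (h i) =
        (∑ ξ : Fin H, if ((ξ : ℕ) : ZMod Y) = h i then (1 : ℝ) else 0) / H := by
      intro i
      unfold lamH
      rw [lawU_eq_sum, Fintype.card_fin]
    rw [Finset.prod_congr rfl fun i _ => h2 i, Finset.prod_div_distrib, Finset.prod_const,
      Finset.card_univ, Fintype.card_fin, Finset.prod_univ_sum, Fintype.piFinset_univ]
    congr 1
    refine Finset.sum_congr rfl fun x _ => ?_
    rw [Finset.prod_boole]
    congr 1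
    rw [eq_iff_iff]
    constructor
    · intro h3
      funext i
      exact h3 i (Finset.mem_univ i)
    · intro h3 i _
      exact congrFun h3 i
  rw [Finset.sum_congr rfl fun h _ => by rw [h1 h, div_mul_eq_mul_div, Finset.sum_mul],
    ← Finset.sum_div, Finset.sum_comm]
  congr 1
  refine Finset.sum_congr rfl fun x _ => ?_
  simp only [ite_mul, one_mul, zero_mul]
  rw [Finset.sum_ite_eq]
  simp

theorem lam_words {k n : ℕ} (hk : 1 ≤ k) {Y : ℕ} [NeZero Y] (H o : ℕ) (hH : 1 ≤ H)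
    (F : ZMod Y → ℝ) (th : Fin k → Fin n → Fin k) (hth : th ∈ pats k n) :
    ∃ d : ℕ, 1 ≤ d ∧ d ≤ n ∧ LamT k (elw k n) (lamH Y H) th
        (fun s => F (s.2 - ((elw k n s.1 * o : ℤ) : ZMod Y))) =
      (∑ x : Fin k → Fin H, (∑ m : ZMod Y, ∏ j ∈ range k,
        F (m + ((j * (d * (o + ∑ i, (x i : ℕ))) : ℕ) : ZMod Y))) / (Y : ℝ)) / (H : ℝ) ^ k := by
  obtain ⟨a, d, hd1, hdn, hd⟩ := elw_line th hth
  refine ⟨d, hd1, hdn, ?_⟩
  rw [second_LamT]
  unfold second_G second_pr unif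
  rw [ZMod.card]
  have e1 : ∀ m : ZMod Y, 1 / (Y : ℝ) * ∑ h : Fin k → ZMod Y, (∏ i, lamH Y H (h i)) *
      ∏ j, F (m - elw k n (th j) • ∑ i, h i - ((elw k n (th j) * o : ℤ) : ZMod Y)) =
      ((∑ x : Fin k → Fin H, ∏ j, F (m - elw k n (th j) • ∑ i, ((x i : ℕ) : ZMod Y) -
        ((elw k n (th j) * o : ℤ) : ZMod Y))) / (H : ℝ) ^ k) / (Y : ℝ) := by
    intro m
    rw [tww_law H (fun h => ∏ j, F (m - elw k n (th j) • ∑ i, h i -
      ((elw k n (th j) * o : ℤ) : ZMod Y)))]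
    ring
  rw [Finset.sum_congr rfl fun m _ => e1 m, ← Finset.sum_div, ← Finset.sum_div, ← Finset.sum_div,
    Finset.sum_comm, div_right_comm]
  congr 2
  refine Finset.sum_congr rfl fun x _ => ?_
  obtain ⟨b, hb⟩ : ∃ b : ZMod Y, b = (∑ i, ((x i : ℕ) : ZMod Y)) + (o : ZMod Y) := ⟨_, rfl⟩
  refine Fintype.sum_equiv (Equiv.addRight (-((a : ZMod Y) * b) - ((k - 1 : ℕ) : ZMod Y) * (d * b)))
    _ _ fun m => ?_
  rw [← Finset.prod_range_reflect, ← Fin.prod_univ_eq_prod_range (fun j => F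
    ((Equiv.addRight (-((a : ZMod Y) * b) - ((k - 1 : ℕ) : ZMod Y) * (d * b))) m +
      (((k - 1 - j) * (d * (o + ∑ i, (x i : ℕ))) : ℕ) : ZMod Y))) k]
  refine Finset.prod_congr rfl fun j _ => ?_
  congr 1
  rw [Equiv.coe_addRight, hd j, zsmul_eq_mul]
  have hj : (j : ℕ) ≤ k - 1 := by have := j.2; omega
  push_cast [Nat.cast_sub hj]
  rw [hb]
  ring

theorem corrH_of_corrS (k n : ℕ) {Y : ℕ} [NeZero Y] (ν : ZMod Y → ℝ) (t T o : ℕ) (ε B : ℝ)
    (ho : 2 * T < o) (hB : (((n * k + 1) * o + T : ℕ) : ℝ) ≤ B) (hcorr : CorrS ν t ε B) :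
    CorrH (elw k n) {g : ZMod Y | ∃ z : ℤ, |z| ≤ T ∧ (z : ZMod Y) = g}
      (fun s => ν (s.2 - ((elw k n s.1 * o : ℤ) : ZMod Y))) t ε := by
  classical
  intro S hSt hS hinj
  have hch : ∀ s : (Fin n → Fin k) × ZMod Y, ∃ z : ℤ, s ∈ S → |z| ≤ T ∧ (z : ZMod Y) = s.2 := by
    intro s
    by_cases hs : s ∈ S
    · obtain ⟨z, hz⟩ := hS s hs
      exact ⟨z, fun _ => hz⟩
    · exact ⟨0, fun h => absurd h hs⟩
  choose z hz using hch
  have hInj : Set.InjOn (fun s : (Fin n → Fin k) × ZMod Y => z s - elw k n s.1 * o) (S : Set _) := by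
    intro s hs s' hs' h
    have hs := Finset.mem_coe.1 hs
    have hs' := Finset.mem_coe.1 hs'
    have h : z s - elw k n s.1 * o = z s' - elw k n s'.1 * o := h
    obtain ⟨z1, z2⟩ := hz s hs
    obtain ⟨z3, z4⟩ := hz s' hs'
    have hel : elw k n s.1 = elw k n s'.1 := by
      by_contra hne
      have h1 : 1 ≤ |elw k n s.1 - elw k n s'.1| := Int.one_le_abs (sub_ne_zero.2 hne)
      have h2 : (elw k n s.1 - elw k n s'.1) * (o : ℤ) = z s - z s' := by linarith
      have h3 : |elw k n s.1 - elw k n s'.1| * (o : ℤ) = |z s - z s'| := by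
        rw [← h2, abs_mul, Nat.abs_cast]
      have h4 : |z s - z s'| ≤ |z s| + |z s'| := abs_sub _ _
      have h5 : 1 * (o : ℤ) ≤ |elw k n s.1 - elw k n s'.1| * (o : ℤ) :=
        mul_le_mul_of_nonneg_right h1 (by positivity)
      have h6 : (2 * (T : ℤ)) < o := by exact_mod_cast ho
      linarith
    refine hinj s hs s' hs' hel ?_
    rw [hel] at h
    rw [← z2, ← z4]
    have h7 : z s = z s' := by linarith
    rw [h7]
  have hmain := hcorr (S.image (fun s : (Fin n → Fin k) × ZMod Y => z s - elw k n s.1 * o))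
    (Finset.card_image_le.trans hSt) ?_
  · rw [ZMod.card]
    refine le_trans (le_of_eq ?_) hmain
    congr 3
    refine Finset.sum_congr rfl fun p _ => ?_
    rw [Finset.prod_image hInj]
    refine Finset.prod_congr rfl fun s hs => ?_
    rw [← (hz s hs).2]
    push_cast
    rw [add_sub_assoc]
  · intro w hw
    obtain ⟨s, hs, rfl⟩ := Finset.mem_image.1 hw
    refine le_trans ?_ hB
    obtain ⟨h1, h2⟩ := elw_pos k n s.1
    obtain ⟨h3, -⟩ := hz s hs
    have h4 : |z s - elw k n s.1 * o| ≤ (((n * k + 1) * o + T : ℕ) : ℤ) := by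
      refine (abs_sub _ _).trans ?_
      have h5 : |elw k n s.1 * (o : ℤ)| ≤ (n * k + 1) * o := by
        rw [abs_mul, Nat.abs_cast, abs_of_nonneg (by omega)]
        exact mul_le_mul_of_nonneg_right h2 (by positivity)
      push_cast
      linarith
    exact_mod_cast h4

end Pool.Agent.H2.TW
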