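import Pool.Agent.H2.TW.Many
import Pool.Agent.H2.TW.Words
import Pool.Agent.H2.NC.RelMain
import Pool.Agent.H2.NC.Dense
import Pool.Agent.H2.NC.LfT
import Pool.Agent.H2.NC.LfQ
import Pool.Agent.H2.NC.Law
import Pool.Agent.H2.NC.Fin1

/-!
TW (MP_a1f59e_nt). The engine: narrow progressions in a dense subset of a pseudorandom set.
-/

set_option autoImplicit false

open Finset Filter

namespace Pool.Agent.H2.TW

open Pool.Agent.H16 Pool.Agent.H16.GPS Pool.Agent.H2.NC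

/-- bounds for the parameters, for large `ℓ` -/
theorem eng_size (k n D A : ℕ) (τ : ℝ) (hτ : 0 < τ) : ∀ᶠ ℓ : ℝ in atTop,
    (((n * k + 1) * ((k + 2) * (k * D * Hb A D τ ℓ) + 1) + k * D * Hb A D τ ℓ +
      k * (n * (((k + 2) * (k * D * Hb A D τ ℓ) + 1) + k * Hb A D τ ℓ)) : ℕ) : ℝ) ≤ ℓ ^ (A + 2) := by
  have h1 := Hb_upper A D k τ hτ
  have h2 := Hb_upper A 1 k τ hτ
  filter_upwards [h1, eventually_ge_atTop (1 : ℝ),
    eventually_ge_atTop (((n * k + 1) * (k + 3) + 1 + k * n * (k + 4) : ℕ) : ℝ), Hb_upper A D k τ hτ,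
    eventually_ge_atTop ((k : ℝ) * ((2 * (D : ℝ) / τ) * 2 + 1 + 2))] with ℓ h1 hℓ hC _ hk
  set T : ℕ := k * D * Hb A D τ ℓ with hT
  have hpow : (1 : ℝ) ≤ ℓ ^ (A + 1) := one_le_pow₀ hℓ
  -- k * Hb ≤ ℓ^(A+1)
  have hkH : ((k * Hb A D τ ℓ : ℕ) : ℝ) ≤ ℓ ^ (A + 1) := by
    have h3 : (1 : ℝ) ≤ ℓ ^ A := one_le_pow₀ hℓ
    have h4 : (Ha A ℓ : ℝ) ≤ 2 * ℓ ^ A := by
      unfold Ha
      push_cast
      have := Nat.floor_le (show (0 : ℝ) ≤ ℓ ^ A by positivity)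
      linarith
    have h5 : (Hb A D τ ℓ : ℝ) ≤ ((2 * (D : ℝ) / τ) * 2 + 1 + 2) * ℓ ^ A := by
      unfold Hb
      push_cast
      have h6 := (Nat.ceil_lt_add_one (show 0 ≤ 2 * (D : ℝ) * Ha A ℓ / τ by positivity)).le
      have h7 : 2 * (D : ℝ) * Ha A ℓ / τ ≤ (2 * (D : ℝ) / τ) * (2 * ℓ ^ A) := by
        have h8 : 2 * (D : ℝ) * Ha A ℓ / τ = (2 * (D : ℝ) / τ) * Ha A ℓ := by ring
        rw [h8]
        exact mul_le_mul_of_nonneg_left h4 (by positivity)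
      nlinarith
    push_cast
    calc (k : ℝ) * Hb A D τ ℓ ≤ (k : ℝ) * (((2 * (D : ℝ) / τ) * 2 + 1 + 2) * ℓ ^ A) :=
          mul_le_mul_of_nonneg_left h5 (by positivity)
      _ = ((k : ℝ) * ((2 * (D : ℝ) / τ) * 2 + 1 + 2)) * ℓ ^ A := by ring
      _ ≤ ℓ * ℓ ^ A := mul_le_mul_of_nonneg_right hk (by positivity)
      _ = ℓ ^ (A + 1) := by ring
  have ho : (((k + 2) * T + 1 : ℕ) : ℝ) ≤ (k + 3) * ℓ ^ (A + 1) := by
    push_cast
    have : (0 : ℝ) ≤ k := Nat.cast_nonneg _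
    nlinarith
  have ho0 : (0 : ℝ) ≤ (((k + 2) * T + 1 : ℕ) : ℝ) := Nat.cast_nonneg _
  have e : (((n * k + 1) * ((k + 2) * T + 1) + T + k * (n * (((k + 2) * T + 1) + k * Hb A D τ ℓ)) : ℕ) : ℝ)
      = ((n : ℝ) * k + 1) * (((k + 2) * T + 1 : ℕ) : ℝ) + (T : ℝ) +
        k * (n * ((((k + 2) * T + 1 : ℕ) : ℝ) + ((k * Hb A D τ ℓ : ℕ) : ℝ))) := by
    push_cast; ring
  rw [e]
  have hk0 : (0 : ℝ) ≤ k := Nat.cast_nonneg _
  have hn0 : (0 : ℝ) ≤ n := Nat.cast_nonneg _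
  have b1 : ((n : ℝ) * k + 1) * (((k + 2) * T + 1 : ℕ) : ℝ) ≤ ((n : ℝ) * k + 1) * ((k + 3) * ℓ ^ (A + 1)) :=
    mul_le_mul_of_nonneg_left ho (by positivity)
  have b2 : (k : ℝ) * (n * ((((k + 2) * T + 1 : ℕ) : ℝ) + ((k * Hb A D τ ℓ : ℕ) : ℝ))) ≤
      k * (n * ((k + 3) * ℓ ^ (A + 1) + ℓ ^ (A + 1))) := by
    apply mul_le_mul_of_nonneg_left _ hk0
    apply mul_le_mul_of_nonneg_left _ hn0
    linarith
  calc _ ≤ ((n : ℝ) * k + 1) * ((k + 3) * ℓ ^ (A + 1)) + ℓ ^ (A + 1) +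
        k * (n * ((k + 3) * ℓ ^ (A + 1) + ℓ ^ (A + 1))) := by linarith
    _ = (((n * k + 1) * (k + 3) + 1 + k * n * (k + 4) : ℕ) : ℝ) * ℓ ^ (A + 1) := by push_cast; ring
    _ ≤ ℓ * ℓ ^ (A + 1) := mul_le_mul_of_nonneg_right hC (by positivity)
    _ = ℓ ^ (A + 2) := by ring

open Classical in
theorem engine (k : ℕ) (hk : 2 ≤ k) (δ : ℝ) (hδ : 0 < δ) (Bn : ℕ) :
    ∃ (D A : ℕ) (ε c : ℝ), 0 < D ∧ 0 < ε ∧ 0 < c ∧ ∀ᶠ ℓ : ℝ in atTop, ∀ (u Y : ℕ) [NeZero Y],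
      Y = D * u + 1 → Real.exp (ℓ / 2) ≤ Y → ∀ ν F : ZMod Y → ℝ, (∀ y, 0 ≤ F y ∧ F y ≤ ν y) →
      (∀ y, ν y ≤ ℓ ^ Bn) → CorrS ν (k * 2 ^ k) ε (ℓ ^ A) → δ * (Y : ℝ) ≤ ∑ y, F y →
      c * (Y : ℝ) ≤ ∑ m ∈ univ.filter (fun m : ZMod Y => ∃ b : ℕ, 1 ≤ b ∧ (b : ℝ) ≤ ℓ ^ A ∧
        ∀ j ∈ range k, F (m + ((j * b : ℕ) : ZMod Y)) ≠ 0), F m := by
  set t : ℕ := k * 2 ^ k with ht
  have htk : 2 * k ≤ t := by
    rw [ht]
    have h1 : 2 ≤ 2 ^ k := by
      calc 2 = 2 ^ 1 := by norm_num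
        _ ≤ 2 ^ k := Nat.pow_le_pow_right (by norm_num) (by omega)
    nlinarith
  obtain ⟨n, c₁, hc₁, hdense⟩ := dense_nc k (by omega) (δ / 2) (by positivity)
  have : Nonempty (Fin k) := ⟨⟨0, by omega⟩⟩
  obtain ⟨ηr, hηr, τ, hτ, hrel⟩ := rel_nc k hk δ c₁ hδ hc₁ (Fin n → Fin k)
  set D : ℕ := (n * k + 1).factorial with hD
  have hD0 : 0 < D := Nat.factorial_pos _
  set A : ℕ := Bn * t + 1 + 2 with hA
  set cc : ℝ := (c₁ / 2) ^ 2 / 3 with hcc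
  have hcc0 : 0 < cc := by positivity
  refine ⟨D, A, min 1 (ηr / 2), cc, hD0, lt_min one_pos (by positivity), hcc0, ?_⟩
  filter_upwards [eng_size k n D (Bn * t + 1) τ hτ, Hb_upper (Bn * t + 1) D k τ hτ,
    fin1_ev t Bn k A htk ηr 1 hηr one_pos] with ℓ hsize hHb hev
  obtain ⟨hℓ1, hexp3, hHev, hA1, hA2⟩ := hev
  intro u Y _ hY hYlow ν F hF hνB hcorrS hmean
  have hν0 : ∀ y, 0 ≤ ν y := fun y => (hF y).1.trans (hF y).2
  set H' : ℕ := Ha (Bn * t + 1) ℓ with hH'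
  set H : ℕ := Hb (Bn * t + 1) D τ ℓ with hH
  have hH'1 : 1 ≤ H' := Ha_pos _ _
  have hH1 : 1 ≤ H := Hb_pos _ _ _ _
  set T : ℕ := k * D * H with hT
  set o : ℕ := (k + 2) * T + 1 with ho
  have hHT : H ≤ T := by
    rw [hT]
    exact Nat.le_mul_of_pos_left H (Nat.mul_pos (by omega) hD0)
  have hkHT : k * H ≤ T := by
    rw [hT]
    exact Nat.mul_le_mul_right H (Nat.le_mul_of_pos_right k hD0)
  have hTA : (T : ℝ) ≤ ℓ ^ A := by
    refine hHb.trans (pow_le_pow_right₀ hℓ1 (by omega))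
  have hHY : H ≤ Y := by
    have h1 : (H : ℝ) ≤ Y := by
      calc (H : ℝ) ≤ T := by exact_mod_cast hHT
        _ ≤ ℓ ^ A := hTA
        _ ≤ Real.exp (ℓ / 2) := hA1
        _ ≤ Y := hYlow
    exact_mod_cast h1
  have hH'Y : H' ≤ Y := (Ha_le_Hb _ _ _ _).trans hHY
  have hBd : (1 : ℝ) ≤ ℓ ^ Bn := one_le_pow₀ hℓ1
  -- size
  have hB : (((n * k + 1) * o + T : ℕ) : ℝ) ≤ ℓ ^ A := by
    refine le_trans ?_ hsize
    exact_mod_cast Nat.le_add_right _ _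
  -- the system
  set el : (Fin n → Fin k) → ℤ := elw k n with hel
  set ν' : (Fin n → Fin k) × ZMod Y → ℝ := fun s => ν (s.2 - ((el s.1 * o : ℤ) : ZMod Y)) with hν'
  set f : (Fin n → Fin k) × ZMod Y → ℝ := fun s => F (s.2 - ((el s.1 * o : ℤ) : ZMod Y)) with hf
  have hf01 : ∀ s, 0 ≤ f s ∧ f s ≤ ν' s := fun s => hF _
  have hν'0 : ∀ s, 0 ≤ ν' s ∧ ν' s ≤ ℓ ^ Bn := fun s => ⟨hν0 _, hνB _⟩
  have hmean2 : δ ≤ ∑ s, unif ((Fin n → Fin k) × ZMod Y) s * f s := by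
    have hYr : (0 : ℝ) < Y := by
      have : 0 < Y := Nat.pos_of_ne_zero (NeZero.ne Y)
      exact_mod_cast this
    have hcard : (Fintype.card ((Fin n → Fin k) × ZMod Y) : ℝ) =
        (Fintype.card (Fin n → Fin k) : ℝ) * Y := by
      rw [Fintype.card_prod, ZMod.card]; push_cast; ring
    have h1 : ∀ θ : Fin n → Fin k, δ * Y ≤ ∑ y : ZMod Y, f (θ, y) := by
      intro θ
      have h2 : ∑ y : ZMod Y, f (θ, y) = ∑ y : ZMod Y, F y := by
        simp only [hf]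
        exact (Equiv.subRight (((el θ * o : ℤ)) : ZMod Y)).sum_comp F
      rw [h2]; exact hmean
    have h4 : (Fintype.card (Fin n → Fin k) : ℝ) * (δ * Y) ≤
        ∑ θ : Fin n → Fin k, ∑ y : ZMod Y, f (θ, y) := by
      have h5 := Finset.card_nsmul_le_sum (univ : Finset (Fin n → Fin k))
        (fun θ => ∑ y : ZMod Y, f (θ, y)) (δ * Y) (fun θ _ => h1 θ)
      rwa [nsmul_eq_mul, Finset.card_univ] at h5
    have hc0 : (0 : ℝ) < (Fintype.card (Fin n → Fin k) : ℝ) := by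
      exact_mod_cast Fintype.card_pos
    unfold unif
    rw [← Finset.mul_sum, hcard, Fintype.sum_prod_type, one_div, ← div_eq_inv_mul,
      le_div_iff₀ (by positivity)]
    linarith
  -- the laws
  have hl := lamH_isPW Y H hH1
  have hl' := lamH_isPW Y H' hH'1
  have hinj : ∀ c : ℤ, c ∣ (D : ℤ) → Function.Injective (fun g : ZMod Y => c • g) :=
    inj_of_mod Y D u hD0 hY
  have hinjD : Function.Injective (fun g : ZMod Y => D • g) := by
    have := hinj (D : ℤ) dvd_rfl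
    simpa using this
  set 𝒮 : Set (ZMod Y) := {g : ZMod Y | ∃ z : ℤ, |z| ≤ T ∧ (z : ZMod Y) = g} with h𝒮
  have hcorr : CorrH el 𝒮 ν' t (min 1 (ηr / 2)) := by
    refine corrH_of_corrS k n ν t T o (min 1 (ηr / 2)) (ℓ ^ A) ?_ hB hcorrS
    rw [ho]; nlinarith
  have hcoef : ∀ c : ℤ, c ∣ (D : ℤ) → |c| ≤ (D : ℤ) := by
    intro c hc
    exact Int.le_of_dvd (by exact_mod_cast hD0) ((abs_dvd c _).mpr hc)
  have hlin : ∀ (cf : Fin k → ℤ) (L : ℕ), L ≤ H → (∀ i, |cf i| ≤ D) → ∀ h : Fin k → ZMod Y,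
      (∀ i, lamH Y L (h i) ≠ 0) → ∑ i, cf i • h i ∈ 𝒮 := by
    intro cf L hL hcf h hh
    choose q hq using fun i => lamH_support Y L (h i) (hh i)
    refine ⟨∑ i, cf i * (q i : ℤ), ?_, ?_⟩
    · calc |∑ i, cf i * (q i : ℤ)| ≤ ∑ i : Fin k, |cf i * (q i : ℤ)| := Finset.abs_sum_le_sum_abs _ _
        _ ≤ ∑ _i : Fin k, ((D : ℤ) * H) := by
          refine Finset.sum_le_sum fun i _ => ?_
          rw [abs_mul, Nat.abs_cast]
          have h1 : (q i : ℤ) ≤ H := by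
            have := (hq i).1
            omega
          exact mul_le_mul (hcf i) h1 (by positivity) (by positivity)
        _ = (T : ℤ) := by
          rw [Finset.sum_const, Finset.card_univ, Fintype.card_fin, hT]
          push_cast
          ring
    · push_cast
      refine Finset.sum_congr rfl fun i _ => ?_
      rw [← (hq i).2, zsmul_eq_mul]
  have hLFt : ∀ th ∈ pats k n, LFt k el (lamH Y H) th ν' ηr := by
    intro th hth
    have h1 := lft_of_corr k hk el th D hD0 (fun i j hij => elw_sub th hth i j hij) (lamH Y H) hl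
      (1 / (H : ℝ)) (lamH_atom Y H hH1 hHY) hinj ν' (ℓ ^ Bn) hBd hν'0 (min 1 (ηr / 2))
      (by positivity) 𝒮 (fun j h hh => by
        refine hlin (fun i => el (th i) - el (th j)) H le_rfl (fun i => ?_) h hh
        by_cases hij : i = j
        · subst hij
          simp
        · exact hcoef _ (elw_sub th hth i j hij).2) hcorr
    intro S hS
    exact (h1 S hS).trans (hHev H (Hb_lower _ _ _ _)).1
  have hLFq : ∀ θ : Fin n → Fin k, LFq k D (lamH Y H') (fun p => ν' (θ, p)) ηr := by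
    intro θ
    have h1 := lfq_of_corr k hk el θ D (lamH Y H') hl' (1 / (H' : ℝ))
      (lamH_atom Y H' hH'1 hH'Y) hinjD ν' (ℓ ^ Bn) hBd hν'0 (min 1 (ηr / 2))
      (by positivity) 𝒮 (fun y hy => by
        have h2 := hlin (fun _ => (D : ℤ)) H' (Ha_le_Hb _ _ _ _) (fun i => by simp) y hy
        have h3 : D • ∑ c : Fin k, y c = ∑ i, (D : ℤ) • y i := by
          rw [Finset.smul_sum]
          exact Finset.sum_congr rfl fun i _ => (natCast_zsmul _ _).symm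
        rw [h3]
        exact h2) hcorr
    intro S
    exact (h1 S).trans (hHev H' (Ha_lower _ _)).1
  -- the relative theorem
  obtain ⟨th, hth, hLam⟩ := hrel D el (pats k n) hD0 (fun th hth i j hij => elw_sub th hth i j hij)
    (ZMod Y) (lamH Y H) (lamH Y H') hl hl'
    ν' f hLFt hLFq (lamH_near Y H H' D hH1 hH'1 τ (Hb_near _ _ _ _ hτ))
    (fun g hg hgδ => hdense el (ZMod Y) (lamH Y H) hl g hg hgδ) hf01 hmean2
  obtain ⟨d, hd1, hdn, hLd⟩ := lam_words (by omega : 1 ≤ k) H o hH1 F th hth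
  rw [hLd] at hLam
  have hbd : (((k * (d * (o + k * H)) : ℕ)) : ℝ) ≤ ℓ ^ A := by
    refine le_trans ?_ hsize
    have h1 : k * (d * (o + k * H)) ≤ k * (n * (o + k * H)) :=
      Nat.mul_le_mul_left _ (Nat.mul_le_mul_right _ hdn)
    have h2 : k * (n * (o + k * H)) ≤ (n * k + 1) * o + T + k * (n * (o + k * H)) := Nat.le_add_left _ _
    exact_mod_cast h1.trans h2
  have hmf := many_first k hk ν F hF (ℓ ^ Bn) hBd hνB H o d hH1 hd1 (by
      have h1 : k * (k * H) ≤ k * T := Nat.mul_le_mul_left _ hkHT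
      rw [ho]; nlinarith)
    (by
      intro Z hZ hZb
      exact (hcorrS Z hZ (fun z hz => (hZb z hz).trans hbd)).trans (min_le_left _ _))
    (hHev H (Hb_lower _ _ _ _)).2 (c₁ / 2) (by positivity) hLam
  refine hmf.trans ?_
  apply Finset.sum_le_sum_of_subset_of_nonneg
  · intro m hm
    rw [Finset.mem_filter] at hm ⊢
    refine ⟨hm.1, ?_⟩
    obtain ⟨x, hx⟩ := hm.2
    refine ⟨d * (o + ∑ i, (x i : ℕ)), ?_, ?_, hx⟩
    · exact Nat.mul_pos hd1 (by omega)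
    · refine le_trans ?_ hbd
      have h1 : ∑ i, (x i : ℕ) ≤ k * H := by
        calc ∑ i, (x i : ℕ) ≤ ∑ _i : Fin k, H := Finset.sum_le_sum fun i _ => (x i).2.le
          _ = k * H := by rw [Finset.sum_const, Finset.card_univ, Fintype.card_fin, smul_eq_mul]
      have h2 : d * (o + ∑ i, (x i : ℕ)) ≤ k * (d * (o + k * H)) := by
        calc d * (o + ∑ i, (x i : ℕ)) ≤ d * (o + k * H) := Nat.mul_le_mul_left _ (by omega)
          _ ≤ k * (d * (o + k * H)) := Nat.le_mul_of_pos_left _ (by omega)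
      exact_mod_cast h2
  · intro m _ _
    exact (hF m).1

end Pool.Agent.H2.TW
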