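import Pool.Agent.H2.TW.Defs

/-!
JOB TW-MANY (MP_a1f59e_nt). Many starting points by a second moment.

PROOF. Write `b x = d * (o + ∑ i, x i)` (`x : Fin k → Fin H`) and `G m = (∑ x, ∏ j ∈ range k \ {0}, F (m + j * b x)) / H ^ k`, so that the
hypothesis is `c Y ≤ ∑ m, F m * G m` (separate the factor `j = 0`). `F m * G m ≠ 0` implies that `m` is in the set `M` of the conclusion.
Cauchy-Schwarz with the weights `F m`: `(∑ F G)^2 ≤ (∑ m ∈ M, F m) * (∑ m, F m * G m ^ 2)`. Claim: `∑ m, F m * G m ^ 2 ≤ 3 Y`, which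
gives `∑ m ∈ M, F m ≥ c^2 Y / 3`. Proof of the claim: `F ≤ ν`, `ν ≥ 0`, so the sum is at most
`H^(-2k) ∑ x, ∑ x', ∑ m, ν m * ∏_{1 ≤ j < k} ν (m + j b x) * ∏_{1 ≤ j < k} ν (m + j b x')`. Let `s = ∑ i, x i`, `s' = ∑ i, x' i` (both `< k H`,
as `H ≥ 1`, `k ≥ 2`). If `s ≠ s'` the `2 k - 1` integers `0`, `j d (o + s)`, `j d (o + s')` (`1 ≤ j < k`) are distinct (if `j < j'` then
`j (o + s) ≤ j o + k (k H) < (j + 1) o ≤ j' (o + s')`), at most `k d (o + k H)`, and their number is `≤ k 2^k`: by `hcorr` the sum over `m` is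
`≤ 2 Y`. If `s = s'` the sum over `m` is `≤ Y Bd^(2k)` (`Bd ≥ 1`), and the number of such pairs `(x, x')` is at most `H^(2k) / H` (`x' 0` is
determined by the rest). Total `≤ 2 Y + Y Bd^(2k) / H ≤ 3 Y`.
-/

set_option autoImplicit false

open Finset

namespace Pool.Agent.H2.TW

open Pool.Agent.H16 Pool.Agent.H16.GPS Pool.Agent.H2.NC

/-- different multiples of `o + s`, `o + s'` -/
theorem many_ne (k H o j j' s s' : ℕ) (ho : k * (k * H) < o) (hj : j < k) (hj' : j' < k)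
    (hs : s ≤ k * H) (hs' : s' ≤ k * H) (hne : s ≠ s') (h0 : 0 < j) :
    j * (o + s) ≠ j' * (o + s') := by
  intro h
  have key : ∀ i i' r r' : ℕ, i < k → r ≤ k * H → i < i' → i * (o + r) < i' * (o + r') := by
    intro i i' r r' hi hr hii
    have h1 : i * r ≤ k * (k * H) := Nat.mul_le_mul hi.le hr
    calc i * (o + r) = i * o + i * r := by ring
      _ < i * o + o := by omega
      _ = (i + 1) * o := by ring
      _ ≤ i' * o := Nat.mul_le_mul_right _ hii
      _ ≤ i' * (o + r') := Nat.mul_le_mul_left _ (Nat.le_add_right _ _)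
  rcases lt_trichotomy j j' with h1 | h1 | h1
  · exact absurd h (key j j' s s' hj hs h1).ne
  · subst h1
    have := Nat.eq_of_mul_eq_mul_left h0 h
    omega
  · exact absurd h (key j' j s' s hj' hs' h1).ne'

theorem many_sum_le (k H : ℕ) (x : Fin k → Fin H) : ∑ i, (x i : ℕ) ≤ k * H := by
  calc ∑ i, (x i : ℕ) ≤ ∑ _i : Fin k, H := sum_le_sum fun i _ => (x i).2.le
    _ = k * H := by simp

/-- correlations of two different progressions -/
theorem many_corr (k : ℕ) (hk : 2 ≤ k) {Y : ℕ} [NeZero Y] (ν : ZMod Y → ℝ) (H o d : ℕ)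
    (hd : 1 ≤ d) (ho : k * (k * H) < o)
    (hcorr : CorrS ν (k * 2 ^ k) 1 ((k * (d * (o + k * H)) : ℕ) : ℝ)) (s s' : ℕ)
    (hs : s ≤ k * H) (hs' : s' ≤ k * H) (hne : s ≠ s') :
    ∑ m : ZMod Y, ν m * (∏ j ∈ (range k).erase 0, ν (m + ((j * (d * (o + s)) : ℕ) : ZMod Y))) *
      (∏ j ∈ (range k).erase 0, ν (m + ((j * (d * (o + s')) : ℕ) : ZMod Y))) ≤ 2 * (Y : ℝ) := by
  classical
  set R := (range k).erase 0 with hR
  have hRm : ∀ j, j ∈ R ↔ j ≠ 0 ∧ j < k := by
    intro j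
    rw [hR, mem_erase, mem_range]
  have hopos : 0 < o := by omega
  set I : ℕ → Finset ℤ := fun r => R.image (fun j => ((j * (d * (o + r)) : ℕ) : ℤ)) with hI
  have hinj : ∀ r : ℕ, Set.InjOn (fun j : ℕ => ((j * (d * (o + r)) : ℕ) : ℤ)) R := by
    intro r a _ b _ hab
    have hab' : ((a * (d * (o + r)) : ℕ) : ℤ) = ((b * (d * (o + r)) : ℕ) : ℤ) := hab
    have h1 : a * (d * (o + r)) = b * (d * (o + r)) := by exact_mod_cast hab'
    exact Nat.eq_of_mul_eq_mul_right (by positivity) h1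
  have hdis : Disjoint (I s) (I s') := by
    rw [disjoint_left]
    intro z hz hz'
    rw [hI, mem_image] at hz hz'
    obtain ⟨j, hj, rfl⟩ := hz
    obtain ⟨j', hj', hjj⟩ := hz'
    have h1 : j' * (d * (o + s')) = j * (d * (o + s)) := by exact_mod_cast hjj
    have h2 : d * (j' * (o + s')) = d * (j * (o + s)) := by
      calc d * (j' * (o + s')) = j' * (d * (o + s')) := by ring
        _ = j * (d * (o + s)) := h1
        _ = _ := by ring
    have h3 := Nat.eq_of_mul_eq_mul_left (by omega) h2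
    exact many_ne k H o j j' s s' ho ((hRm j).1 hj).2 ((hRm j').1 hj').2 hs hs' hne
      (Nat.pos_of_ne_zero ((hRm j).1 hj).1) h3.symm
  have h0 : (0 : ℤ) ∉ I s ∪ I s' := by
    rw [mem_union]
    have : ∀ r, (0 : ℤ) ∉ I r := by
      intro r hr
      rw [hI, mem_image] at hr
      obtain ⟨j, hj, hj0⟩ := hr
      have h1 : j * (d * (o + r)) = 0 := by exact_mod_cast hj0
      have h2 : j ≠ 0 := ((hRm j).1 hj).1
      rcases Nat.mul_eq_zero.1 h1 with h | h
      · exact h2 h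
      · rcases Nat.mul_eq_zero.1 h with h | h
        · omega
        · omega
    rintro (h | h)
    · exact this _ h
    · exact this _ h
  have hRc : #R = k - 1 := by
    rw [hR, card_erase_of_mem (by rw [mem_range]; omega), card_range]
  have hcard : #(insert 0 (I s ∪ I s')) ≤ k * 2 ^ k := by
    have hIc : ∀ r, #(I r) ≤ k - 1 := fun r => (card_image_le).trans hRc.le
    have h1 := card_insert_le (0 : ℤ) (I s ∪ I s')
    have h2 := card_union_le (I s) (I s')
    have h3 := hIc s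
    have h4 := hIc s'
    have h5 : 2 ≤ 2 ^ k := by
      calc 2 = 2 ^ 1 := rfl
        _ ≤ 2 ^ k := Nat.pow_le_pow_right (by norm_num) (by omega)
    have h6 : k * 2 ≤ k * 2 ^ k := Nat.mul_le_mul_left _ h5
    omega
  have hbd : ∀ z ∈ insert 0 (I s ∪ I s'), |(z : ℝ)| ≤ ((k * (d * (o + k * H)) : ℕ) : ℝ) := by
    intro z hz
    rw [mem_insert, mem_union] at hz
    have hIb : ∀ r, r ≤ k * H → z ∈ I r → |(z : ℝ)| ≤ ((k * (d * (o + k * H)) : ℕ) : ℝ) := by
      intro r hr hzr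
      rw [hI, mem_image] at hzr
      obtain ⟨j, hj, rfl⟩ := hzr
      rw [Int.cast_natCast, abs_of_nonneg (Nat.cast_nonneg _)]
      apply Nat.cast_le.2
      exact Nat.mul_le_mul ((hRm j).1 hj).2.le (Nat.mul_le_mul_left _ (by omega))
    rcases hz with rfl | h | h
    · simp only [Int.cast_zero, abs_zero]
      exact Nat.cast_nonneg _
    · exact hIb s hs h
    · exact hIb s' hs' h
  have hc := hcorr _ hcard hbd
  have hprod : ∀ m : ZMod Y, ∏ z ∈ insert 0 (I s ∪ I s'), ν (m + (z : ZMod Y)) =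
      ν m * (∏ j ∈ R, ν (m + ((j * (d * (o + s)) : ℕ) : ZMod Y))) *
        (∏ j ∈ R, ν (m + ((j * (d * (o + s')) : ℕ) : ZMod Y))) := by
    intro m
    rw [prod_insert h0, prod_union hdis, hI]
    simp only
    rw [prod_image (hinj s), prod_image (hinj s'), Int.cast_zero, add_zero, mul_assoc]
    simp only [Int.cast_natCast]
  simp only [hprod] at hc
  have hY : (0 : ℝ) < Y := by
    have := NeZero.pos Y
    exact_mod_cast this
  have h2 := (abs_le.1 hc).2
  have h3 : (∑ m : ZMod Y, ν m * (∏ j ∈ R, ν (m + ((j * (d * (o + s)) : ℕ) : ZMod Y))) *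
        (∏ j ∈ R, ν (m + ((j * (d * (o + s')) : ℕ) : ZMod Y)))) / (Y : ℝ) ≤ 2 := by linarith
  rwa [div_le_iff₀ hY] at h3

/-- the number of pairs of words with equal sums -/
theorem many_pairs (k : ℕ) (hk : 2 ≤ k) (H : ℕ) :
    #{p : (Fin k → Fin H) × (Fin k → Fin H) | ∑ i, (p.1 i : ℕ) = ∑ i, (p.2 i : ℕ)} * H ≤
      H ^ (2 * k) := by
  classical
  obtain ⟨n, rfl⟩ : ∃ n, k = n + 1 := ⟨k - 1, by omega⟩
  have h1 : #{p : (Fin (n + 1) → Fin H) × (Fin (n + 1) → Fin H) |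
      ∑ i, (p.1 i : ℕ) = ∑ i, (p.2 i : ℕ)} ≤
      Fintype.card ((Fin (n + 1) → Fin H) × (Fin n → Fin H)) := by
    rw [← card_univ]
    refine card_le_card_of_injOn (fun p => (p.1, fun i => p.2 i.succ)) (fun _ _ => mem_univ _) ?_
    rintro ⟨x, y⟩ hp ⟨x', y'⟩ hp' hpp
    simp only [coe_filter, mem_univ, true_and, Set.mem_ofPred_eq] at hp hp'
    simp only [Prod.mk.injEq] at hpp
    obtain ⟨rfl, h2⟩ := hpp
    rw [Fin.sum_univ_succ (fun i => (y i : ℕ))] at hp
    rw [Fin.sum_univ_succ (fun i => (y' i : ℕ))] at hp'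
    have h3 : ∀ i : Fin n, y i.succ = y' i.succ := fun i => congrFun h2 i
    have h4 : ∑ i : Fin n, (y i.succ : ℕ) = ∑ i : Fin n, (y' i.succ : ℕ) :=
      sum_congr rfl fun i _ => by rw [h3]
    have h5 : y 0 = y' 0 := by
      apply Fin.ext
      omega
    have h6 : y = y' := by
      funext i
      refine Fin.cases h5 h3 i
    rw [h6]
  rw [Fintype.card_prod, Fintype.card_fun, Fintype.card_fun, Fintype.card_fin, Fintype.card_fin,
    Fintype.card_fin] at h1
  calc _ ≤ (H ^ (n + 1) * H ^ n) * H := Nat.mul_le_mul_right _ h1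
    _ = H ^ (2 * (n + 1)) := by ring

open Classical in
theorem many_first (k : ℕ) (hk : 2 ≤ k) {Y : ℕ} [NeZero Y] (ν F : ZMod Y → ℝ)
    (hF : ∀ y, 0 ≤ F y ∧ F y ≤ ν y) (Bd : ℝ) (hBd : 1 ≤ Bd) (hν : ∀ y, ν y ≤ Bd) (H o d : ℕ)
    (hH : 1 ≤ H) (hd : 1 ≤ d) (ho : k * (k * H) < o)
    (hcorr : CorrS ν (k * 2 ^ k) 1 ((k * (d * (o + k * H)) : ℕ) : ℝ))
    (haB : 1 / (H : ℝ) * Bd ^ (2 * k) ≤ 1) (c : ℝ) (hc : 0 < c)
    (hLam : c ≤ (∑ x : Fin k → Fin H, (∑ m : ZMod Y, ∏ j ∈ range k,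
      F (m + ((j * (d * (o + ∑ i, (x i : ℕ))) : ℕ) : ZMod Y))) / (Y : ℝ)) / (H : ℝ) ^ k) :
    c ^ 2 / 3 * (Y : ℝ) ≤ ∑ m ∈ univ.filter (fun m : ZMod Y => ∃ x : Fin k → Fin H,
      ∀ j ∈ range k, F (m + ((j * (d * (o + ∑ i, (x i : ℕ))) : ℕ) : ZMod Y)) ≠ 0), F m := by
  have hY : (0 : ℝ) < Y := by
    have := NeZero.pos Y
    exact_mod_cast this
  have hHpos : (0 : ℝ) < H := by exact_mod_cast hH
  have hHk : (0 : ℝ) < (H : ℝ) ^ k := pow_pos hHpos k
  have hν0 : ∀ y, 0 ≤ ν y := fun y => (hF y).1.trans (hF y).2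
  set R := (range k).erase 0 with hR
  have hRc : #R = k - 1 := by
    rw [hR, card_erase_of_mem (by rw [mem_range]; omega), card_range]
  set sm : (Fin k → Fin H) → ℕ := fun x => ∑ i, (x i : ℕ) with hsm
  set P : (ZMod Y → ℝ) → (Fin k → Fin H) → ZMod Y → ℝ := fun f x m =>
    ∏ j ∈ R, f (m + ((j * (d * (o + sm x)) : ℕ) : ZMod Y)) with hP
  set M := univ.filter (fun m : ZMod Y => ∃ x : Fin k → Fin H,
      ∀ j ∈ range k, F (m + ((j * (d * (o + ∑ i, (x i : ℕ))) : ℕ) : ZMod Y)) ≠ 0) with hM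
  have hsplit : ∀ (x : Fin k → Fin H) (m : ZMod Y), ∏ j ∈ range k,
      F (m + ((j * (d * (o + ∑ i, (x i : ℕ))) : ℕ) : ZMod Y)) = F m * P F x m := by
    intro x m
    rw [← mul_prod_erase (range k) _ (show 0 ∈ range k by rw [mem_range]; omega)]
    simp only [zero_mul, Nat.cast_zero, add_zero]
    rfl
  have hP0 : ∀ x m, 0 ≤ P F x m := fun x m => prod_nonneg fun j _ => (hF _).1
  have hPν0 : ∀ x m, 0 ≤ P ν x m := fun x m => prod_nonneg fun j _ => hν0 _
  have hPle : ∀ x m, P F x m ≤ P ν x m := fun x m =>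
    prod_le_prod (fun j _ => (hF _).1) fun j _ => (hF _).2
  set G : ZMod Y → ℝ := fun m => (∑ x, P F x m) / (H : ℝ) ^ k with hG
  -- the hypothesis
  have h1 : c * Y ≤ ∑ m ∈ M, F m * G m := by
    have e1 : (∑ x : Fin k → Fin H, (∑ m : ZMod Y, ∏ j ∈ range k,
        F (m + ((j * (d * (o + ∑ i, (x i : ℕ))) : ℕ) : ZMod Y))) / (Y : ℝ)) / (H : ℝ) ^ k =
        (∑ m, F m * G m) / Y := by
      simp only [hsplit, hG]
      rw [← sum_div, sum_comm, div_div, mul_comm (Y : ℝ), ← div_div]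
      congr 1
      rw [sum_div]
      refine sum_congr rfl fun m _ => ?_
      rw [← mul_sum, mul_div_assoc]
    rw [e1, le_div_iff₀ hY] at hLam
    refine hLam.trans (le_of_eq ?_)
    symm
    refine sum_subset (subset_univ _) ?_
    intro m _ hm
    rw [hM, mem_filter] at hm
    have hm2 : ∀ x : Fin k → Fin H, F m * P F x m = 0 := by
      intro x
      by_contra hx
      apply hm
      refine ⟨mem_univ _, x, ?_⟩
      rw [← hsplit] at hx
      exact fun j hj => (prod_ne_zero_iff.1 hx) j hj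
    simp only [hG]
    rw [mul_div_assoc', mul_sum, sum_eq_zero fun x _ => hm2 x, zero_div]
  -- the claim
  have hclaim : ∑ m, F m * G m ^ 2 ≤ 3 * Y := by
    have e1 : ∀ m, F m * G m ^ 2 ≤
        (∑ p : (Fin k → Fin H) × (Fin k → Fin H), ν m * P ν p.1 m * P ν p.2 m) /
          (H : ℝ) ^ (2 * k) := by
      intro m
      have g1 : G m ≤ (∑ x, P ν x m) / (H : ℝ) ^ k :=
        div_le_div_of_nonneg_right (sum_le_sum fun x _ => hPle x m) hHk.le
      have g0 : 0 ≤ G m := div_nonneg (sum_nonneg fun x _ => hP0 x m) hHk.le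
      have g2 : F m * G m ^ 2 ≤ ν m * ((∑ x, P ν x m) / (H : ℝ) ^ k) ^ 2 :=
        mul_le_mul (hF m).2 (pow_le_pow_left₀ g0 g1 2) (sq_nonneg _) (hν0 m)
      refine g2.trans (le_of_eq ?_)
      have e3 : ∑ p : (Fin k → Fin H) × (Fin k → Fin H), ν m * P ν p.1 m * P ν p.2 m =
          ν m * (∑ x, P ν x m) ^ 2 := by
        rw [Fintype.sum_prod_type, sq, sum_mul_sum, mul_sum]
        refine sum_congr rfl fun x _ => ?_
        rw [mul_sum]
        refine sum_congr rfl fun y _ => ?_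
        ring
      rw [e3, div_pow, ← pow_mul, mul_comm k 2, mul_div_assoc]
    have e2 : ∀ p : (Fin k → Fin H) × (Fin k → Fin H),
        ∑ m, ν m * P ν p.1 m * P ν p.2 m ≤
          2 * Y + if sm p.1 = sm p.2 then (Y : ℝ) * Bd ^ (2 * k) else 0 := by
      intro p
      split_ifs with hp
      · have hB0 : 0 ≤ Bd := zero_le_one.trans hBd
        have hPB : ∀ x m, P ν x m ≤ Bd ^ (k - 1) := by
          intro x m
          rw [← hRc, ← prod_const]
          exact prod_le_prod (fun j _ => hν0 _) fun j _ => hν _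
        have e4 : ∀ m, ν m * P ν p.1 m * P ν p.2 m ≤ Bd ^ (2 * k) := by
          intro m
          calc ν m * P ν p.1 m * P ν p.2 m ≤ Bd * Bd ^ (k - 1) * Bd ^ (k - 1) := by
                refine mul_le_mul (mul_le_mul (hν m) (hPB _ _) (hPν0 _ _) hB0) (hPB _ _)
                  (hPν0 _ _) (by positivity)
            _ = Bd ^ (2 * k - 1) := by
                rw [← pow_succ', ← pow_add]
                congr 1
                omega
            _ ≤ Bd ^ (2 * k) := pow_le_pow_right₀ hBd (by omega)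
        have e5 : ∑ m, ν m * P ν p.1 m * P ν p.2 m ≤ ∑ _m : ZMod Y, Bd ^ (2 * k) :=
          sum_le_sum fun m _ => e4 m
        rw [sum_const, card_univ, ZMod.card, nsmul_eq_mul] at e5
        linarith
      · rw [add_zero]
        exact many_corr k hk ν H o d hd ho hcorr (sm p.1) (sm p.2) (many_sum_le k H _)
          (many_sum_le k H _) hp
    have e6 : ∑ m, F m * G m ^ 2 ≤
        (∑ p : (Fin k → Fin H) × (Fin k → Fin H), ∑ m, ν m * P ν p.1 m * P ν p.2 m) /
          (H : ℝ) ^ (2 * k) := by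
      refine (sum_le_sum fun m _ => e1 m).trans (le_of_eq ?_)
      rw [← sum_div, sum_comm]
    have hH2k : (0 : ℝ) < (H : ℝ) ^ (2 * k) := pow_pos hHpos _
    have e7 : ∑ p : (Fin k → Fin H) × (Fin k → Fin H), ∑ m, ν m * P ν p.1 m * P ν p.2 m ≤
        (H : ℝ) ^ (2 * k) * (2 * Y) +
          (#{p : (Fin k → Fin H) × (Fin k → Fin H) | sm p.1 = sm p.2} : ℝ) *
            ((Y : ℝ) * Bd ^ (2 * k)) := by
      refine (sum_le_sum fun p _ => e2 p).trans (le_of_eq ?_)
      rw [sum_add_distrib, sum_const, card_univ, Fintype.card_prod, Fintype.card_fun,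
        Fintype.card_fin, Fintype.card_fin, nsmul_eq_mul, ← sum_filter, sum_const, nsmul_eq_mul]
      push_cast
      ring
    have e8 : (#{p : (Fin k → Fin H) × (Fin k → Fin H) | sm p.1 = sm p.2} : ℝ) * H ≤
        (H : ℝ) ^ (2 * k) := by
      have := many_pairs k hk H
      exact_mod_cast this
    refine e6.trans ?_
    rw [div_le_iff₀ hH2k]
    refine e7.trans ?_
    have e9 : Bd ^ (2 * k) ≤ H := by
      rw [one_div, inv_mul_le_iff₀ hHpos, mul_one] at haB
      exact haB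
    have e10 : (#{p : (Fin k → Fin H) × (Fin k → Fin H) | sm p.1 = sm p.2} : ℝ) *
        ((Y : ℝ) * Bd ^ (2 * k)) ≤ (H : ℝ) ^ (2 * k) * Y := by
      calc (#{p : (Fin k → Fin H) × (Fin k → Fin H) | sm p.1 = sm p.2} : ℝ) *
            ((Y : ℝ) * Bd ^ (2 * k))
          ≤ (#{p : (Fin k → Fin H) × (Fin k → Fin H) | sm p.1 = sm p.2} : ℝ) *
            ((Y : ℝ) * H) := by
            refine mul_le_mul_of_nonneg_left ?_ (Nat.cast_nonneg _)
            exact mul_le_mul_of_nonneg_left e9 hY.le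
        _ = ((#{p : (Fin k → Fin H) × (Fin k → Fin H) | sm p.1 = sm p.2} : ℝ) * H) * Y := by ring
        _ ≤ (H : ℝ) ^ (2 * k) * Y := mul_le_mul_of_nonneg_right e8 hY.le
    linarith
  -- Cauchy-Schwarz
  have hG0 : ∀ m, 0 ≤ G m := fun m => div_nonneg (sum_nonneg fun x _ => hP0 x m) hHk.le
  have hCS : (∑ m ∈ M, F m * G m) ^ 2 ≤ (∑ m ∈ M, F m) * ∑ m ∈ M, F m * G m ^ 2 := by
    refine sum_sq_le_sum_mul_sum_of_sq_le_mul M (fun m _ => (hF m).1)
      (fun m _ => mul_nonneg (hF m).1 (sq_nonneg _)) (fun m _ => le_of_eq ?_)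
    ring
  have hM2 : ∑ m ∈ M, F m * G m ^ 2 ≤ 3 * Y :=
    (sum_le_sum_of_subset_of_nonneg (subset_univ _)
      fun m _ _ => mul_nonneg (hF m).1 (sq_nonneg _)).trans hclaim
  have hMF : 0 ≤ ∑ m ∈ M, F m := sum_nonneg fun m _ => (hF m).1
  have h2 : (c * Y) ^ 2 ≤ (∑ m ∈ M, F m) * (3 * Y) :=
    (pow_le_pow_left₀ (by positivity) h1 2).trans
      (hCS.trans (mul_le_mul_of_nonneg_left hM2 hMF))
  have h3 : (c ^ 2 / 3 * Y) * (3 * Y) ≤ (∑ m ∈ M, F m) * (3 * Y) := by
    calc (c ^ 2 / 3 * Y) * (3 * Y) = (c * Y) ^ 2 := by ring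
      _ ≤ _ := h2
  exact le_of_mul_le_mul_right h3 (by positivity)

end Pool.Agent.H2.TW
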