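import Pool.Agent.H2.TW.Defs
import Pool.Agent.H2.NC.FleNu

/-!
JOB TW-ROUGH (MP_a1f59e_nt). The majorant is large at numbers without small prime factors.

PROOF. Adapt `f_le_nu1` (file NC/FleNu.lean; use its lemmas `fn1_*`). If `n` has no prime factor in `(w1 ℓ, exp (η ℓ)]` then no prime of `P1`
divides `n` (`zz ≤ RR`), and the only element of `Dr (zz ..) (RR ..)` dividing `n` is `1`, so (as in `fn1_nu_prime`)
`nu1 K η ℓ e n = GG (zz ..) (RR ..) / VP (P1 ..)`, which is `≥ c₀ (φ(W)/W) ℓ`.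
(`1` always divides; elements of `Dr` are squarefree and all their prime factors are in `(zz, RR]`, `w1 ≤ zz`.)
-/

set_option autoImplicit false

open Finset Filter

namespace Pool.Agent.H2.TW

open Pool.Agent.H16 Pool.Agent.H16.GPS Pool.Agent.H2.NC

theorem rg_nu_rough (K : ℕ) (η ℓ : ℝ) (e n : ℕ) (hR : 1 ≤ RR η ℓ) (hwz : w1 ℓ ≤ zz K η ℓ)
    (hzR : zz K η ℓ ≤ RR η ℓ)
    (hn : ∀ p : ℕ, p.Prime → w1 ℓ < p → (p : ℝ) ≤ Real.exp (η * ℓ) → ¬ p ∣ n) :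
    nu1 K η ℓ e n = GG (zz K η ℓ) (RR η ℓ) / VP (P1 K η ℓ e) := by
  classical
  have hRe : (RR η ℓ : ℝ) ≤ Real.exp (η * ℓ) := Nat.floor_le (Real.exp_pos _).le
  unfold nu1
  rw [if_pos, mul_one]
  · have h1 : (Dr (zz K η ℓ) (RR η ℓ)).filter (fun d => d ∣ n) = {1} := by
      ext d
      rw [Finset.mem_filter, Finset.mem_singleton, mem_Dr]
      constructor
      · rintro ⟨⟨h1, h2, _, h4⟩, h3⟩
        by_contra hd
        have hp : (Nat.minFac d).Prime := Nat.minFac_prime hd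
        have hz := h4 _ hp (Nat.minFac_dvd d)
        have hle : Nat.minFac d ≤ RR η ℓ := (Nat.minFac_le h1).trans h2
        refine hn _ hp (lt_of_le_of_lt hwz hz) ?_ ((Nat.minFac_dvd d).trans h3)
        exact le_trans (by exact_mod_cast hle) hRe
      · rintro rfl
        refine ⟨⟨le_rfl, hR, squarefree_one, fun p hp hp1 => ?_⟩, one_dvd _⟩
        exact absurd (Nat.dvd_one.1 hp1) hp.one_lt.ne'
    have h2 : ∑ d ∈ (Dr (zz K η ℓ) (RR η ℓ)).filter (fun d => d ∣ n),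
        lamS (zz K η ℓ) (RR η ℓ) d = 1 := by
      rw [h1, Finset.sum_singleton, lamS_one _ _ hR]
    have h3 : (∑ d ∈ (Dr (zz K η ℓ) (RR η ℓ)).filter (fun d => d ∣ n),
        lamS (zz K η ℓ) (RR η ℓ) d) ^ 2 = 1 := by rw [h2, one_pow]
    rw [h3, mul_one]
  · intro p hp
    unfold P1 at hp
    have h1 := mem_primesIoc.mp (Finset.mem_of_mem_erase hp)
    refine hn p h1.2.2 h1.1 (le_trans ?_ hRe)
    exact_mod_cast h1.2.1.trans hzR

theorem rough_le_nu1 (K : ℕ) (η : ℝ) (hη0 : 0 < η) (hη1 : η ≤ 1) : ∃ c₀ : ℝ, 0 < c₀ ∧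
    ∀ᶠ ℓ : ℝ in atTop, ∀ e n : ℕ, 1 ≤ n →
      (∀ p : ℕ, p.Prime → w1 ℓ < p → (p : ℝ) ≤ Real.exp (η * ℓ) → ¬ p ∣ n) →
      c₀ * (((W1 ℓ e).totient : ℝ) / (W1 ℓ e : ℝ) * ℓ) ≤ nu1 K η ℓ e n := by
  obtain ⟨c1, hc1, hG⟩ := GG_lower
  obtain ⟨c2, hc2, hV⟩ := Vp_ge
  refine ⟨c1 * c2 * η / 16, by positivity, ?_⟩
  filter_upwards [fn1_params K η hη0 hη1] with ℓ hℓ e n _ hn
  obtain ⟨hℓ0, hw2, hwz, hzR, hR2, hlR⟩ := hℓ
  rw [rg_nu_rough K η ℓ e n (by omega) hwz hzR hn]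
  have hlw : 0 < Real.log (w1 ℓ) := Real.log_pos (by exact_mod_cast hw2)
  have hlz : 0 < Real.log (zz K η ℓ) := Real.log_pos (by exact_mod_cast (lt_of_lt_of_le hw2 hwz))
  have h2 := fn1_totient ℓ e hw2
  have h4 : ((W1 ℓ e).totient : ℝ) / (W1 ℓ e : ℝ) * ℓ ≤
      2 / Real.log (w1 ℓ) * (2 * ℓ) :=
    mul_le_mul h2 (by linarith) hℓ0.le (by positivity)
  have h5 := fn1_VP_P1 c2 hc2 hV K η ℓ e hw2 hwz
  have h6 := fn1_VP_pos K η ℓ e
  have h7 := hG (zz K η ℓ) (RR η ℓ) (hw2.trans hwz) hR2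
  calc c1 * c2 * η / 16 * (((W1 ℓ e).totient : ℝ) / (W1 ℓ e : ℝ) * ℓ)
      ≤ c1 * c2 * η / 16 * (2 / Real.log (w1 ℓ) * (2 * ℓ)) :=
        mul_le_mul_of_nonneg_left h4 (by positivity)
    _ = (c1 * (η * ℓ / 2) / Real.log (zz K η ℓ)) /
          (2 * Real.log (w1 ℓ) / (c2 * Real.log (zz K η ℓ))) := by
        field_simp
        ring
    _ ≤ (c1 * Real.log (RR η ℓ) / Real.log (zz K η ℓ)) / VP (P1 K η ℓ e) := by
        apply div_le_div₀ _ _ h6 h5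
        · have : 0 ≤ Real.log (RR η ℓ) := Real.log_natCast_nonneg _
          positivity
        · gcongr
    _ ≤ _ := div_le_div_of_nonneg_right h7 h6.le

end Pool.Agent.H2.TW
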