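import Pool.Agent.H2.TW.Eng
import Pool.Agent.H2.TW.CorrF
import Pool.Agent.H2.TW.Rough
import Pool.Agent.H2.NC.WFacts

/-!
TW (MP_a1f59e_nt). Narrow progressions in sets of `n` for which all `n + h`, `h ∈ 𝓗`, are free of small prime factors.
-/

set_option autoImplicit false

open Finset Filter

namespace Pool.Agent.H2.TW

open Pool.Agent.H16 Pool.Agent.H16.GPS Pool.Agent.H2.NC

theorem nt_sizes (A : ℕ) (D : ℕ) (hD : 0 < D) : ∀ᶠ ℓ : ℝ in atTop, 1 ≤ ℓ ∧ ∀ E : ℝ,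
    Real.exp (3 / 4 * ℓ) ≤ E → ∃ u : ℕ, 2 * Real.exp (ℓ / 2) ≤ ((D * u + 1 : ℕ) : ℝ) ∧
      2 * E + (A + 1) * ℓ ^ A + 1 ≤ ((D * u + 1 : ℕ) : ℝ) ∧ ((D * u + 1 : ℕ) : ℝ) ≤ 4 * E := by
  have e1 : ∀ (n : ℕ) (C : ℝ), 0 < C → ∀ᶠ ℓ : ℝ in atTop, ℓ ^ n * C ≤ Real.exp (ℓ / 2) := by
    intro n C hC
    have h1 := (isLittleO_pow_exp_pos_mul_atTop n (b := 1 / 2) (by norm_num)).bound
      (show (0 : ℝ) < 1 / C by positivity)
    filter_upwards [h1, eventually_ge_atTop (0 : ℝ)] with ℓ h2 h0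
    rw [Real.norm_of_nonneg (by positivity), Real.norm_of_nonneg (Real.exp_pos _).le] at h2
    rw [show ℓ / 2 = 1 / 2 * ℓ by ring]
    calc ℓ ^ n * C ≤ (1 / C * Real.exp (1 / 2 * ℓ)) * C := mul_le_mul_of_nonneg_right h2 hC.le
      _ = Real.exp (1 / 2 * ℓ) := by field_simp
  filter_upwards [eventually_ge_atTop (1 : ℝ),
    e1 A ((A : ℝ) + 1 + 1 + D + 1) (by positivity)] with ℓ h1 h3
  refine ⟨h1, fun E hE => ?_⟩
  have hx0 : (0 : ℝ) < Real.exp (ℓ / 2) := Real.exp_pos _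
  have hE1 : Real.exp (ℓ / 2) ≤ E := (Real.exp_le_exp.mpr (by linarith)).trans hE
  have hp : (1 : ℝ) ≤ ℓ ^ A := one_le_pow₀ h1
  have hE2 : ((A : ℝ) + 1) * ℓ ^ A + 1 + D + 1 ≤ E := by
    refine le_trans ?_ hE1
    have hA0 : (0 : ℝ) ≤ A := Nat.cast_nonneg _
    have hD0 : (0 : ℝ) ≤ D := Nat.cast_nonneg _
    have h5 : ((A : ℝ) + 1) * ℓ ^ A + 1 + D + 1 ≤ ℓ ^ A * ((A : ℝ) + 1 + 1 + D + 1) := by nlinarith
    exact h5.trans h3
  have hDr : (0 : ℝ) < D := by exact_mod_cast hD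
  set V : ℝ := 2 * E + (A + 1) * ℓ ^ A + 1 with hV
  have hA0 : (0 : ℝ) ≤ A := Nat.cast_nonneg _
  have hE0 : 0 < E := lt_of_lt_of_le hx0 hE1
  have hV0 : 0 ≤ V := by rw [hV]; positivity
  refine ⟨⌈V / D⌉₊, ?_, ?_, ?_⟩
  · have h5 := Nat.le_ceil (V / D)
    rw [div_le_iff₀ hDr] at h5
    push_cast
    nlinarith
  · have h5 := Nat.le_ceil (V / D)
    rw [div_le_iff₀ hDr] at h5
    push_cast
    nlinarith
  · have h5 := (Nat.ceil_lt_add_one (show 0 ≤ V / D by positivity)).le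
    have h6 : (D : ℝ) * (⌈V / D⌉₊ : ℝ) ≤ V + D := by
      calc (D : ℝ) * (⌈V / D⌉₊ : ℝ) ≤ D * (V / D + 1) := mul_le_mul_of_nonneg_left h5 hDr.le
        _ = V + D := by field_simp
    push_cast
    linarith

/-- the image of a class in `ZMod Y` -/
noncomputable def FS {Y : ℕ} (S : Finset ℕ) (W b : ℕ) (G : ℝ) (y : ZMod Y) : ℝ := by
  classical exact if W * y.val + b ∈ S then G else 0

/-- numbers which are free of small primes: the majorant of the tuple dominates -/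
theorem nt_major (𝓗 : Finset ℕ) (K : ℕ) (η : ℝ) (hη0 : 0 < η) (hη1 : η ≤ 1) : ∃ c₀ : ℝ, 0 < c₀ ∧
    ∀ᶠ ℓ : ℝ in atTop, ∀ (e b Y : ℕ) (y : ZMod Y), 1 ≤ b →
      (∀ h ∈ 𝓗, ∀ p : ℕ, p.Prime → w1 ℓ < p → (p : ℝ) ≤ Real.exp (η * ℓ) →
        ¬ p ∣ W1 ℓ e * y.val + b + h) →
      (c₀ * (((W1 ℓ e).totient : ℝ) / (W1 ℓ e : ℝ) * ℓ)) ^ #𝓗 ≤ nuF 𝓗 K η ℓ e b y := by
  obtain ⟨c₀, hc₀, h⟩ := rough_le_nu1 K η hη0 hη1
  refine ⟨c₀, hc₀, ?_⟩
  filter_upwards [h, eventually_ge_atTop (0 : ℝ)] with ℓ h hℓ e b Y y hb hp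
  unfold nuF
  rw [← Finset.prod_const]
  apply Finset.prod_le_prod
  · intro i _
    positivity
  · intro i hi
    apply h e _ (by omega)
    intro p hpp hpw hpη hpn
    exact hp i hi p hpp hpw hpη (by rwa [← add_assoc] at hpn)

open Classical in
/-- the general form: `n ≤ W E`, the common differences are multiples of `W` -/
theorem nt_gen (k : ℕ) (hk : 2 ≤ k) (𝓗 : Finset ℕ) (h𝓗 : 𝓗.Nonempty) (δ η₀ : ℝ) (hδ : 0 < δ)
    (hη₀ : 0 < η₀) : ∃ (A : ℕ) (c : ℝ), 0 < c ∧ ∀ᶠ ℓ : ℝ in atTop, ∀ (e b : ℕ) (E : ℝ),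
      Real.exp (3 / 4 * ℓ) ≤ E → 4 * E ≤ Real.exp ℓ → ∀ S : Finset ℕ,
      (∀ n ∈ S, 1 ≤ n ∧ (n : ℝ) ≤ W1 ℓ e * E ∧ n ≡ b [MOD W1 ℓ e] ∧
        ∀ h ∈ 𝓗, ∀ p : ℕ, p.Prime → w1 ℓ < p → (p : ℝ) ≤ Real.exp (η₀ * ℓ) → ¬ p ∣ n + h) →
      δ * (E * ((W1 ℓ e : ℝ) / (((W1 ℓ e).totient : ℕ) * ℓ)) ^ #𝓗) ≤ #S →
      c * (E * ((W1 ℓ e : ℝ) / (((W1 ℓ e).totient : ℕ) * ℓ)) ^ #𝓗) ≤
        #(S.filter (fun n => ∃ d : ℕ, 1 ≤ d ∧ (d : ℝ) ≤ ℓ ^ A ∧
          ∀ j ∈ range k, n + j * (W1 ℓ e * d) ∈ S)) := by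
  set m : ℕ := #𝓗 with hm
  have hm1 : 1 ≤ m := Finset.card_pos.mpr h𝓗
  set t : ℕ := k * 2 ^ k with ht
  have ht1 : 1 ≤ t := by
    rw [ht]; exact Nat.mul_pos (by omega) (by positivity)
  set η : ℝ := min η₀ (1 / (8 * ((m * t : ℕ) : ℝ) + 8)) with hη
  have hden : (0 : ℝ) < 8 * ((m * t : ℕ) : ℝ) + 8 := by positivity
  have hη0 : 0 < η := lt_min hη₀ (by positivity)
  have hηt : η * (8 * ((m * t : ℕ) : ℝ) + 8) ≤ 1 := by
    calc η * (8 * ((m * t : ℕ) : ℝ) + 8) ≤ 1 / (8 * ((m * t : ℕ) : ℝ) + 8) * (8 * ((m * t : ℕ) : ℝ) + 8) :=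
          mul_le_mul_of_nonneg_right (min_le_right _ _) hden.le
      _ = 1 := by field_simp
  have hη1 : η ≤ 1 := by
    refine (min_le_right _ _).trans ?_
    rw [div_le_one hden]
    have : (0 : ℝ) ≤ ((m * t : ℕ) : ℝ) := Nat.cast_nonneg _
    linarith
  have hηη₀ : η ≤ η₀ := min_le_left _ _
  set K : ℕ := 16 * (m * t) + 1 with hK
  obtain ⟨c₀, hc₀, hmaj⟩ := nt_major 𝓗 K η hη0 hη1
  obtain ⟨Bn, hBn⟩ := nuF_bound 𝓗 K η hη0 hη1
  obtain ⟨D, A1, ε, c1, hD, hε, hc1, heng⟩ := engine k hk (c₀ ^ m * δ / 4) (by positivity) Bn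
  refine ⟨A1, 2 * c1 / c₀ ^ m, by positivity, ?_⟩
  filter_upwards [hmaj, hBn, heng, corrF 𝓗 h𝓗 t A1 ht1 η hη0 hηt K le_rfl ε hε,
    nt_sizes (A1 + k) D hD] with ℓ hmaj hBn heng hcorr hsz
  obtain ⟨hℓ1, hsz⟩ := hsz
  intro e b E hElow hEup S hS hSc
  set W : ℕ := W1 ℓ e with hW
  have hW0 : 0 < W := W1_pos ℓ e
  have hWr : (0 : ℝ) < W := by exact_mod_cast hW0
  have hφ0 : (0 : ℝ) < ((W.totient : ℕ) : ℝ) := by exact_mod_cast Nat.totient_pos.mpr hW0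
  have hℓ0 : (0 : ℝ) < ℓ := by linarith
  have hE0 : 0 < E := lt_of_lt_of_le (Real.exp_pos _) hElow
  set Dn : ℝ := E * ((W : ℝ) / (((W.totient : ℕ) : ℝ) * ℓ)) ^ m with hDn
  obtain ⟨u, hY1, hY2, hY3⟩ := hsz E hElow
  set Y : ℕ := D * u + 1 with hY
  have : NeZero Y := ⟨by omega⟩
  -- the representative of the class
  obtain ⟨b', hb1, hbW, hbb⟩ : ∃ b' : ℕ, 1 ≤ b' ∧ b' ≤ W ∧ b' ≡ b [MOD W] := by
    by_cases h0 : b % W = 0
    · refine ⟨W, hW0, le_rfl, ?_⟩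
      unfold Nat.ModEq
      rw [Nat.mod_self, h0]
    · exact ⟨b % W, Nat.pos_of_ne_zero h0, (Nat.mod_lt _ hW0).le, Nat.mod_modEq _ _⟩
  set G : ℝ := (c₀ * (((W.totient : ℕ) : ℝ) / (W : ℝ) * ℓ)) ^ m with hG
  have hG0 : 0 < G := by positivity
  set F : ZMod Y → ℝ := fun y => FS S W b' G y with hF
  have hFS : ∀ y : ZMod Y, F y ≠ 0 → W * y.val + b' ∈ S := by
    intro y hy
    by_contra hc
    apply hy
    simp only [hF, FS]
    rw [if_neg hc]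
  have hYexp : (Y : ℝ) ≤ Real.exp ℓ := hY3.trans hEup
  have hcorr' := hcorr e b' Y hY1 hYexp hb1 hbW
  have hF01 : ∀ y, 0 ≤ F y ∧ F y ≤ nuF 𝓗 K η ℓ e b' y := by
    intro y
    simp only [hF, FS]
    split_ifs with hy
    · refine ⟨hG0.le, ?_⟩
      apply hmaj e b' Y y hb1
      intro h hh p hp hpw hpη
      refine (hS _ hy).2.2.2 h hh p hp hpw (hpη.trans ?_)
      apply Real.exp_le_exp.mpr
      exact mul_le_mul_of_nonneg_right hηη₀ hℓ0.le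
    · exact ⟨le_rfl, nuF_nonneg _ _ _ _ _ _ _⟩
  -- the number of elements
  have hrep : ∀ n ∈ S, ∃ y : ℕ, n = W * y + b' ∧ (y : ℝ) ≤ E := by
    intro n hn
    obtain ⟨h1, h2, h3, -⟩ := hS n hn
    have h4 : n ≡ b' [MOD W] := h3.trans hbb.symm
    have h5 : b' ≤ n := by
      by_contra hlt
      push Not at hlt
      have h6 := (Nat.modEq_iff_dvd' hlt.le).mp h4
      have h7 := Nat.le_of_dvd (by omega) h6
      omega
    obtain ⟨y, hy⟩ := (Nat.modEq_iff_dvd' h5).mp h4.symm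
    refine ⟨y, by omega, ?_⟩
    have h8 : W * y ≤ n := by omega
    have h9 : ((W * y : ℕ) : ℝ) ≤ n := by exact_mod_cast h8
    push_cast at h9
    exact le_of_mul_le_mul_left (h9.trans h2) hWr
  have hEY : E < Y := by
    have : (0 : ℝ) ≤ ((A1 + k : ℕ) + 1 : ℝ) * ℓ ^ (A1 + k) := by positivity
    linarith
  have hsum : ∑ y : ZMod Y, F y = G * #S := by
    have h1 : ∑ y : ZMod Y, F y = ∑ y ∈ univ.filter (fun y : ZMod Y => W * y.val + b' ∈ S), G := by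
      rw [Finset.sum_filter]
      apply Finset.sum_congr rfl
      intro y _
      simp only [hF, FS]
    rw [h1, Finset.sum_const, nsmul_eq_mul, mul_comm]
    congr 1
    norm_cast
    apply Finset.card_bij (fun (y : ZMod Y) _ => W * y.val + b')
    · intro y hy
      exact (Finset.mem_filter.mp hy).2
    · intro y1 _ y2 _ h12
      have h3 : W * y1.val = W * y2.val := by omega
      exact ZMod.val_injective Y (Nat.eq_of_mul_eq_mul_left hW0 h3)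
    · intro n hn
      obtain ⟨y, hy, hyE⟩ := hrep n hn
      have hyY : y < Y := by
        have : (y : ℝ) < Y := lt_of_le_of_lt hyE hEY
        exact_mod_cast this
      refine ⟨(y : ZMod Y), ?_, ?_⟩
      · rw [Finset.mem_filter]
        refine ⟨Finset.mem_univ _, ?_⟩
        rw [ZMod.val_cast_of_lt hyY, ← hy]
        exact hn
      · rw [ZMod.val_cast_of_lt hyY, ← hy]
  have hGD : G * Dn = c₀ ^ m * E := by
    rw [hDn, hG, mul_left_comm, ← mul_pow]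
    have hx : c₀ * (((W.totient : ℕ) : ℝ) / (W : ℝ) * ℓ) * ((W : ℝ) / (((W.totient : ℕ) : ℝ) * ℓ)) = c₀ := by
      have h1 := hφ0.ne'
      have h2 := hWr.ne'
      have h3 := hℓ0.ne'
      field_simp
    rw [hx]; ring
  have hmean : c₀ ^ m * δ / 4 * (Y : ℝ) ≤ ∑ y, F y := by
    rw [hsum]
    calc c₀ ^ m * δ / 4 * (Y : ℝ) ≤ c₀ ^ m * δ / 4 * (4 * E) := mul_le_mul_of_nonneg_left hY3 (by positivity)
      _ = δ * (c₀ ^ m * E) := by ring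
      _ = δ * (G * Dn) := by rw [hGD]
      _ = G * (δ * Dn) := by ring
      _ ≤ G * #S := mul_le_mul_of_nonneg_left hSc hG0.le
  have hmain := heng u Y hY (by linarith [Real.exp_pos (ℓ / 2)]) (nuF 𝓗 K η ℓ e b') F hF01
    (hBn e b' Y hYexp hb1 hbW) hcorr' hmean
  set M : Finset (ZMod Y) := univ.filter (fun m : ZMod Y => ∃ b : ℕ, 1 ≤ b ∧ (b : ℝ) ≤ ℓ ^ A1 ∧
        ∀ j ∈ range k, F (m + ((j * b : ℕ) : ZMod Y)) ≠ 0) with hM
  have hMF : ∀ y ∈ M, F y = G := by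
    intro y hy
    obtain ⟨bb, -, -, hj⟩ := (Finset.mem_filter.mp hy).2
    have h1 := hFS _ (hj 0 (Finset.mem_range.mpr (by omega)))
    rw [zero_mul, Nat.cast_zero, add_zero] at h1
    simp only [hF, FS]
    rw [if_pos h1]
  rw [Finset.sum_congr rfl hMF, Finset.sum_const, nsmul_eq_mul] at hmain
  have hMS : #M ≤ #(S.filter (fun n => ∃ d : ℕ, 1 ≤ d ∧ (d : ℝ) ≤ ℓ ^ A1 ∧
        ∀ j ∈ range k, n + j * (W * d) ∈ S)) := by
    apply Finset.card_le_card_of_injOn (fun y : ZMod Y => W * y.val + b')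
    · intro y hy
      rw [Finset.mem_coe, Finset.mem_filter]
      obtain ⟨bb, hbb1, hbbA, hj⟩ := (Finset.mem_filter.mp hy).2
      have h0 := hFS _ (hj 0 (Finset.mem_range.mpr (by omega)))
      rw [zero_mul, Nat.cast_zero, add_zero] at h0
      refine ⟨h0, bb, hbb1, hbbA, ?_⟩
      · intro j hjk
        have h1 := hFS _ (hj j hjk)
        have hyE : (y.val : ℝ) ≤ E := by
          have h9 : ((W * y.val + b' : ℕ) : ℝ) ≤ W * E := (hS _ h0).2.1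
          push_cast at h9
          have : (0 : ℝ) ≤ b' := Nat.cast_nonneg _
          exact le_of_mul_le_mul_left (by linarith : (W : ℝ) * y.val ≤ W * E) hWr
        have hlt : y.val + j * bb < Y := by
          have h2 : ((y.val + j * bb : ℕ) : ℝ) < Y := by
            push_cast
            have hj' : (j : ℝ) ≤ k := by
              have := Finset.mem_range.mp hjk
              exact_mod_cast this.le
            have h3 : (j : ℝ) * bb ≤ k * ℓ ^ (A1 + k) := by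
              apply mul_le_mul hj' (hbbA.trans (pow_le_pow_right₀ hℓ1 (by omega))) (Nat.cast_nonneg _)
                (Nat.cast_nonneg _)
            have h4 : (k : ℝ) * ℓ ^ (A1 + k) ≤ (((A1 + k : ℕ) : ℝ) + 1) * ℓ ^ (A1 + k) := by
              apply mul_le_mul_of_nonneg_right _ (by positivity)
              push_cast
              have : (0 : ℝ) ≤ A1 := Nat.cast_nonneg _
              linarith
            linarith
          exact_mod_cast h2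
        have hval : (y + ((j * bb : ℕ) : ZMod Y)).val = y.val + j * bb := by
          have h5 : y + ((j * bb : ℕ) : ZMod Y) = ((y.val + j * bb : ℕ) : ZMod Y) := by
            rw [Nat.cast_add, ZMod.natCast_zmod_val]
          rw [h5, ZMod.val_cast_of_lt hlt]
        rw [hval] at h1
        have h6 : W * (y.val + j * bb) + b' = W * y.val + b' + j * (W * bb) := by ring
        rw [h6] at h1
        exact h1
    · intro y1 _ y2 _ h12
      have h12' : W * y1.val + b' = W * y2.val + b' := h12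
      have h3 : W * y1.val = W * y2.val := by omega
      exact ZMod.val_injective Y (Nat.eq_of_mul_eq_mul_left hW0 h3)
  have hMS' : (#M : ℝ) ≤ (#(S.filter (fun n => ∃ d : ℕ, 1 ≤ d ∧ (d : ℝ) ≤ ℓ ^ A1 ∧
        ∀ j ∈ range k, n + j * (W * d) ∈ S)) : ℝ) := by exact_mod_cast hMS
  refine le_trans ?_ hMS'
  -- c * Dn ≤ #M
  have h1 : c1 * (2 * E) ≤ #M * G := by
    refine le_trans (mul_le_mul_of_nonneg_left ?_ hc1.le) hmain
    have : (0 : ℝ) ≤ ((A1 + k : ℕ) + 1 : ℝ) * ℓ ^ (A1 + k) := by positivity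
    linarith
  have h2 : (2 * c1 / c₀ ^ m * Dn) * G = c1 * (2 * E) := by
    rw [mul_assoc, mul_comm Dn G, hGD]
    field_simp
  have h3 : (2 * c1 / c₀ ^ m * Dn) * G ≤ #M * G := by rw [h2]; exact h1
  exact le_of_mul_le_mul_right h3 hG0

open Classical in
theorem nt_engine (k : ℕ) (hk : 2 ≤ k) (𝓗 : Finset ℕ) (h𝓗 : 𝓗.Nonempty) (δ η₀ : ℝ) (hδ : 0 < δ)
    (hη₀ : 0 < η₀) : ∃ (A : ℕ) (c : ℝ), 0 < c ∧ ∀ᶠ ℓ : ℝ in atTop, ∀ e b : ℕ, ∀ S : Finset ℕ,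
      (∀ n ∈ S, 1 ≤ n ∧ (n : ℝ) ≤ Real.exp ℓ ∧ n ≡ b [MOD W1 ℓ e] ∧
        ∀ h ∈ 𝓗, ∀ p : ℕ, p.Prime → w1 ℓ < p → (p : ℝ) ≤ Real.exp (η₀ * ℓ) → ¬ p ∣ n + h) →
      δ * Dns #𝓗 ℓ e ≤ #S →
      c * Dns #𝓗 ℓ e ≤ #(S.filter (fun n => ∃ d : ℕ, 1 ≤ d ∧ (d : ℝ) ≤ ℓ ^ A ∧
        ∀ j ∈ range k, n + j * d ∈ S)) := by
  obtain ⟨A, c, hc, h⟩ := nt_gen k hk 𝓗 h𝓗 δ η₀ hδ hη₀
  have hbig : ∀ᶠ ℓ : ℝ in atTop, ℓ ^ 2 ≤ Real.exp (1 / 4 * ℓ) := by
    have h1 := (isLittleO_pow_exp_pos_mul_atTop 2 (b := 1 / 4) (by norm_num)).bound one_pos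
    filter_upwards [h1, eventually_ge_atTop (0 : ℝ)] with ℓ h2 h0
    rw [Real.norm_of_nonneg (by positivity), Real.norm_of_nonneg (Real.exp_pos _).le, one_mul] at h2
    exact h2
  refine ⟨A + 2, c, hc, ?_⟩
  filter_upwards [h, W1_le, W1_large 4, hbig, eventually_ge_atTop (1 : ℝ)] with ℓ h hW hW4 hbig hℓ1
  intro e b S hS hSc
  have hW0 : 0 < W1 ℓ e := W1_pos ℓ e
  have hWr : (0 : ℝ) < W1 ℓ e := by exact_mod_cast hW0
  have hWE : (W1 ℓ e : ℝ) * (Real.exp ℓ / (W1 ℓ e : ℝ)) = Real.exp ℓ := by field_simp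
  have h1 := h e b (Real.exp ℓ / (W1 ℓ e : ℝ)) (by
      rw [le_div_iff₀ hWr]
      calc Real.exp (3 / 4 * ℓ) * (W1 ℓ e : ℝ) ≤ Real.exp (3 / 4 * ℓ) * Real.exp (1 / 4 * ℓ) :=
            mul_le_mul_of_nonneg_left ((hW e).trans hbig) (Real.exp_pos _).le
        _ = Real.exp ℓ := by rw [← Real.exp_add]; ring_nf)
    (by
      rw [mul_div_assoc', div_le_iff₀ hWr]
      have h4 : (4 : ℝ) ≤ W1 ℓ e := by exact_mod_cast (hW4 e).le
      nlinarith [Real.exp_pos ℓ])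
    S (fun n hn => ⟨(hS n hn).1, by rw [hWE]; exact (hS n hn).2.1, (hS n hn).2.2⟩) hSc
  refine h1.trans ?_
  have h2 : #(S.filter (fun n => ∃ d : ℕ, 1 ≤ d ∧ (d : ℝ) ≤ ℓ ^ A ∧
        ∀ j ∈ range k, n + j * (W1 ℓ e * d) ∈ S)) ≤
      #(S.filter (fun n => ∃ d : ℕ, 1 ≤ d ∧ (d : ℝ) ≤ ℓ ^ (A + 2) ∧
        ∀ j ∈ range k, n + j * d ∈ S)) := by
    apply Finset.card_le_card
    intro n hn
    rw [Finset.mem_filter] at hn ⊢
    obtain ⟨hnS, d, hd1, hdA, hdj⟩ := hn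
    refine ⟨hnS, W1 ℓ e * d, Nat.mul_pos hW0 hd1, ?_, hdj⟩
    push_cast
    rw [add_comm A 2, pow_add]
    exact mul_le_mul (hW e) hdA (Nat.cast_nonneg _) (by positivity)
  exact_mod_cast h2

/-- `W / φ(W) ≤ C log w` -/
theorem W1_totient_ge : ∃ c : ℝ, 0 < c ∧ ∀ (ℓ : ℝ) (e : ℕ), 2 ≤ w1 ℓ →
    (W1 ℓ e : ℝ) / (((W1 ℓ e).totient : ℕ) : ℝ) ≤ c * Real.log (w1 ℓ) := by
  obtain ⟨c, hc, hV⟩ := Vp_ge
  refine ⟨1 / c, by positivity, fun ℓ e hw => ?_⟩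
  have hpr : ∀ p ∈ (primesIoc 1 (w1 ℓ)).erase e, p.Prime := fun p hp =>
    (mem_primesIoc.mp (Finset.mem_of_mem_erase hp)).2.2
  have h1 : ((W1 ℓ e).totient : ℝ) / (W1 ℓ e : ℝ) = VP ((primesIoc 1 (w1 ℓ)).erase e) := by
    unfold W1 VP
    rw [totient_prod_primes _ hpr, Nat.cast_prod, ← Finset.prod_div_distrib]
    refine Finset.prod_congr rfl fun p hp => ?_
    have hp0 : (p : ℝ) ≠ 0 := by exact_mod_cast (hpr p hp).ne_zero
    rw [sub_div, div_self hp0]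
  have h2 : VP (primesIoc 1 (w1 ℓ)) ≤ VP ((primesIoc 1 (w1 ℓ)).erase e) := by
    unfold VP
    by_cases he : e ∈ primesIoc 1 (w1 ℓ)
    · rw [← Finset.mul_prod_erase _ _ he]
      have h5 : 0 ≤ ∏ p ∈ (primesIoc 1 (w1 ℓ)).erase e, (1 - 1 / (p : ℝ)) :=
        Finset.prod_nonneg fun p hp => (one_sub_inv_pos (hpr p hp)).le
      have h6 : (0 : ℝ) ≤ 1 / (e : ℝ) := by positivity
      nlinarith
    · rw [Finset.erase_eq_of_notMem he]
  rw [fn_VP_primes _ (by omega)] at h2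
  have hw2 : (2 : ℝ) ≤ w1 ℓ := by exact_mod_cast hw
  have hlog : 0 < Real.log (w1 ℓ) := Real.log_pos (by linarith)
  have h3 : c / Real.log (w1 ℓ) ≤ ((W1 ℓ e).totient : ℝ) / (W1 ℓ e : ℝ) := by
    rw [h1]; exact (hV _ hw).trans h2
  have hW0 : (0 : ℝ) < W1 ℓ e := by exact_mod_cast W1_pos ℓ e
  have hφ0 : (0 : ℝ) < (((W1 ℓ e).totient : ℕ) : ℝ) := by
    exact_mod_cast Nat.totient_pos.mpr (W1_pos ℓ e)
  rw [div_le_iff₀ hφ0]
  rw [div_le_div_iff₀ hlog hW0] at h3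
  have h4 : 1 / c * Real.log (w1 ℓ) * ((W1 ℓ e).totient : ℝ) =
      (((W1 ℓ e).totient : ℝ) * Real.log (w1 ℓ)) / c := by ring
  rw [h4, le_div_iff₀ hc]
  linarith

/-- the form asked for by project QT: tuples over a class, `m` in place of `n = W m + A0` -/
theorem rel_tuples (κ k : ℕ) (hκ : 2 ≤ κ) (hk : 0 < k) (h : Fin k → ℕ) (hinj : Function.Injective h)
    (α η₀ : ℝ) (hα : 0 < α) (hη₀ : 0 < η₀) : ∃ C : ℕ, ∀ᶠ ℓ : ℝ in atTop,
      ∀ (e A0 Y : ℕ) (G : Finset ℕ), A0 ≤ W1 ℓ e → Real.exp (3 / 4 * ℓ) ≤ Y →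
      8 * (Y : ℝ) ≤ Real.exp ℓ → G ⊆ Icc 1 Y →
      (∀ m ∈ G, ∀ j, ∀ p : ℕ, p.Prime → p ∣ W1 ℓ e * m + A0 + h j → Real.exp (η₀ * ℓ) < p ∨ p ≤ w1 ℓ) →
      α * Y * (Real.log (w1 ℓ) / ℓ) ^ k ≤ #G →
      ∃ m d : ℕ, 1 ≤ d ∧ (d : ℝ) ≤ ℓ ^ C ∧ ∀ j < κ, m + j * d ∈ G := by
  classical
  obtain ⟨c, hc, hφ⟩ := W1_totient_ge
  set 𝓗 : Finset ℕ := univ.image h with h𝓗
  have hcard : #𝓗 = k := by
    rw [h𝓗, Finset.card_image_of_injective _ hinj, Finset.card_univ, Fintype.card_fin]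
  have hne : 𝓗.Nonempty := Finset.card_pos.mp (by omega)
  obtain ⟨A, c', hc', hmain⟩ := nt_gen κ hκ 𝓗 hne (α / (2 * c ^ k)) η₀ (by positivity) hη₀
  have hw1 : ∀ᶠ ℓ : ℝ in atTop, 2 ≤ w1 ℓ := by
    have h1 : Tendsto Real.log atTop atTop := Real.tendsto_log_atTop
    filter_upwards [h1.eventually_ge_atTop 2] with ℓ h2
    unfold w1
    exact Nat.le_floor (by exact_mod_cast h2)
  refine ⟨A, ?_⟩
  filter_upwards [hmain, hw1, eventually_ge_atTop (1 : ℝ)] with ℓ hmain hw1 hℓ1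
  intro e A0 Y G hA0 hY1 hY2 hG hp hGc
  have hW0 : 0 < W1 ℓ e := W1_pos ℓ e
  have hWr : (0 : ℝ) < W1 ℓ e := by exact_mod_cast hW0
  have hφ0 : (0 : ℝ) < (((W1 ℓ e).totient : ℕ) : ℝ) := by
    exact_mod_cast Nat.totient_pos.mpr hW0
  have hY0 : (1 : ℝ) ≤ Y := le_trans (Real.one_le_exp (by positivity)) hY1
  set f : ℕ → ℕ := fun m => W1 ℓ e * m + A0 with hf
  have hfinj : Function.Injective f := by
    intro a b hab
    simp only [hf] at hab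
    exact Nat.eq_of_mul_eq_mul_left hW0 (by omega)
  set S : Finset ℕ := G.image f with hS
  have hSc : #S = #G := Finset.card_image_of_injective _ hfinj
  have hSmem : ∀ m, f m ∈ S → m ∈ G := by
    intro m hm
    obtain ⟨m', hm', h1⟩ := Finset.mem_image.mp hm
    rwa [← hfinj h1]
  have h1 := hmain e A0 ((Y : ℝ) + 1) (by linarith) (by linarith) S (by
    intro n hn
    obtain ⟨m, hm, rfl⟩ := Finset.mem_image.mp hn
    have hm2 := Finset.mem_Icc.mp (hG hm)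
    refine ⟨?_, ?_, ?_, ?_⟩
    · simp only [hf]
      have : 0 < W1 ℓ e * m := Nat.mul_pos hW0 (by omega)
      omega
    · simp only [hf]
      have h2 : W1 ℓ e * m + A0 ≤ W1 ℓ e * (Y + 1) := by
        rw [mul_add, mul_one]
        exact Nat.add_le_add (Nat.mul_le_mul_left _ hm2.2) hA0
      exact_mod_cast h2
    · simp only [hf]
      unfold Nat.ModEq
      rw [Nat.mul_add_mod]
    · intro x hx p hpp hpw hpη hpd
      obtain ⟨j, -, rfl⟩ := Finset.mem_image.mp hx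
      rcases hp m hm j p hpp hpd with h3 | h3
      · linarith
      · omega) (by
    rw [hSc, hcard]
    refine le_trans ?_ hGc
    have h2 : (W1 ℓ e : ℝ) / (((W1 ℓ e).totient : ℕ) * ℓ) ≤ c * (Real.log (w1 ℓ) / ℓ) := by
      rw [← div_div, mul_div_assoc']
      exact div_le_div_of_nonneg_right (hφ ℓ e hw1) (by linarith)
    have h3 : ((W1 ℓ e : ℝ) / (((W1 ℓ e).totient : ℕ) * ℓ)) ^ k ≤ (c * (Real.log (w1 ℓ) / ℓ)) ^ k :=
      pow_le_pow_left₀ (by positivity) h2 _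
    calc α / (2 * c ^ k) * (((Y : ℝ) + 1) * ((W1 ℓ e : ℝ) / (((W1 ℓ e).totient : ℕ) * ℓ)) ^ k)
        ≤ α / (2 * c ^ k) * ((2 * Y) * (c * (Real.log (w1 ℓ) / ℓ)) ^ k) := by
          apply mul_le_mul_of_nonneg_left _ (by positivity)
          exact mul_le_mul (by linarith) h3 (by positivity) (by positivity)
      _ = α * Y * (Real.log (w1 ℓ) / ℓ) ^ k := by
          rw [mul_pow]
          field_simp)
  have h2 : (0 : ℝ) < #(S.filter (fun n => ∃ d : ℕ, 1 ≤ d ∧ (d : ℝ) ≤ ℓ ^ A ∧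
          ∀ j ∈ range κ, n + j * (W1 ℓ e * d) ∈ S)) := by
    refine lt_of_lt_of_le ?_ h1
    positivity
  obtain ⟨n, hn⟩ := Finset.card_pos.mp (by exact_mod_cast h2)
  obtain ⟨hnS, d, hd1, hdA, hdj⟩ := Finset.mem_filter.mp hn
  obtain ⟨m, hm, rfl⟩ := Finset.mem_image.mp hnS
  refine ⟨m, d, hd1, hdA, fun j hj => hSmem _ ?_⟩
  have h3 := hdj j (Finset.mem_range.mpr hj)
  have h4 : f (m + j * d) = f m + j * (W1 ℓ e * d) := by
    simp only [hf]; ring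
  rw [h4]
  exact h3

end Pool.Agent.H2.TW
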