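import Pool.Agent.H2.TW.SzR

/-!
# TW: Szemerédi's theorem with narrow progressions for dense sets of rough tuples, final form
-/

set_option autoImplicit false

open Finset Filter Topology

namespace Pool.Agent.H2.TW

open Pool.Agent.H16 Pool.Agent.H16.GPS Pool.Agent.H2.NC

open Classical in
theorem sz_nat (𝓗 : Finset ℕ) (h𝓗 : 𝓗.Nonempty) (k : ℕ) (δ η : ℝ) (hδ : 0 < δ) (hη : 0 < η) :
    ∃ (C : ℕ) (c : ℝ), 0 < c ∧ ∀ᶠ N : ℕ in atTop, ∀ S : Finset ℕ,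
      (∀ n ∈ S, 1 ≤ n ∧ n ≤ N ∧ ∀ h ∈ 𝓗, ∀ p : ℕ, p.Prime → p ∣ n + h → (N : ℝ) ^ η < p) →
      δ * ((N : ℝ) / Real.log N ^ (𝓗.card)) ≤ (S.card : ℝ) →
      c * ((N : ℝ) / Real.log N ^ (𝓗.card)) ≤
        (Set.ncard {n : ℕ | n ∈ S ∧ ∃ d : ℕ, 1 ≤ d ∧ (d : ℝ) ≤ Real.log N ^ C ∧
          ∀ j < k, n + j * d ∈ S} : ℝ) := by
  obtain ⟨A, c, hc, h⟩ := sz_log (k + 2) (by omega) 𝓗 h𝓗 δ η hδ hη
  refine ⟨A, c, hc, ?_⟩
  have hlog : Tendsto (fun N : ℕ => Real.log (N : ℝ)) atTop atTop :=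
    Real.tendsto_log_atTop.comp tendsto_natCast_atTop_atTop
  filter_upwards [hlog.eventually h, eventually_ge_atTop 1] with N hN hN1
  intro S hS hSc
  have hN0 : (0 : ℝ) < N := by exact_mod_cast hN1
  rw [Real.exp_log hN0] at hN
  have h1 := hN S (by
    intro n hn
    obtain ⟨h1, h2, h3⟩ := hS n hn
    refine ⟨h1, by exact_mod_cast h2, ?_⟩
    intro h hh p hp hpd
    have h4 := h3 h hh p hp hpd
    rw [Real.rpow_def_of_pos hN0, mul_comm] at h4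
    exact h4) hSc
  refine h1.trans ?_
  have hsub : (S.filter (fun n => ∃ d : ℕ, 1 ≤ d ∧ (d : ℝ) ≤ Real.log N ^ A ∧
        ∀ j ∈ range (k + 2), n + j * d ∈ S) : Set ℕ) ⊆
      {n : ℕ | n ∈ S ∧ ∃ d : ℕ, 1 ≤ d ∧ (d : ℝ) ≤ Real.log N ^ A ∧ ∀ j < k, n + j * d ∈ S} := by
    intro n hn
    rw [Finset.mem_coe, Finset.mem_filter] at hn
    obtain ⟨hnS, d, hd1, hdA, hdj⟩ := hn
    exact ⟨hnS, d, hd1, hdA, fun j hj => hdj j (Finset.mem_range.mpr (by omega))⟩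
  have hfin : {n : ℕ | n ∈ S ∧ ∃ d : ℕ, 1 ≤ d ∧ (d : ℝ) ≤ Real.log N ^ A ∧
      ∀ j < k, n + j * d ∈ S}.Finite :=
    S.finite_toSet.subset fun n hn => hn.1
  have h2 := Set.ncard_le_ncard hsub hfin
  rw [Set.ncard_coe_finset] at h2
  exact_mod_cast h2

end Pool.Agent.H2.TW
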