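import Pool.Agent.H2.TW.Up
import Pool.Agent.H2.TW.Cls

/-!
# TW: Szemerédi's theorem with narrow progressions for dense sets of rough tuples
-/

set_option autoImplicit false

open Finset Filter Topology

namespace Pool.Agent.H2.TW

open Pool.Agent.H16 Pool.Agent.H16.GPS Pool.Agent.H2.NC

open Classical in
/-- every set of the order `exp ℓ / ℓ^m` of `n ≤ exp ℓ` with all `n + h`, `h ∈ 𝓗`, free of primes `≤ exp (η ℓ)`
contains many narrow progressions -/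
theorem sz_log (k : ℕ) (hk : 2 ≤ k) (𝓗 : Finset ℕ) (h𝓗 : 𝓗.Nonempty) (δ η : ℝ) (hδ : 0 < δ)
    (hη : 0 < η) : ∃ (A : ℕ) (c : ℝ), 0 < c ∧ ∀ᶠ ℓ : ℝ in atTop, ∀ S : Finset ℕ,
      (∀ n ∈ S, 1 ≤ n ∧ (n : ℝ) ≤ Real.exp ℓ ∧
        ∀ h ∈ 𝓗, ∀ p : ℕ, p.Prime → p ∣ n + h → Real.exp (η * ℓ) < p) →
      δ * (Real.exp ℓ / ℓ ^ #𝓗) ≤ #S →
      c * (Real.exp ℓ / ℓ ^ #𝓗) ≤ #(S.filter (fun n => ∃ d : ℕ, 1 ≤ d ∧ (d : ℝ) ≤ ℓ ^ A ∧
        ∀ j ∈ range k, n + j * d ∈ S)) := by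
  obtain ⟨C₁, hC₁, hcls⟩ := cls_count 𝓗
  obtain ⟨C₂, hC₂, hup⟩ := nt_upper 𝓗 h𝓗 η hη
  set δ' : ℝ := δ / (2 * C₁) with hδ'
  have hδ'0 : 0 < δ' := by positivity
  obtain ⟨A, c, hc, hE⟩ := nt_engine k hk 𝓗 h𝓗 δ' η hδ'0 hη
  refine ⟨A, c * (δ / (2 * C₂)), by positivity, ?_⟩
  have hw : ∀ᶠ ℓ : ℝ in atTop, (w1 ℓ : ℝ) ≤ Real.exp (η * ℓ) := by
    have h1 : ∀ᶠ ℓ : ℝ in atTop, ℓ ≤ Real.exp (η * ℓ) := by
      have h1 := (isLittleO_pow_exp_pos_mul_atTop 1 (b := η) hη).bound one_pos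
      filter_upwards [h1, eventually_ge_atTop (0 : ℝ)] with ℓ h2 h0
      rw [pow_one, Real.norm_of_nonneg h0, Real.norm_of_nonneg (Real.exp_pos _).le, one_mul] at h2
      exact h2
    filter_upwards [h1, eventually_ge_atTop (1 : ℝ)] with ℓ h1 h0
    have h2 : (w1 ℓ : ℝ) ≤ Real.log ℓ := Nat.floor_le (Real.log_nonneg h0)
    have h3 : Real.log ℓ ≤ ℓ := (Real.log_le_sub_one_of_pos (by linarith)).trans (by linarith)
    linarith
  filter_upwards [hup, hE, hw, eventually_ge_atTop (1 : ℝ)] with ℓ hup hE hw hℓ1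
  intro S hS hSc
  have hℓ0 : 0 < ℓ := by linarith
  set m : ℕ := #𝓗 with hm
  set W : ℕ := W1 ℓ 0 with hW
  have hW0 : 0 < W := W1_pos ℓ 0
  have hWr : (0 : ℝ) < W := by exact_mod_cast hW0
  have hφ0 : (0 : ℝ) < ((W.totient : ℕ) : ℝ) := by exact_mod_cast Nat.totient_pos.mpr hW0
  have hWd : W1 ℓ 0 = W := rfl
  set D : ℝ := Dns m ℓ 0 with hD
  have hD0 : 0 < D := by
    rw [hD]; unfold Dns
    rw [hWd]
    positivity
  set S' : Finset ℕ := S.filter (fun n => ∃ d : ℕ, 1 ≤ d ∧ (d : ℝ) ≤ ℓ ^ A ∧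
        ∀ j ∈ range k, n + j * d ∈ S) with hS'
  set B : Finset ℕ := (range W).filter (fun b => ∀ h ∈ 𝓗, Nat.Coprime (b + h) W) with hB
  -- `#B D ≤ C₁ exp ℓ / ℓ^m`
  have hBD : (#B : ℝ) * D ≤ C₁ * (Real.exp ℓ / ℓ ^ m) := by
    have h1 := hcls ℓ 0
    have h2 : (#B : ℝ) * D ≤ C₁ * ((W : ℝ) * (((W).totient : ℝ) / (W : ℝ)) ^ m) * D :=
      mul_le_mul_of_nonneg_right h1 hD0.le
    refine h2.trans (le_of_eq ?_)
    rw [hD]; unfold Dns
    rw [hWd]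
    have e1 : (((W).totient : ℝ) / (W : ℝ)) ^ m * ((W : ℝ) / (((W).totient : ℕ) * ℓ)) ^ m = (1 / ℓ) ^ m := by
      rw [← mul_pow]
      congr 1
      field_simp
    calc C₁ * ((W : ℝ) * (((W).totient : ℝ) / (W : ℝ)) ^ m) *
          (Real.exp ℓ / (W : ℝ) * ((W : ℝ) / (((W).totient : ℕ) * ℓ)) ^ m) =
          C₁ * ((((W).totient : ℝ) / (W : ℝ)) ^ m * ((W : ℝ) / (((W).totient : ℕ) * ℓ)) ^ m) *
            (W * (Real.exp ℓ / W)) := by ring
      _ = C₁ * (1 / ℓ) ^ m * (W * (Real.exp ℓ / W)) := by rw [e1]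
      _ = C₁ * (Real.exp ℓ / ℓ ^ m) := by
        rw [mul_div_cancel₀ _ hWr.ne', one_div, inv_pow]; ring
  -- splitting into classes
  have hsplit : ∀ T : Finset ℕ, T ⊆ S → #T = ∑ b ∈ B, #(T.filter (fun n => n ≡ b [MOD W])) := by
    intro T hT
    have h1 := Finset.card_eq_sum_card_fiberwise (s := T) (t := B) (f := fun n => n % W) (by
      intro n hn
      have hnS := hT hn
      obtain ⟨hn1, hnx, hnp⟩ := hS n hnS
      rw [Finset.mem_coe, hB, Finset.mem_filter, Finset.mem_range]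
      refine ⟨Nat.mod_lt _ hW0, ?_⟩
      intro h hh
      apply Nat.Coprime.symm
      apply Nat.Coprime.symm
      rw [Nat.coprime_iff_gcd_eq_one] at *
      by_contra hne
      obtain ⟨p, hp, hpd⟩ := Nat.exists_prime_and_dvd hne
      have hp1 : p ∣ n % W + h := hpd.trans (Nat.gcd_dvd_left _ _)
      have hp2 : p ∣ W := hpd.trans (Nat.gcd_dvd_right _ _)
      have h3 : n % W + h ≡ n + h [MOD W] := Nat.ModEq.add_right _ (Nat.mod_modEq _ _)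
      have h4 : p ∣ n + h := (h3.dvd_iff hp2).mp hp1
      have h5 := hnp h hh p hp h4
      have h6 : (p : ℝ) ≤ w1 ℓ := by exact_mod_cast ((prime_dvd_W1 hp).mp hp2).1
      linarith)
    rw [h1]
    apply Finset.sum_congr rfl
    intro b hb
    have hbW : b < W := Finset.mem_range.mp (Finset.mem_filter.mp hb).1
    congr 1
    apply Finset.filter_congr
    intro n _
    unfold Nat.ModEq
    rw [Nat.mod_eq_of_lt hbW]
  have hcond : ∀ b : ℕ, ∀ n ∈ S.filter (fun n => n ≡ b [MOD W]), 1 ≤ n ∧ (n : ℝ) ≤ Real.exp ℓ ∧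
      n ≡ b [MOD W1 ℓ 0] ∧
        ∀ h ∈ 𝓗, ∀ p : ℕ, p.Prime → w1 ℓ < p → (p : ℝ) ≤ Real.exp (η * ℓ) → ¬ p ∣ n + h := by
    intro b n hn
    obtain ⟨hnS, hnb⟩ := Finset.mem_filter.mp hn
    obtain ⟨hn1, hnx, hnp⟩ := hS n hnS
    refine ⟨hn1, hnx, hnb, ?_⟩
    intro h hh p hp _ hpη hpd
    have := hnp h hh p hp hpd
    linarith
  -- good classes
  set Bg : Finset ℕ := B.filter (fun b => δ' * D ≤ #(S.filter (fun n => n ≡ b [MOD W]))) with hBg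
  have hSsum : (#S : ℝ) = ∑ b ∈ B, (#(S.filter (fun n => n ≡ b [MOD W])) : ℝ) := by
    rw [← Nat.cast_sum]; exact_mod_cast hsplit S le_rfl
  have hbad : ∑ b ∈ B.filter (fun b => ¬ δ' * D ≤ #(S.filter (fun n => n ≡ b [MOD W]))),
      (#(S.filter (fun n => n ≡ b [MOD W])) : ℝ) ≤ δ / 2 * (Real.exp ℓ / ℓ ^ m) := by
    calc ∑ b ∈ B.filter (fun b => ¬ δ' * D ≤ #(S.filter (fun n => n ≡ b [MOD W]))),
          (#(S.filter (fun n => n ≡ b [MOD W])) : ℝ) ≤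
          ∑ b ∈ B.filter (fun b => ¬ δ' * D ≤ #(S.filter (fun n => n ≡ b [MOD W]))), δ' * D := by
          apply Finset.sum_le_sum
          intro b hb
          have := (Finset.mem_filter.mp hb).2
          push Not at this
          exact this.le
      _ = #(B.filter (fun b => ¬ δ' * D ≤ #(S.filter (fun n => n ≡ b [MOD W])))) * (δ' * D) := by
          rw [Finset.sum_const, nsmul_eq_mul]
      _ ≤ #B * (δ' * D) := by
          apply mul_le_mul_of_nonneg_right _ (by positivity)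
          exact_mod_cast Finset.card_filter_le _ _
      _ = δ' * (#B * D) := by ring
      _ ≤ δ' * (C₁ * (Real.exp ℓ / ℓ ^ m)) := mul_le_mul_of_nonneg_left hBD hδ'0.le
      _ = δ / 2 * (Real.exp ℓ / ℓ ^ m) := by rw [hδ']; field_simp
  have hgood : ∑ b ∈ Bg, (#(S.filter (fun n => n ≡ b [MOD W])) : ℝ) ≤ #Bg * (C₂ * D) := by
    rw [← nsmul_eq_mul, ← Finset.sum_const]
    apply Finset.sum_le_sum
    intro b _
    exact hup 0 b _ (hcond b)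
  have hBgc : δ / (2 * C₂) * (Real.exp ℓ / ℓ ^ m) ≤ #Bg * D := by
    have h1 : (#S : ℝ) = ∑ b ∈ Bg, (#(S.filter (fun n => n ≡ b [MOD W])) : ℝ) +
        ∑ b ∈ B.filter (fun b => ¬ δ' * D ≤ #(S.filter (fun n => n ≡ b [MOD W]))),
          (#(S.filter (fun n => n ≡ b [MOD W])) : ℝ) := by
      rw [hSsum, hBg]
      exact (Finset.sum_filter_add_sum_filter_not B _ _).symm
    have h2 : δ / 2 * (Real.exp ℓ / ℓ ^ m) ≤ #Bg * (C₂ * D) := by
      have : δ * (Real.exp ℓ / ℓ ^ m) = δ / 2 * (Real.exp ℓ / ℓ ^ m) + δ / 2 * (Real.exp ℓ / ℓ ^ m) := by ring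
      linarith
    have h3 : δ / (2 * C₂) * (Real.exp ℓ / ℓ ^ m) = (δ / 2 * (Real.exp ℓ / ℓ ^ m)) / C₂ := by
      field_simp
    rw [h3, div_le_iff₀ hC₂]
    calc δ / 2 * (Real.exp ℓ / ℓ ^ m) ≤ #Bg * (C₂ * D) := h2
      _ = #Bg * D * C₂ := by ring
  -- the engine in every good class
  have heng : ∀ b ∈ Bg, c * D ≤ #(S'.filter (fun n => n ≡ b [MOD W])) := by
    intro b hb
    have h1 := (Finset.mem_filter.mp hb).2
    refine (hE 0 b _ (hcond b) h1).trans ?_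
    have h2 : #((S.filter (fun n => n ≡ b [MOD W])).filter (fun n => ∃ d : ℕ, 1 ≤ d ∧ (d : ℝ) ≤ ℓ ^ A ∧
        ∀ j ∈ range k, n + j * d ∈ S.filter (fun n => n ≡ b [MOD W]))) ≤
        #(S'.filter (fun n => n ≡ b [MOD W])) := by
      apply Finset.card_le_card
      intro n hn
      obtain ⟨hn1, d, hd1, hdA, hdj⟩ := Finset.mem_filter.mp hn
      obtain ⟨hnS, hnb⟩ := Finset.mem_filter.mp hn1
      rw [Finset.mem_filter, hS', Finset.mem_filter]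
      exact ⟨⟨hnS, d, hd1, hdA, fun j hj => (Finset.mem_filter.mp (hdj j hj)).1⟩, hnb⟩
    exact_mod_cast h2
  have hS'sum : (#S' : ℝ) = ∑ b ∈ B, (#(S'.filter (fun n => n ≡ b [MOD W])) : ℝ) := by
    rw [← Nat.cast_sum]; exact_mod_cast hsplit S' (Finset.filter_subset _ _)
  rw [hS'sum]
  calc c * (δ / (2 * C₂)) * (Real.exp ℓ / ℓ ^ m) = c * (δ / (2 * C₂) * (Real.exp ℓ / ℓ ^ m)) := by ring
    _ ≤ c * (#Bg * D) := mul_le_mul_of_nonneg_left hBgc hc.le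
    _ = ∑ b ∈ Bg, c * D := by rw [Finset.sum_const, nsmul_eq_mul]; ring
    _ ≤ ∑ b ∈ Bg, (#(S'.filter (fun n => n ≡ b [MOD W])) : ℝ) := Finset.sum_le_sum heng
    _ ≤ ∑ b ∈ B, (#(S'.filter (fun n => n ≡ b [MOD W])) : ℝ) :=
        Finset.sum_le_sum_of_subset_of_nonneg (Finset.filter_subset _ _) fun _ _ _ => Nat.cast_nonneg _

end Pool.Agent.H2.TW
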