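import Pool.Agent.H2.TW.NT

/-!
# TW: the upper bound sieve in one class
-/

set_option autoImplicit false

open Finset Filter Topology

namespace Pool.Agent.H2.TW

open Pool.Agent.H16 Pool.Agent.H16.GPS Pool.Agent.H2.NC

open Classical in
/-- upper bound sieve in the class `b` modulo `W1 ℓ e` -/
theorem nt_upper_gen (𝓗 : Finset ℕ) (h𝓗 : 𝓗.Nonempty) (η₀ : ℝ) (hη₀ : 0 < η₀) :
    ∃ C : ℝ, 0 < C ∧ ∀ᶠ ℓ : ℝ in atTop, ∀ (e b : ℕ) (E : ℝ),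
      Real.exp (3 / 4 * ℓ) ≤ E → 4 * E ≤ Real.exp ℓ → ∀ S : Finset ℕ,
      (∀ n ∈ S, 1 ≤ n ∧ (n : ℝ) ≤ W1 ℓ e * E ∧ n ≡ b [MOD W1 ℓ e] ∧
        ∀ h ∈ 𝓗, ∀ p : ℕ, p.Prime → w1 ℓ < p → (p : ℝ) ≤ Real.exp (η₀ * ℓ) → ¬ p ∣ n + h) →
      (#S : ℝ) ≤ C * (E * ((W1 ℓ e : ℝ) / (((W1 ℓ e).totient : ℕ) * ℓ)) ^ #𝓗) := by
  set m : ℕ := #𝓗 with hm
  have hm1 : 1 ≤ m := Finset.card_pos.mpr h𝓗
  set t : ℕ := 1 with ht
  have ht1 : 1 ≤ t := le_rfl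
  set η : ℝ := min η₀ (1 / (8 * ((m * t : ℕ) : ℝ) + 8)) with hη
  have hden : (0 : ℝ) < 8 * ((m * t : ℕ) : ℝ) + 8 := by positivity
  have hη0 : 0 < η := lt_min hη₀ (by positivity)
  have hηt : η * (8 * ((m * t : ℕ) : ℝ) + 8) ≤ 1 := by
    calc η * (8 * ((m * t : ℕ) : ℝ) + 8) ≤ 1 / (8 * ((m * t : ℕ) : ℝ) + 8) * (8 * ((m * t : ℕ) : ℝ) + 8) :=
          mul_le_mul_of_nonneg_right (min_le_right _ _) hden.le
      _ = 1 := by field_simp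
  have hη1 : η ≤ 1 := by
    refine (min_le_right _ _).trans ?_
    rw [div_le_one hden]
    have : (0 : ℝ) ≤ ((m * t : ℕ) : ℝ) := Nat.cast_nonneg _
    linarith
  have hηη₀ : η ≤ η₀ := min_le_left _ _
  set K : ℕ := 16 * (m * t) + 1 with hK
  obtain ⟨c₀, hc₀, hmaj⟩ := nt_major 𝓗 K η hη0 hη1
  refine ⟨8 / c₀ ^ m, by positivity, ?_⟩
  filter_upwards [hmaj, corrF 𝓗 h𝓗 t 0 ht1 η hη0 hηt K le_rfl 1 one_pos,
    nt_sizes 0 1 one_pos] with ℓ hmaj hcorr hsz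
  obtain ⟨hℓ1, hsz⟩ := hsz
  intro e b E hElow hEup S hS
  set W : ℕ := W1 ℓ e with hW
  have hW0 : 0 < W := W1_pos ℓ e
  have hWr : (0 : ℝ) < W := by exact_mod_cast hW0
  have hφ0 : (0 : ℝ) < ((W.totient : ℕ) : ℝ) := by exact_mod_cast Nat.totient_pos.mpr hW0
  have hℓ0 : (0 : ℝ) < ℓ := by linarith
  have hE0 : 0 < E := lt_of_lt_of_le (Real.exp_pos _) hElow
  set Dn : ℝ := E * ((W : ℝ) / (((W.totient : ℕ) : ℝ) * ℓ)) ^ m with hDn
  obtain ⟨u, hY1, hY2, hY3⟩ := hsz E hElow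
  set Y : ℕ := 1 * u + 1 with hY
  have : NeZero Y := ⟨by omega⟩
  -- the representative of the class
  obtain ⟨b', hb1, hbW, hbb⟩ : ∃ b' : ℕ, 1 ≤ b' ∧ b' ≤ W ∧ b' ≡ b [MOD W] := by
    by_cases h0 : b % W = 0
    · refine ⟨W, hW0, le_rfl, ?_⟩
      unfold Nat.ModEq
      rw [Nat.mod_self, h0]
    · exact ⟨b % W, Nat.pos_of_ne_zero h0, (Nat.mod_lt _ hW0).le, Nat.mod_modEq _ _⟩
  set G : ℝ := (c₀ * (((W.totient : ℕ) : ℝ) / (W : ℝ) * ℓ)) ^ m with hG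
  have hG0 : 0 < G := by positivity
  set F : ZMod Y → ℝ := fun y => FS S W b' G y with hF
  have hYexp : (Y : ℝ) ≤ Real.exp ℓ := hY3.trans hEup
  have hcorr' := hcorr e b' Y hY1 hYexp hb1 hbW
  have hF01 : ∀ y, F y ≤ nuF 𝓗 K η ℓ e b' y := by
    intro y
    simp only [hF, FS]
    split_ifs with hy
    · apply hmaj e b' Y y hb1
      intro h hh p hp hpw hpη
      refine (hS _ hy).2.2.2 h hh p hp hpw (hpη.trans ?_)
      apply Real.exp_le_exp.mpr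
      exact mul_le_mul_of_nonneg_right hηη₀ hℓ0.le
    · exact nuF_nonneg _ _ _ _ _ _ _
  -- the number of elements
  have hrep : ∀ n ∈ S, ∃ y : ℕ, n = W * y + b' ∧ (y : ℝ) ≤ E := by
    intro n hn
    obtain ⟨h1, h2, h3, -⟩ := hS n hn
    have h4 : n ≡ b' [MOD W] := h3.trans hbb.symm
    have h5 : b' ≤ n := by
      by_contra hlt
      push Not at hlt
      have h6 := (Nat.modEq_iff_dvd' hlt.le).mp h4
      have h7 := Nat.le_of_dvd (by omega) h6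
      omega
    obtain ⟨y, hy⟩ := (Nat.modEq_iff_dvd' h5).mp h4.symm
    refine ⟨y, by omega, ?_⟩
    have h8 : W * y ≤ n := by omega
    have h9 : ((W * y : ℕ) : ℝ) ≤ n := by exact_mod_cast h8
    push_cast at h9
    exact le_of_mul_le_mul_left (h9.trans h2) hWr
  have hEY : E < Y := by
    have : (0 : ℝ) ≤ ((0 : ℕ) + 1 : ℝ) * ℓ ^ 0 := by positivity
    linarith
  have hsum : ∑ y : ZMod Y, F y = G * #S := by
    have h1 : ∑ y : ZMod Y, F y = ∑ y ∈ univ.filter (fun y : ZMod Y => W * y.val + b' ∈ S), G := by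
      rw [Finset.sum_filter]
      apply Finset.sum_congr rfl
      intro y _
      simp only [hF, FS]
    rw [h1, Finset.sum_const, nsmul_eq_mul, mul_comm]
    congr 1
    norm_cast
    apply Finset.card_bij (fun (y : ZMod Y) _ => W * y.val + b')
    · intro y hy
      exact (Finset.mem_filter.mp hy).2
    · intro y1 _ y2 _ h12
      have h3 : W * y1.val = W * y2.val := by omega
      exact ZMod.val_injective Y (Nat.eq_of_mul_eq_mul_left hW0 h3)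
    · intro n hn
      obtain ⟨y, hy, hyE⟩ := hrep n hn
      have hyY : y < Y := by
        have : (y : ℝ) < Y := lt_of_le_of_lt hyE hEY
        exact_mod_cast this
      refine ⟨(y : ZMod Y), ?_, ?_⟩
      · rw [Finset.mem_filter]
        refine ⟨Finset.mem_univ _, ?_⟩
        rw [ZMod.val_cast_of_lt hyY, ← hy]
        exact hn
      · rw [ZMod.val_cast_of_lt hyY, ← hy]
  have hGD : G * Dn = c₀ ^ m * E := by
    rw [hDn, hG, mul_left_comm, ← mul_pow]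
    have hx : c₀ * (((W.totient : ℕ) : ℝ) / (W : ℝ) * ℓ) * ((W : ℝ) / (((W.totient : ℕ) : ℝ) * ℓ)) = c₀ := by
      have h1 := hφ0.ne'
      have h2 := hWr.ne'
      have h3 := hℓ0.ne'
      field_simp
    rw [hx]; ring
  have hY0 : (0 : ℝ) < Y := by linarith [hEY]
  have hnu : ∑ y : ZMod Y, nuF 𝓗 K η ℓ e b' y ≤ 2 * Y := by
    have h1 := hcorr' {0} (by simp [ht]) (by
      intro z hz
      rw [Finset.mem_singleton] at hz
      subst hz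
      simp)
    simp only [Finset.prod_singleton, Int.cast_zero, add_zero] at h1
    have h2 := (abs_le.mp h1).2
    have h3 : (∑ y : ZMod Y, nuF 𝓗 K η ℓ e b' y) / (Y : ℝ) ≤ 2 := by linarith
    rwa [div_le_iff₀ hY0] at h3
  have hfin : G * #S ≤ G * (8 / c₀ ^ m * Dn) := by
    calc G * #S = ∑ y : ZMod Y, F y := hsum.symm
      _ ≤ ∑ y : ZMod Y, nuF 𝓗 K η ℓ e b' y := Finset.sum_le_sum fun y _ => hF01 y
      _ ≤ 2 * Y := hnu
      _ ≤ 2 * (4 * E) := by linarith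
      _ = 8 / c₀ ^ m * (c₀ ^ m * E) := by field_simp; ring
      _ = 8 / c₀ ^ m * (G * Dn) := by rw [hGD]
      _ = G * (8 / c₀ ^ m * Dn) := by ring
  exact le_of_mul_le_mul_left hfin hG0

open Classical in
theorem nt_upper (𝓗 : Finset ℕ) (h𝓗 : 𝓗.Nonempty) (η₀ : ℝ) (hη₀ : 0 < η₀) :
    ∃ C : ℝ, 0 < C ∧ ∀ᶠ ℓ : ℝ in atTop, ∀ e b : ℕ, ∀ S : Finset ℕ,
      (∀ n ∈ S, 1 ≤ n ∧ (n : ℝ) ≤ Real.exp ℓ ∧ n ≡ b [MOD W1 ℓ e] ∧
        ∀ h ∈ 𝓗, ∀ p : ℕ, p.Prime → w1 ℓ < p → (p : ℝ) ≤ Real.exp (η₀ * ℓ) → ¬ p ∣ n + h) →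
      (#S : ℝ) ≤ C * Dns #𝓗 ℓ e := by
  obtain ⟨C, hC, h⟩ := nt_upper_gen 𝓗 h𝓗 η₀ hη₀
  have hbig : ∀ᶠ ℓ : ℝ in atTop, ℓ ^ 2 ≤ Real.exp (1 / 4 * ℓ) := by
    have h1 := (isLittleO_pow_exp_pos_mul_atTop 2 (b := 1 / 4) (by norm_num)).bound one_pos
    filter_upwards [h1, eventually_ge_atTop (0 : ℝ)] with ℓ h2 h0
    rw [Real.norm_of_nonneg (by positivity), Real.norm_of_nonneg (Real.exp_pos _).le, one_mul] at h2
    exact h2
  refine ⟨C, hC, ?_⟩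
  filter_upwards [h, W1_le, W1_large 4, hbig, eventually_ge_atTop (1 : ℝ)] with ℓ h hW hW4 hbig hℓ1
  intro e b S hS
  have hW0 : 0 < W1 ℓ e := W1_pos ℓ e
  have hWr : (0 : ℝ) < W1 ℓ e := by exact_mod_cast hW0
  have hWE : (W1 ℓ e : ℝ) * (Real.exp ℓ / (W1 ℓ e : ℝ)) = Real.exp ℓ := by field_simp
  exact h e b (Real.exp ℓ / (W1 ℓ e : ℝ)) (by
      rw [le_div_iff₀ hWr]
      calc Real.exp (3 / 4 * ℓ) * (W1 ℓ e : ℝ) ≤ Real.exp (3 / 4 * ℓ) * Real.exp (1 / 4 * ℓ) :=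
            mul_le_mul_of_nonneg_left ((hW e).trans hbig) (Real.exp_pos _).le
        _ = Real.exp ℓ := by rw [← Real.exp_add]; ring_nf)
    (by
      rw [mul_div_assoc', div_le_iff₀ hWr]
      have h4 : (4 : ℝ) ≤ W1 ℓ e := by exact_mod_cast (hW4 e).le
      nlinarith [Real.exp_pos ℓ])
    S (fun n hn => ⟨(hS n hn).1, by rw [hWE]; exact (hS n hn).2.1, (hS n hn).2.2⟩)

end Pool.Agent.H2.TW
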